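import Pool.Agent.H23.RS.GamDep

/-!
# RS-12 : large loads in many blocks

`alf_pr`: `ld X ξ u i` is the sum of the weights over the `w` with `ξ w = i` in
`s = (N2 G u).filter (κ w = κ u)`; `split_load` with `μ = 6 * D` (`6 * μ = 36 * D`); sum over `i`
(`Pr_exists_le`).

`alf_many`: if there are at least `m` blocks `a` containing some `u ∈ N2 G u₀` with `Alf`, choose a set
`A` of exactly `m` such blocks. For fixed `A` the events `∃ u ∈ N2 G u₀, κ u = a ∧ Alf u`, `a ∈ A`, depend on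
disjoint sets (the blocks, `alf_dep`), so by `Pr_indep_prod` the probability is at most
`(B * (R * exp)) ^ m`, where each factor is at most (number of `u ∈ N2 G u₀` in the block,
`≤ B`) times the bound of `alf_pr`. There are at most `S.choose m ≤ S ^ m` sets `A`
(`Nat.choose_le_pow`).
-/

namespace Pool.Agent.H23.RS

open Finset Classical

variable {V : Type} [Fintype V]

theorem alf_pr {X : Ctx V} {D : ℕ} (hR : 0 < X.R) (hθ : 1 ≤ X.θ) (u : V)
    (h : ∑ w ∈ (N2 X.G u).filter (fun w => X.κ w = X.κ u), wt X.G X.θ u w ≤ 6 * D * X.R) :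
    Pr (fun ξ : V → Fin X.R => Alf X D ξ u) ≤ X.R * Real.exp (-(24 * D / X.θ : ℝ)) := by
  have hne : Nonempty (Fin X.R) := ⟨⟨0, hR⟩⟩
  have h1 : Pr (fun ξ : V → Fin X.R => Alf X D ξ u) ≤
      Pr (fun ξ : V → Fin X.R => ∃ i ∈ (univ : Finset (Fin X.R)), 36 * D ≤ ld X ξ u i) := by
    apply Pr_mono
    rintro ξ ⟨i, hi⟩
    exact ⟨i, mem_univ i, hi⟩
  refine h1.trans ((Pr_exists_le univ (fun i ξ => 36 * D ≤ ld X ξ u i)).trans ?_)
  have h2 : ∀ i ∈ (univ : Finset (Fin X.R)),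
      Pr (fun ξ : V → Fin X.R => 36 * D ≤ ld X ξ u i) ≤ Real.exp (-(24 * D / X.θ : ℝ)) := by
    intro i _
    have h3 := split_load (Ω := Fin X.R) ((N2 X.G u).filter (fun w => X.κ w = X.κ u))
      (wt X.G X.θ u) hθ (fun v _ => wt_le hθ u v) (μ := 6 * D)
      (by rw [Fintype.card_fin]; exact h) i
    have h4 : (-(4 * ((6 * D : ℕ) : ℝ) / (X.θ : ℝ)) : ℝ) = -(24 * D / X.θ : ℝ) := by
      push_cast
      ring
    rw [h4] at h3
    refine le_trans (Pr_mono fun ξ hξ => ?_) h3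
    have h5 : 36 * D ≤ ∑ w ∈ (N2 X.G u).filter (fun w => X.κ w = X.κ u ∧ ξ w = i),
        wt X.G X.θ u w := hξ
    rw [← filter_filter] at h5
    have h6 : 6 * (6 * D) = 36 * D := by ring
    rw [h6]
    convert h5
  refine (sum_le_sum h2).trans ?_
  rw [sum_const, card_univ, Fintype.card_fin, nsmul_eq_mul]

theorem alf_many {X : Ctx V} {D B : ℕ} (hR : 0 < X.R) (hθ : 1 ≤ X.θ)
    (h : ∀ u, ∑ w ∈ (N2 X.G u).filter (fun w => X.κ w = X.κ u), wt X.G X.θ u w ≤ 6 * D * X.R)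
    (hB : ∀ u a, ((N2 X.G u).filter fun w => X.κ w = a).card ≤ B) (u₀ : V) (m : ℕ) :
    Pr (fun ξ : V → Fin X.R => m ≤ (univ.filter fun a : Fin X.S =>
      ∃ u ∈ N2 X.G u₀, X.κ u = a ∧ Alf X D ξ u).card) ≤
      (X.S * (B * (X.R * Real.exp (-(24 * D / X.θ : ℝ))))) ^ m := by
  have hne : Nonempty (Fin X.R) := ⟨⟨0, hR⟩⟩
  set e : ℝ := X.R * Real.exp (-(24 * D / X.θ : ℝ)) with he
  have he0 : 0 ≤ e := mul_nonneg (Nat.cast_nonneg _) (Real.exp_pos _).le
  set E : Fin X.S → (V → Fin X.R) → Prop := fun a ξ =>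
    ∃ u ∈ N2 X.G u₀, X.κ u = a ∧ Alf X D ξ u with hE
  have hdep : ∀ a, DepOn (univ.filter fun w => X.κ w = a) (E a) := by
    rintro a x y hxy ⟨u, hu, hua, hA⟩
    refine ⟨u, hu, hua, alf_dep X D u x y (fun w hw => ?_) hA⟩
    rw [mem_filter] at hw
    exact hxy w (mem_filter.2 ⟨mem_univ w, hw.2.trans hua⟩)
  have hPE : ∀ a, Pr (E a) ≤ B * e := by
    intro a
    have h1 : Pr (E a) ≤ Pr (fun ξ : V → Fin X.R =>
        ∃ u ∈ (N2 X.G u₀).filter (fun w => X.κ w = a), Alf X D ξ u) := by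
      apply Pr_mono
      rintro ξ ⟨u, hu, hua, hA⟩
      exact ⟨u, mem_filter.2 ⟨hu, hua⟩, hA⟩
    refine h1.trans ((Pr_exists_le _ (fun u ξ => Alf X D ξ u)).trans ?_)
    refine (sum_le_sum fun u _ => alf_pr hR hθ u (h u)).trans ?_
    rw [sum_const, nsmul_eq_mul]
    apply mul_le_mul_of_nonneg_right _ he0
    exact_mod_cast hB u₀ a
  have h1 : Pr (fun ξ : V → Fin X.R => m ≤ (univ.filter fun a : Fin X.S =>
      ∃ u ∈ N2 X.G u₀, X.κ u = a ∧ Alf X D ξ u).card) ≤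
      Pr (fun ξ : V → Fin X.R => ∃ A ∈ powersetCard m (univ : Finset (Fin X.S)),
        ∀ a ∈ A, E a ξ) := by
    apply Pr_mono
    intro ξ hξ
    obtain ⟨A, hA1, hA2⟩ := exists_subset_card_eq hξ
    refine ⟨A, mem_powersetCard.2 ⟨subset_univ _, hA2⟩, fun a ha => ?_⟩
    exact (mem_filter.1 (hA1 ha)).2
  refine h1.trans ((Pr_exists_le _ (fun A ξ => ∀ a ∈ A, E a ξ)).trans ?_)
  have h2 : ∀ A ∈ powersetCard m (univ : Finset (Fin X.S)),
      Pr (fun ξ : V → Fin X.R => ∀ a ∈ A, E a ξ) ≤ (B * e) ^ m := by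
    intro A hA
    rw [mem_powersetCard] at hA
    rw [Pr_indep_prod A (fun a => univ.filter fun w => X.κ w = a) E (fun a _ => hdep a)]
    · calc ∏ a ∈ A, Pr (E a) ≤ ∏ _a ∈ A, (B * e : ℝ) :=
            prod_le_prod (fun a _ => Pr_nonneg _) (fun a _ => hPE a)
        _ = (B * e) ^ m := by rw [prod_const, hA.2]
    · intro a _ b _ hab
      rw [disjoint_left]
      intro w hw hw'
      rw [mem_filter] at hw hw'
      exact hab (hw.2.symm.trans hw'.2)
  refine (sum_le_sum h2).trans ?_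
  rw [sum_const, card_powersetCard, card_univ, Fintype.card_fin, nsmul_eq_mul,
    mul_pow (X.S : ℝ)]
  apply mul_le_mul_of_nonneg_right _ (by positivity)
  exact_mod_cast Nat.choose_le_pow _ _

end Pool.Agent.H23.RS
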