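import Pool.Agent.H23.RS.Gr
import Pool.Agent.H79.Thr.Defs

/-!
# RS-14 : an rs colouring from blocks, epochs and colours

The vertices in `Y` get the colour `χ u < K` (so the colours of `Y` are the smallest), the other
vertices the colour `K + S * Q (ep u) + bl u * q (ep u) + cl u`, where `Q i = ∑ j < i, q j`. As
`bl u < S`, `cl u < q (ep u)`, this is less than `K + S * Q (ep u + 1) ≤ K + S * Q R`; vertices of a
smaller epoch have a smaller colour; equal colours imply equal `ep`, `bl`, `cl`
(compare: if `ep u < ep w` then `K + S * Q (ep u + 1) ≤ K + S * Q (ep w)`;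
`a * q + c = a' * q + c'` with `c, c' < q` gives `a = a'`, `c = c'`).
rs property: let `f u = f w`, `u ≠ w`. If both are in `Y`, then `w ∉ N2 G u` by `hχ`, so they are not
adjacent and have no common neighbour. If none is in `Y`, then `hcl` applies: they are not adjacent,
and a common neighbour `v` is in `Y` (so `f v < K ≤ f u`) or has `ep v < ep u` (so `f v < f u`).
One in `Y` and the other not: impossible.
-/

namespace Pool.Agent.H23.RS

open Finset Classical Pool.Agent.H79.Thr

variable {V : Type} [Fintype V] {G : SimpleGraph V}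

/-- the partial sums -/
def dataQ (q : ℕ → ℕ) (i : ℕ) : ℕ := ∑ j ∈ range i, q j

theorem dataQ_succ (q : ℕ → ℕ) (i : ℕ) : dataQ q (i + 1) = dataQ q i + q i := by
  unfold dataQ
  rw [Finset.sum_range_succ]

theorem dataQ_mono (q : ℕ → ℕ) {i j : ℕ} (h : i ≤ j) : dataQ q i ≤ dataQ q j := by
  unfold dataQ
  exact Finset.sum_le_sum_of_subset (Finset.range_mono h)

/-- the colour of a vertex outside `Y` -/
def dataCol (K S : ℕ) (q : ℕ → ℕ) (e b c : ℕ) : ℕ := K + S * dataQ q e + b * q e + c

theorem dataCol_ge (K S : ℕ) (q : ℕ → ℕ) (e b c : ℕ) : K + S * dataQ q e ≤ dataCol K S q e b c := by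
  unfold dataCol
  omega

theorem dataCol_lt (K S : ℕ) (q : ℕ → ℕ) {e b c : ℕ} (hb : b < S) (hc : c < q e) :
    dataCol K S q e b c < K + S * dataQ q (e + 1) := by
  unfold dataCol
  rw [dataQ_succ, mul_add]
  have h1 : (b + 1) * q e ≤ S * q e := Nat.mul_le_mul_right _ hb
  rw [add_mul, one_mul] at h1
  omega

theorem dataCol_lt_of_lt (K S : ℕ) (q : ℕ → ℕ) {e b c e' b' c' : ℕ} (hb : b < S) (hc : c < q e)
    (h : e < e') : dataCol K S q e b c < dataCol K S q e' b' c' := by
  have h1 := dataCol_lt K S q hb hc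
  have h2 := Nat.mul_le_mul_left S (dataQ_mono q (Nat.succ_le_of_lt h))
  have h3 := dataCol_ge K S q e' b' c'
  have h4 : dataQ q (e + 1) = dataQ q (Nat.succ e) := rfl
  rw [h4] at h1
  omega

theorem dataCol_inj (K S : ℕ) (q : ℕ → ℕ) {e b c e' b' c' : ℕ} (hb : b < S) (hc : c < q e)
    (hb' : b' < S) (hc' : c' < q e') (h : dataCol K S q e b c = dataCol K S q e' b' c') :
    e = e' ∧ b = b' ∧ c = c' := by
  rcases lt_trichotomy e e' with h1 | h1 | h1
  · exact absurd h (dataCol_lt_of_lt K S q hb hc h1).ne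
  · subst h1
    unfold dataCol at h
    have h2 : b * q e + c = b' * q e + c' := by omega
    rcases lt_trichotomy b b' with h3 | h3 | h3
    · have h4 : (b + 1) * q e ≤ b' * q e := Nat.mul_le_mul_right _ h3
      rw [add_mul, one_mul] at h4
      omega
    · subst h3
      exact ⟨rfl, rfl, by omega⟩
    · have h4 : (b' + 1) * q e ≤ b * q e := Nat.mul_le_mul_right _ h3
      rw [add_mul, one_mul] at h4
      omega
  · exact absurd h.symm (dataCol_lt_of_lt K S q hb' hc' h1).ne

theorem rs_of_data (Y : V → Prop) (χ ep bl cl : V → ℕ) (q : ℕ → ℕ) {K S R : ℕ}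
    (hχ : ∀ u w, Y u → Y w → w ∈ N2 G u → χ u ≠ χ w) (hK : ∀ u, χ u < K)
    (hep : ∀ u, ep u < R) (hbl : ∀ u, bl u < S) (hcl : ∀ u, ¬ Y u → cl u < q (ep u))
    (h : ∀ u w, ¬ Y u → ¬ Y w → u ≠ w → ep u = ep w → bl u = bl w → cl u = cl w →
      ¬ G.Adj u w ∧ ∀ v, G.Adj u v → G.Adj v w → ep v < ep u) :
    RSColourable (K + S * ∑ i ∈ range R, q i) G := by
  have hbound : ∀ u, (if Y u then χ u else dataCol K S q (ep u) (bl u) (cl u)) <
      K + S * ∑ i ∈ range R, q i := by
    intro u
    by_cases hY : Y u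
    · rw [if_pos hY]
      exact lt_of_lt_of_le (hK u) (Nat.le_add_right _ _)
    · rw [if_neg hY]
      have h1 := dataCol_lt K S q (hbl u) (hcl u hY)
      have h2 := Nat.mul_le_mul_left S (dataQ_mono q (Nat.succ_le_of_lt (hep u)))
      exact lt_of_lt_of_le h1 (Nat.add_le_add_left h2 K)
  have hinj : ∀ u w, ¬ Y u → ¬ Y w →
      dataCol K S q (ep u) (bl u) (cl u) = dataCol K S q (ep w) (bl w) (cl w) →
      ep u = ep w ∧ bl u = bl w ∧ cl u = cl w := fun u w hu hw he =>
    dataCol_inj K S q (hbl u) (hcl u hu) (hbl w) (hcl w hw) he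
  have hge : ∀ u, K ≤ dataCol K S q (ep u) (bl u) (cl u) := fun u =>
    le_trans (Nat.le_add_right _ _) (dataCol_ge K S q _ _ _)
  refine ⟨fun u => ⟨_, hbound u⟩, ?_, ?_⟩
  · intro u v huv heq
    have heq' := congrArg Fin.val heq
    simp only at heq'
    by_cases hu : Y u <;> by_cases hv : Y v
    · rw [if_pos hu, if_pos hv] at heq'
      exact hχ u v hu hv (adj_mem_N2 huv) heq'
    · rw [if_pos hu, if_neg hv] at heq'
      have h1 := hK u
      have h2 := hge v
      omega
    · rw [if_neg hu, if_pos hv] at heq'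
      have h1 := hK v
      have h2 := hge u
      omega
    · rw [if_neg hu, if_neg hv] at heq'
      obtain ⟨h1, h2, h3⟩ := hinj u v hu hv heq'
      exact (h u v hu hv huv.ne h1 h2 h3).1 huv
  · rintro u v w huv hvw hne ⟨heq, hlt⟩
    have heq' := congrArg Fin.val heq
    have hlt' := Fin.lt_def.1 hlt
    simp only at heq' hlt'
    by_cases hu : Y u <;> by_cases hw : Y w
    · rw [if_pos hu, if_pos hw] at heq'
      exact hχ u w hu hw (path_mem_N2 huv hvw hne.symm) heq'
    · rw [if_pos hu, if_neg hw] at heq'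
      have h1 := hK u
      have h2 := hge w
      omega
    · rw [if_neg hu, if_pos hw] at heq'
      have h1 := hK w
      have h2 := hge u
      omega
    · rw [if_neg hu, if_neg hw] at heq'
      obtain ⟨h1, h2, h3⟩ := hinj u w hu hw heq'
      have h4 := (h u w hu hw hne h1 h2 h3).2 v huv hvw
      rw [if_neg hw] at hlt'
      by_cases hv : Y v
      · rw [if_pos hv] at hlt'
        have h5 := hK v
        have h6 := hge w
        omega
      · rw [if_neg hv] at hlt'
        have h5 := dataCol_lt_of_lt K S q (e' := ep w) (b' := bl w) (c' := cl w) (hbl v)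
          (hcl v hv) (h1 ▸ h4)
        omega

end Pool.Agent.H23.RS
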