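import Mathlib

/-!
# RS-6 : greedy colouring

`r` is a symmetric relation on a finite set, every element is related to less than `T` elements
different from itself. Then there is a function `f : V → ℕ` with values less than `T` which takes
different values at different related elements. Induction over finite sets `s` (colour the elements
of `s` one after the other; a new element `u` has less than `T` related elements, so one of the
`T` colours is not used by them; `Function.update`).
-/

namespace Pool.Agent.H23.RS

open Finset Classical

variable {V : Type} [Fintype V]

theorem greedy (r : V → V → Prop) (hs : ∀ u w, r u w → r w u) {T : ℕ}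
    (hT : ∀ u, (univ.filter fun w => w ≠ u ∧ r u w).card < T) :
    ∃ f : V → ℕ, (∀ u, f u < T) ∧ ∀ u w, u ≠ w → r u w → f u ≠ f w := by
  have key : ∀ s : Finset V, ∃ f : V → ℕ, (∀ u, f u < T) ∧
      ∀ u ∈ s, ∀ w ∈ s, u ≠ w → r u w → f u ≠ f w := by
    intro s
    induction s using Finset.induction_on with
    | empty =>
      refine ⟨fun _ => 0, fun u => lt_of_le_of_lt (Nat.zero_le _) (hT u), ?_⟩
      intro u hu
      exact absurd hu (Finset.notMem_empty u)
    | insert a s ha ih =>
      obtain ⟨f, hf1, hf2⟩ := ih
      obtain ⟨c, hc1, hc2⟩ : ∃ c ∈ Finset.range T,
          c ∉ (univ.filter fun w => w ≠ a ∧ r a w).image f := by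
        apply Finset.exists_mem_notMem_of_card_lt_card
        rw [Finset.card_range]
        exact lt_of_le_of_lt Finset.card_image_le (hT a)
      rw [Finset.mem_range] at hc1
      have hc : ∀ w, w ≠ a → r a w → f w ≠ c := by
        intro w hw hr he
        apply hc2
        rw [Finset.mem_image]
        exact ⟨w, by simp [hw, hr], he⟩
      refine ⟨Function.update f a c, ?_, ?_⟩
      · intro u
        by_cases h : u = a
        · rw [h, Function.update_self]; exact hc1
        · rw [Function.update_of_ne h]; exact hf1 u
      · intro u hu w hw huw hr
        by_cases h : u = a
        · have hwa : w ≠ a := fun h' => huw (h.trans h'.symm)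
          rw [h, Function.update_self, Function.update_of_ne hwa]
          exact fun he => hc w hwa (h ▸ hr) he.symm
        · rw [Function.update_of_ne h]
          by_cases h' : w = a
          · rw [h', Function.update_self]
            exact hc u h (hs _ _ (h' ▸ hr))
          · rw [Function.update_of_ne h']
            exact hf2 u (Finset.mem_of_mem_insert_of_ne hu h) w
              (Finset.mem_of_mem_insert_of_ne hw h') huw hr
  obtain ⟨f, h1, h2⟩ := key univ
  exact ⟨f, h1, fun u w => h2 u (mem_univ _) w (mem_univ _)⟩

end Pool.Agent.H23.RS
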