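import Pool.Agent.H23.RS.Lev2
import Pool.Agent.H23.RS.Data
import Pool.Agent.H23.RS.Greedy

/-!
# RS-15 : the colouring

`Y u`: `u` is exceptional, or `Alf X D ξ u`, or `gam X ξ u = none`. For every `u₀` the set
`(N2 G u₀).filter Y` is contained in the union of: the exceptional vertices (at most `E`); the vertices
with `Alf` (they lie in less than `m₁` blocks, each block contains at most `6 D'` vertices of
`N2 G u₀`, so at most `m₁ * (6 * D')`); the vertices with `Bet` (at most `m₂` in each of the `S` blocks).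
So it has at most `E + m₁ * (6 * D') + S * m₂` elements; `greedy` for the relation
`w ∈ N2 G u ∧ Y u ∧ Y w` with `T = E + m₁ * (6 * D') + S * m₂ + 1` gives `χ`. Then `rs_of_data` with
`ep u = ξ u`, `bl u = κ u`, `cl u = (gam X ξ u).getD 0`; `cl u < q (ep u)` by `gam_eq`, `pick_some`; the
hypothesis `h` by `gam_valid`.
-/

namespace Pool.Agent.H23.RS

open Finset Classical Pool.Agent.H79.Thr

variable {V : Type} [Fintype V]

theorem rs_of_level2 {X : Ctx V} {D D' E m₁ m₂ : ℕ} (hψ : Sep X)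
    (hload : ∀ u a, ∑ w ∈ (N2 X.G u).filter (fun w => X.κ w = a), wt X.G X.θ u w < 6 * D')
    (hE : ∀ u, ((N2 X.G u).filter fun w => Exc X.G X.κ w).card ≤ E) (ξ : V → Fin X.R)
    (h : ∀ u₀, (univ.filter fun a : Fin X.S =>
        ∃ u ∈ N2 X.G u₀, X.κ u = a ∧ Alf X D ξ u).card < m₁ ∧
      ∀ a, ((N2 X.G u₀).filter fun u => X.κ u = a ∧ Bet X D ξ u).card < m₂) :
    RSColourable (E + m₁ * (6 * D') + X.S * m₂ + 1 + X.S * ∑ i ∈ range X.R, X.q i) X.G := by
  let Y : V → Prop := fun u => Exc X.G X.κ u ∨ Alf X D ξ u ∨ gam X ξ u = none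
  have hcard : ∀ u₀, ((N2 X.G u₀).filter Y).card < E + m₁ * (6 * D') + X.S * m₂ + 1 := by
    intro u₀
    obtain ⟨h1, h2⟩ := h u₀
    set BA := univ.filter fun a : Fin X.S => ∃ u ∈ N2 X.G u₀, X.κ u = a ∧ Alf X D ξ u with hBA
    have hsub : (N2 X.G u₀).filter Y ⊆ (((N2 X.G u₀).filter fun w => Exc X.G X.κ w) ∪
        (BA.biUnion fun a => (N2 X.G u₀).filter fun w => X.κ w = a)) ∪
        ((univ : Finset (Fin X.S)).biUnion fun a =>
          (N2 X.G u₀).filter fun u => X.κ u = a ∧ Bet X D ξ u) := by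
      intro u hu
      obtain ⟨hu1, hu2⟩ := mem_filter.1 hu
      by_cases hEx : Exc X.G X.κ u
      · exact mem_union_left _ (mem_union_left _ (mem_filter.2 ⟨hu1, hEx⟩))
      by_cases hAl : Alf X D ξ u
      · refine mem_union_left _ (mem_union_right _ (mem_biUnion.2 ⟨X.κ u, ?_, ?_⟩))
        · exact mem_filter.2 ⟨mem_univ _, u, hu1, rfl, hAl⟩
        · exact mem_filter.2 ⟨hu1, rfl⟩
      · refine mem_union_right _ (mem_biUnion.2 ⟨X.κ u, mem_univ _, ?_⟩)
        refine mem_filter.2 ⟨hu1, rfl, hEx, hAl, ?_⟩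
        rcases hu2 with h3 | h3 | h3
        · exact absurd h3 hEx
        · exact absurd h3 hAl
        · exact h3
    have c1 := hE u₀
    have c2 : (BA.biUnion fun a => (N2 X.G u₀).filter fun w => X.κ w = a).card ≤
        BA.card * (6 * D') :=
      card_biUnion_le_card_mul _ _ _ fun a _ => lev2_card hload u₀ a
    have c3 : ((univ : Finset (Fin X.S)).biUnion fun a =>
        (N2 X.G u₀).filter fun u => X.κ u = a ∧ Bet X D ξ u).card ≤
        (univ : Finset (Fin X.S)).card * m₂ :=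
      card_biUnion_le_card_mul _ _ _ fun a _ => (h2 a).le
    rw [card_univ, Fintype.card_fin] at c3
    have c4 : BA.card * (6 * D') ≤ m₁ * (6 * D') := Nat.mul_le_mul_right _ h1.le
    have c5 := card_le_card hsub
    have c6 := card_union_le ((((N2 X.G u₀).filter fun w => Exc X.G X.κ w) ∪
        (BA.biUnion fun a => (N2 X.G u₀).filter fun w => X.κ w = a)))
        ((univ : Finset (Fin X.S)).biUnion fun a =>
          (N2 X.G u₀).filter fun u => X.κ u = a ∧ Bet X D ξ u)
    have c7 := card_union_le ((N2 X.G u₀).filter fun w => Exc X.G X.κ w)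
        (BA.biUnion fun a => (N2 X.G u₀).filter fun w => X.κ w = a)
    omega
  obtain ⟨χ, hχ1, hχ2⟩ := greedy (fun u w => w ∈ N2 X.G u ∧ Y u ∧ Y w)
    (fun u w hr => ⟨N2_symm hr.1, hr.2.2, hr.2.1⟩) (T := E + m₁ * (6 * D') + X.S * m₂ + 1)
    (by
      intro u
      refine lt_of_le_of_lt (card_le_card ?_) (hcard u)
      intro w hw
      simp only [mem_filter, mem_univ, true_and] at hw
      simp only [mem_filter]
      exact ⟨hw.2.1, hw.2.2.2⟩)
  have hgam : ∀ u, ¬ Y u → ∃ c, gam X ξ u = some c := by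
    intro u hu
    exact Option.ne_none_iff_exists'.1 fun hn => hu (Or.inr (Or.inr hn))
  refine rs_of_data Y χ (fun u => (ξ u : ℕ)) (fun u => (X.κ u : ℕ))
    (fun u => (gam X ξ u).getD 0) X.q ?_ hχ1 (fun u => (ξ u).2) (fun u => (X.κ u).2) ?_ ?_
  · intro u w hu hw hN
    exact hχ2 u w (mem_N2.1 hN).1.symm ⟨hN, hu, hw⟩
  · intro u hu
    obtain ⟨c, hc⟩ := hgam u hu
    have h1 := hc
    rw [gam_eq] at h1
    rw [hc]
    exact (pick_some h1).1
  · intro u w hu hw huw h1 h2 h3
    obtain ⟨c, hc⟩ := hgam u hu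
    obtain ⟨c', hc'⟩ := hgam w hw
    have h3' : c = c' := by
      rw [hc, hc'] at h3
      exact h3
    have hEu : ¬ Exc X.G X.κ u := fun he => hu (Or.inl he)
    have hEw : ¬ Exc X.G X.κ w := fun he => hw (Or.inl he)
    obtain ⟨h4, h5⟩ := gam_valid hψ ξ huw hEu hEw (Fin.ext h2.symm) (Fin.ext h1.symm)
      (by rw [hc]; exact Option.some_ne_none c) (by rw [hc, hc', h3'])
    exact ⟨h4, fun v hv hv' => h5 v hv hv'⟩

end Pool.Agent.H23.RS
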