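import Pool.Agent.H23.RS.Lev1
import Pool.Agent.H23.RS.Count

/-!
# RS-16 : assembly with parameters

`Par d K` lists numbers with all numerical properties that are used, such that the number of
colours is at most `K`. `rs_of_par`: every graph of maximum degree at most `d` is rs
`K`-colourable. Proof: `level1` gives `κ`; the weights are at least 1, so
`#{w ∈ N2 G u | κ w = a} < 6 D'` and `greedy` (relation: `w ∈ N2 G u ∧ κ w = κ u`, `T = 6 D'`; here
`0 < D'` as the load is less than `6 D'`) gives `ψ`; `level2` gives `ξ`; `rs_of_level2`.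
If `V` is empty everything is trivial (or note that all steps work).
`RSColourable k G → k ≤ k' → RSColourable k' G` by `Fin.castLE`.
-/

namespace Pool.Agent.H23.RS

open Finset Classical Pool.Agent.H79.Thr

/-- The parameters of the construction and their numerical properties. -/
structure Par (d K : ℕ) where
  /-- number of blocks -/
  S : ℕ
  /-- average load of a block -/
  D' : ℕ
  /-- average load of an epoch in a block -/
  D : ℕ
  /-- threshold -/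
  θ : ℕ
  /-- number of epochs -/
  R : ℕ
  /-- number of disjoint sets -/
  L : ℕ
  /-- number of blocks with large loads -/
  m₁ : ℕ
  /-- number of vertices of a block without free colour -/
  m₂ : ℕ
  /-- number of good colours -/
  M₀ : ℕ
  /-- palette sizes -/
  q : ℕ → ℕ
  /-- probability that a good colour is free -/
  ρ : ℝ
  /-- probabilities of the bad events, first choice -/
  p₁ : ℝ
  /-- probabilities of the bad events, second choice -/
  p₂ : ℝ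
  hS : 0 < S
  hR : 0 < R
  hθ : 1 ≤ θ
  hSD : d ^ 2 ≤ D' * S
  hD : D' ≤ D * R
  a1 : Real.exp (-(4 * D' / θ : ℝ)) ≤ p₁
  a2 : ((d : ℝ) ^ 3 / S) ^ L / (L.factorial : ℝ) ≤ p₁
  a3 : ((d : ℝ) ^ 5 / (S : ℝ) ^ 2) ^ L / (L.factorial : ℝ) ≤ p₁
  a4 : p₁ < 1 / 2
  a5 : 4 * p₁ * (((S + 2) * (d ^ 2 + 1) ^ 4 : ℕ) : ℝ) ≤ 1
  hρ0 : 0 ≤ ρ
  hρ1 : ρ ≤ 1
  hq0 : 36 * D ≤ q 0
  hq : ∀ i, 1 ≤ i → i < R → ∃ t : ℕ, ρ ≤ ((i : ℝ) / R) ^ t ∧
    36 * D / (t + 1) + 36 * D / θ + M₀ ≤ q i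
  b1 : ((S : ℝ) * ((6 * D' : ℕ) * (R * Real.exp (-(24 * D / θ : ℝ))))) ^ m₁ ≤ p₂
  b2 : 2 ^ (6 * D') * ((1 - ρ) ^ M₀) ^ m₂ ≤ p₂
  b3 : p₂ < 1 / 2
  b4 : 4 * p₂ * (((S + 1) * (d ^ 2 + 1) ^ (2 * (6 * D' + 2)) : ℕ) : ℝ) ≤ 1
  hK : 5 * L * (6 * D') + m₁ * (6 * D') + S * m₂ + 1 + S * ∑ i ∈ range R, q i ≤ K

theorem asm_mono {V : Type} {G : SimpleGraph V} {k k' : ℕ} (h : k ≤ k')
    (hk : RSColourable k G) : RSColourable k' G := by
  obtain ⟨f, hf⟩ := hk
  refine ⟨fun v => Fin.castLE h (f v), fun u v huv he => ?_, fun u v w huv hvw hne => ?_⟩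
  · exact hf.1 u v huv (Fin.castLE_injective h he)
  · rintro ⟨h1, h2⟩
    exact hf.2 u v w huv hvw hne ⟨Fin.castLE_injective h h1, h2⟩

theorem rs_of_par {V : Type} [Fintype V] (G : SimpleGraph V) {d K : ℕ} (P : Par d K)
    (hd : ∀ u, (nb G u).card ≤ d) : RSColourable K G := by
  obtain ⟨κ, hload, hE⟩ := level1 (G := G) hd P.hS P.hSD P.hθ P.a1 P.a2 P.a3 P.a4 P.a5
  obtain ⟨ψ, hψ1, hψ2⟩ := greedy (V := V) (fun u w => w ∈ N2 G u ∧ κ w = κ u)
    (fun u w h => ⟨N2_symm h.1, h.2.symm⟩) (T := 6 * P.D') (by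
      intro u
      refine lt_of_le_of_lt ?_ (hload u (κ u))
      refine le_trans (card_le_card (t := (N2 G u).filter fun w => κ w = κ u) ?_) ?_
      · intro w hw
        simp only [mem_filter, mem_univ, true_and] at hw ⊢
        exact hw.2
      · rw [Finset.card_eq_sum_ones]
        exact Finset.sum_le_sum fun w _ => one_le_wt _ _ _)
  let X : Ctx V := ⟨G, P.S, κ, ψ, P.θ, P.R, P.q⟩
  have hSep : Sep X := by
    intro u w hw hκ
    exact (hψ2 u w (mem_N2.1 hw).1.symm ⟨hw, hκ⟩).symm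
  have hPal : Pal X P.D P.M₀ P.ρ := ⟨P.hR, P.hθ, P.hρ0, P.hρ1, P.hq0, P.hq⟩
  obtain ⟨ξ, hξ⟩ := level2 (X := X) (T := 6 * P.D') (m₁ := P.m₁) (m₂ := P.m₂) hd hPal P.hD hψ1
    hload P.b1 P.b2 P.b3 P.b4
  exact asm_mono P.hK (rs_of_level2 hSep hload hE ξ hξ)

end Pool.Agent.H23.RS
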