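import Pool.Agent.H23.RS.GamDep

/-!
# RS-10a : when no colour is free (deterministic part)

`LM X u`: the neighbours `v` of `u` that are adjacent to some `w ≠ u` in the block of `u` with
`ψ w < ψ u`. Let `u` be not exceptional, `ξ` fixed, `i = ξ u ≥ 1`, `¬ Alf X D ξ u`; for
`η : V → Fin R` let `ζ = (LM X u).piecewise η ξ`.

`lm_block`: a vertex `v ∈ LM X u` of the block of `u` would be a neighbour of `u` in its block: `Exc`.
`lm_rel`: let `v ∈ LM X u`, `v ∈ Rel X u'`. It is not in the block; so there are `w₁, w₂` of the block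
adjacent to `v` with `ψ w₂ < ψ w₁`, and `w₁ = u'` or `ψ w₁ < ψ u'`. If `w₁, w₂ ≠ u`, then `u` is
exceptional. If `w₁ = u`: then `u = u'` or `ψ u < ψ u'`, impossible. If `w₂ = u`: `ψ u < ψ w₁ ≤ ψ u'`,
impossible.

`bet_struct`. (a) By `lm_block` `ζ = ξ` on the block, so `Alf X D ζ u ↔ Alf X D ξ u` (`alf_dep`),
`ζ u = ξ u`.
(b) If `κ w = κ u` and `ψ w < ψ u` then `gam X ζ w = gam X ξ w`, by `gam_dep_rel` and `lm_rel`.
(c) For a colour `c` let `W c` be the set of the `w ∈ N2 G u` with `κ w = κ u`, `ψ w < ψ u`, `ξ w = i`,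
`w` not exceptional, `gam X ξ w = some c`; these sets are disjoint. All these `w` are not adjacent to `u`
(`u` is not exceptional), so they have a common neighbour with `u`. `c` is hard if some
`w ∈ W c` has `cod u w ≥ θ`. `mid c`: the common neighbours of `u` with the elements of `W c`; it is
contained in `LM X u`. For `c ≠ c'` the sets `mid c`, `mid c'` are disjoint (a common element `v`
would be adjacent to `u` and two other vertices of the block). If `c` is not hard then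
`(mid c).card ≤ ∑ w ∈ W c, cod u w = ∑ w ∈ W c, wt θ u w` (`wt_eq_cod`).
(d) All weights sum up to at most `ld X ξ u i < 36 D`. The number of hard colours times `θ` is at most
this sum (`wt_eq_theta`), so it is at most `36 * D / θ`. The number of the non-hard colours with
`(mid c).card ≥ t + 1` is at most `36 * D / (t + 1)`. So the set `C` of the colours `c < q i` that are
not hard and have `(mid c).card ≤ t` has at least `M₀` elements (`Pal.hq`).
(e) If `Bet X D ζ u` then every `c < q i` is blocked (`gam_eq`, `pick_none`): so for `c ∈ C` there are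
`w ∈ W c` (by (b)) and a common neighbour `v` with `ζ v ≥ i` (`w` is not hard), `v ∈ mid c ⊆ LM X u`, so
`η v = ζ v ≥ i`.

`bet_zero`: if `ξ u = 0`: every element of some `W c` has weight at least 1, so less than
`36 * D ≤ q 0` colours are blocked at all, and `gam X ξ u ≠ none`.
-/

namespace Pool.Agent.H23.RS

open Finset Classical

variable {V : Type} [Fintype V]

/-- The neighbours of `u` whose epochs are fresh when `u` is coloured. -/
noncomputable def LM (X : Ctx V) (u : V) : Finset V :=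
  univ.filter fun v => ∃ w, w ≠ u ∧ X.κ w = X.κ u ∧ X.ψ w < X.ψ u ∧ X.G.Adj u v ∧ X.G.Adj v w

/-- The hypothesis on the palette sizes. -/
structure Pal (X : Ctx V) (D M₀ : ℕ) (ρ : ℝ) : Prop where
  hR : 0 < X.R
  hθ : 1 ≤ X.θ
  hρ0 : 0 ≤ ρ
  hρ1 : ρ ≤ 1
  hq0 : 36 * D ≤ X.q 0
  hq : ∀ i, 1 ≤ i → i < X.R → ∃ t : ℕ, ρ ≤ ((i : ℝ) / X.R) ^ t ∧
    36 * D / (t + 1) + 36 * D / X.θ + M₀ ≤ X.q i

/-- The fresh coordinates are not in the block. -/
theorem lm_block {X : Ctx V} {u v : V} (hu : ¬ Exc X.G X.κ u) (hv : v ∈ LM X u) :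
    X.κ v ≠ X.κ u := by
  rw [LM, mem_filter] at hv
  obtain ⟨-, w, hwu, hκ, hψ, h1, h2⟩ := hv
  intro h
  exact hu (Or.inl ⟨v, h1, h⟩)

/-- The fresh coordinates of `u` are irrelevant for the vertices of the block with smaller `ψ`, and
for the other vertices `u'` of the block with `ψ u' ≤ ψ u`. -/
theorem lm_rel {X : Ctx V} {u u' v : V} (hu : ¬ Exc X.G X.κ u) (hκ : X.κ u' = X.κ u)
    (hne : u' ≠ u) (hψ : X.ψ u' ≤ X.ψ u) (hv : v ∈ LM X u) : v ∉ Rel X u' := by
  intro hr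
  have hb := lm_block hu hv
  rw [LM, mem_filter] at hv
  obtain ⟨-, w0, hwu, hκ0, hψ0, h1, h2⟩ := hv
  rw [Rel, mem_filter] at hr
  rcases hr.2 with h | ⟨w, w', hκw, hκw', hψw, hor, ha, ha'⟩
  · exact hb (h.trans hκ)
  · by_cases e1 : w = u
    · rcases hor with h | h
      · exact hne (h.symm.trans e1)
      · rw [e1] at h
        omega
    · by_cases e2 : w' = u
      · rw [e2] at hψw
        rcases hor with h | h
        · rw [h] at hψw
          omega
        · omega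
      · refine hu (Or.inr ⟨v, w, w', h1, ha.symm, ha', e1, e2, ?_, hκw.trans hκ, hκw'.trans hκ⟩)
        intro e
        rw [e] at hψw
        omega

/-- the vertices that give the colour `c` -/
noncomputable def betW (X : Ctx V) (ξ : V → Fin X.R) (u : V) (c : ℕ) : Finset V :=
  (N2 X.G u).filter fun w => X.κ w = X.κ u ∧ X.ψ w < X.ψ u ∧ ξ w = ξ u ∧ ¬ Exc X.G X.κ w ∧
    gam X ξ w = some c

/-- the common neighbours of `u` and these vertices -/
noncomputable def betM (X : Ctx V) (ξ : V → Fin X.R) (u : V) (c : ℕ) : Finset V :=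
  univ.filter fun v => ∃ w ∈ betW X ξ u c, X.G.Adj u v ∧ X.G.Adj v w

theorem mem_betW {X : Ctx V} {ξ : V → Fin X.R} {u : V} {c : ℕ} {w : V} :
    w ∈ betW X ξ u c ↔ w ∈ N2 X.G u ∧ X.κ w = X.κ u ∧ X.ψ w < X.ψ u ∧ ξ w = ξ u ∧
      ¬ Exc X.G X.κ w ∧ gam X ξ w = some c := by
  rw [betW, mem_filter]

theorem mem_betM {X : Ctx V} {ξ : V → Fin X.R} {u : V} {c : ℕ} {v : V} :
    v ∈ betM X ξ u c ↔ ∃ w ∈ betW X ξ u c, X.G.Adj u v ∧ X.G.Adj v w := by
  rw [betM, mem_filter]
  simp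

theorem betM_subset {X : Ctx V} {ξ : V → Fin X.R} {u : V} {c : ℕ} :
    betM X ξ u c ⊆ LM X u := by
  intro v hv
  obtain ⟨w, hw, h1, h2⟩ := mem_betM.1 hv
  obtain ⟨h3, h4, h5, -⟩ := mem_betW.1 hw
  rw [LM, mem_filter]
  exact ⟨mem_univ _, w, (mem_N2.1 h3).1, h4, h5, h1, h2⟩

theorem betM_disj {X : Ctx V} {ξ : V → Fin X.R} {u : V} (hu : ¬ Exc X.G X.κ u) {c c' : ℕ}
    (hcc : c ≠ c') : Disjoint (betM X ξ u c) (betM X ξ u c') := by
  rw [disjoint_left]
  intro v hv hv'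
  obtain ⟨w, hw, h1, h2⟩ := mem_betM.1 hv
  obtain ⟨w', hw', h1', h2'⟩ := mem_betM.1 hv'
  obtain ⟨h3, h4, h5, -, -, h6⟩ := mem_betW.1 hw
  obtain ⟨h3', h4', h5', -, -, h6'⟩ := mem_betW.1 hw'
  refine hu (Or.inr ⟨v, w, w', h1, h2, h2', (mem_N2.1 h3).1, (mem_N2.1 h3').1, ?_, h4, h4'⟩)
  intro e
  rw [e, h6'] at h6
  exact hcc (Option.some.inj h6).symm

/-- The sum of the weights of a set of colours is bounded by the load. -/
theorem bet_sum {X : Ctx V} (ξ : V → Fin X.R) (u : V) (s : Finset ℕ) :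
    ∑ c ∈ s, ∑ w ∈ betW X ξ u c, wt X.G X.θ u w ≤ ld X ξ u (ξ u) := by
  have hd : ∀ c ∈ s, ∀ c' ∈ s, c ≠ c' → Disjoint (betW X ξ u c) (betW X ξ u c') := by
    intro c _ c' _ hcc
    rw [disjoint_left]
    intro w hw hw'
    have h6 := (mem_betW.1 hw).2.2.2.2.2
    rw [(mem_betW.1 hw').2.2.2.2.2] at h6
    exact hcc (Option.some.inj h6).symm
  rw [← sum_biUnion hd, ld]
  refine sum_le_sum_of_subset ?_
  intro w hw
  obtain ⟨c, -, hw⟩ := mem_biUnion.1 hw
  obtain ⟨h3, h4, h5, h6, -⟩ := mem_betW.1 hw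
  exact mem_filter.2 ⟨h3, h4, h6⟩

/-- Vertices of the block in the second neighbourhood have a common neighbour with `u`. -/
theorem bet_cod {X : Ctx V} {ξ : V → Fin X.R} {u : V} (hu : ¬ Exc X.G X.κ u) {c : ℕ} {w : V}
    (hw : w ∈ betW X ξ u c) : 1 ≤ cod X.G u w := by
  obtain ⟨h3, h4, h5, -⟩ := mem_betW.1 hw
  rcases (mem_N2.1 h3).2 with h | ⟨v, h, h'⟩
  · exact absurd (Or.inl ⟨w, h, h4⟩) hu
  · rw [cod, Nat.one_le_iff_ne_zero, Ne, card_eq_zero]
    intro h0
    have h1 : v ∈ univ.filter (fun v => X.G.Adj u v ∧ X.G.Adj v w) := by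
      simp only [mem_filter, mem_univ, true_and]
      exact ⟨h, h'⟩
    rw [h0] at h1
    simp at h1

theorem betM_card {X : Ctx V} {ξ : V → Fin X.R} {u : V} {c : ℕ} :
    (betM X ξ u c).card ≤ ∑ w ∈ betW X ξ u c, cod X.G u w := by
  have h1 : betM X ξ u c ⊆ (betW X ξ u c).biUnion fun w =>
      univ.filter (fun v => X.G.Adj u v ∧ X.G.Adj v w) := by
    intro v hv
    obtain ⟨w, hw, h1, h2⟩ := mem_betM.1 hv
    refine mem_biUnion.2 ⟨w, hw, ?_⟩
    simp only [mem_filter, mem_univ, true_and]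
    exact ⟨h1, h2⟩
  exact (card_le_card h1).trans card_biUnion_le

/-- The event does not see the fresh coordinates, except through the blocked colours. -/
theorem piecewise_self' {X : Ctx V} {D : ℕ} {u : V} (hu : ¬ Exc X.G X.κ u) (ξ η : V → Fin X.R) :
    (LM X u).piecewise η ξ u = ξ u ∧ (Alf X D ((LM X u).piecewise η ξ) u ↔ Alf X D ξ u) := by
  have h1 : ∀ v, X.κ v = X.κ u → (LM X u).piecewise η ξ v = ξ v := by
    intro v hv
    rw [piecewise_eq_of_notMem]
    intro h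
    exact lm_block hu h hv
  have h2 : ∀ v ∈ (N2 X.G u).filter (fun w => X.κ w = X.κ u),
      (LM X u).piecewise η ξ v = ξ v := fun v hv => h1 v (mem_filter.1 hv).2
  refine ⟨h1 u rfl, ?_, ?_⟩
  · exact alf_dep X D u _ _ h2
  · exact alf_dep X D u _ _ (fun v hv => (h2 v hv).symm)

/-- The deterministic part of the estimate. -/
theorem bet_struct {X : Ctx V} {D M₀ : ℕ} {ρ : ℝ} (hp : Pal X D M₀ ρ) {u : V}
    (hu : ¬ Exc X.G X.κ u) (ξ : V → Fin X.R) (h1 : 1 ≤ (ξ u : ℕ)) (hA : ¬ Alf X D ξ u) :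
    ∃ (C : Finset ℕ) (mid : ℕ → Finset V) (t : ℕ), M₀ ≤ C.card ∧ ρ ≤ ((ξ u : ℝ) / X.R) ^ t ∧
      (∀ c ∈ C, mid c ⊆ LM X u ∧ (mid c).card ≤ t) ∧
      (∀ c ∈ C, ∀ c' ∈ C, c ≠ c' → Disjoint (mid c) (mid c')) ∧
      ∀ η : V → Fin X.R, Bet X D ((LM X u).piecewise η ξ) u → ∀ c ∈ C, ∃ v ∈ mid c, ξ u ≤ η v := by
  obtain ⟨t, ht1, ht2⟩ := hp.hq (ξ u) h1 (ξ u).2
  have hld : ld X ξ u (ξ u) < 36 * D := by
    by_contra h
    push Not at h
    exact hA ⟨_, h⟩
  set Hd : ℕ → Prop := fun c => ∃ w ∈ betW X ξ u c, X.θ ≤ cod X.G u w with hHd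
  -- hard colours
  have hhard : ((range (X.q (ξ u))).filter fun c => Hd c).card ≤ 36 * D / X.θ := by
    rw [Nat.le_div_iff_mul_le hp.hθ]
    refine le_trans ?_ ((bet_sum ξ u ((range (X.q (ξ u))).filter fun c => Hd c)).trans hld.le)
    rw [← smul_eq_mul]
    refine card_nsmul_le_sum _ _ _ fun c hc => ?_
    obtain ⟨w, hw, hθ⟩ := (mem_filter.1 hc).2
    refine (wt_eq_theta hp.hθ hθ).ge.trans ?_
    exact single_le_sum (f := fun w => wt X.G X.θ u w) (fun _ _ => Nat.zero_le _) hw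
  -- colours with many middle vertices
  have hmany : ((range (X.q (ξ u))).filter fun c => ¬ Hd c ∧ t + 1 ≤ (betM X ξ u c).card).card ≤
      36 * D / (t + 1) := by
    rw [Nat.le_div_iff_mul_le (Nat.succ_pos t)]
    refine le_trans ?_ ((bet_sum ξ u ((range (X.q (ξ u))).filter
      fun c => ¬ Hd c ∧ t + 1 ≤ (betM X ξ u c).card)).trans hld.le)
    rw [← smul_eq_mul]
    refine card_nsmul_le_sum _ _ _ fun c hc => ?_
    obtain ⟨hnh, hc2⟩ := (mem_filter.1 hc).2
    refine (hc2.trans betM_card).trans (le_of_eq (sum_congr rfl fun w hw => ?_))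
    have hlt : cod X.G u w < X.θ := by
      by_contra h
      push Not at h
      exact hnh ⟨w, hw, h⟩
    exact (wt_eq_cod hlt (bet_cod hu hw)).symm
  refine ⟨(range (X.q (ξ u))).filter fun c => ¬ Hd c ∧ (betM X ξ u c).card ≤ t, betM X ξ u, t, ?_,
    ht1, fun c hc => ⟨betM_subset, (mem_filter.1 hc).2.2⟩, fun c _ c' _ hcc => betM_disj hu hcc, ?_⟩
  · have h2 : range (X.q (ξ u)) ⊆ ((range (X.q (ξ u))).filter fun c => ¬ Hd c ∧
        (betM X ξ u c).card ≤ t) ∪ (((range (X.q (ξ u))).filter fun c => Hd c) ∪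
        ((range (X.q (ξ u))).filter fun c => ¬ Hd c ∧ t + 1 ≤ (betM X ξ u c).card)) := by
      intro c hc
      simp only [mem_union, mem_filter, hc, true_and]
      by_cases h : Hd c
      · exact Or.inr (Or.inl h)
      · rcases Nat.lt_or_ge t (betM X ξ u c).card with h' | h'
        · exact Or.inr (Or.inr ⟨h, h'⟩)
        · exact Or.inl ⟨h, h'⟩
    have h3 := (card_le_card h2).trans ((card_union_le _ _).trans
      (Nat.add_le_add_left (card_union_le _ _) _))
    rw [card_range] at h3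
    omega
  · intro η hB c hc
    obtain ⟨hcr, hnh, -⟩ := mem_filter.1 hc
    have hself := (piecewise_self' (D := D) hu ξ η).1
    have hblk : ∀ v, X.κ v = X.κ u → (LM X u).piecewise η ξ v = ξ v := by
      intro v hv
      rw [piecewise_eq_of_notMem]
      intro h
      exact lm_block hu h hv
    have hnone := hB.2.2
    rw [gam_eq, hself] at hnone
    obtain ⟨w, hψw, hBlk, hgw⟩ := pick_none hnone c (mem_range.1 hcr)
    obtain ⟨hew, hwN, hκw, hξw, hor⟩ := hBlk
    have hwu : w ≠ u := (mem_N2.1 hwN).1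
    have hg2 : gam X ((LM X u).piecewise η ξ) w = gam X ξ w := by
      refine gam_dep_rel X w fun v hv => ?_
      rw [piecewise_eq_of_notMem]
      intro h
      exact lm_rel hu hκw hwu hψw.le h hv
    rw [hself, hblk w hκw] at hξw
    have hwW : w ∈ betW X ξ u c := mem_betW.2 ⟨hwN, hκw, hψw, hξw, hew, by rw [← hg2]; exact hgw⟩
    rcases hor with h | ⟨v, h2, h3, h4⟩
    · exact absurd ⟨w, hwW, h⟩ hnh
    · have hvM : v ∈ betM X ξ u c := mem_betM.2 ⟨w, hwW, h2, h3⟩
      refine ⟨v, hvM, ?_⟩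
      rw [hself, piecewise_eq_of_mem _ _ _ (betM_subset hvM)] at h4
      exact h4

theorem bet_zero {X : Ctx V} {D M₀ : ℕ} {ρ : ℝ} (hp : Pal X D M₀ ρ) {u : V}
    (hu : ¬ Exc X.G X.κ u) (ξ : V → Fin X.R) (h0 : (ξ u : ℕ) = 0) (hA : ¬ Alf X D ξ u) :
    gam X ξ u ≠ none := by
  intro hnone
  rw [gam_eq] at hnone
  have hall := pick_none hnone
  have hld : ld X ξ u (ξ u) < 36 * D := by
    by_contra h
    push Not at h
    exact hA ⟨_, h⟩
  have h1 : X.q (ξ u) ≤ ld X ξ u (ξ u) := by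
    refine le_trans ?_ (bet_sum ξ u (range (X.q (ξ u))))
    have h2 : (range (X.q (ξ u))).card • 1 ≤
        ∑ c ∈ range (X.q (ξ u)), ∑ w ∈ betW X ξ u c, wt X.G X.θ u w := by
      refine card_nsmul_le_sum _ _ _ fun c hc => ?_
      obtain ⟨w, hψw, hBlk, hgw⟩ := hall c (mem_range.1 hc)
      obtain ⟨hew, hwN, hκw, hξw, hor⟩ := hBlk
      have hwW : w ∈ betW X ξ u c := mem_betW.2 ⟨hwN, hκw, hψw, hξw, hew, hgw⟩
      exact (one_le_wt X.θ u w).trans
        (single_le_sum (f := fun w => wt X.G X.θ u w) (fun _ _ => Nat.zero_le _) hwW)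
    simpa using h2
  have h2 := hp.hq0
  rw [h0] at h1
  omega

/-- The event does not see the fresh coordinates, except through the blocked colours. -/
theorem piecewise_self {X : Ctx V} {D : ℕ} {u : V} (hu : ¬ Exc X.G X.κ u) (ξ η : V → Fin X.R) :
    (LM X u).piecewise η ξ u = ξ u ∧ (Alf X D ((LM X u).piecewise η ξ) u ↔ Alf X D ξ u) :=
  piecewise_self' hu ξ η

end Pool.Agent.H23.RS
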