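import Pool.Agent.H23.RS.Beta

/-!
# RS-10b : the conditional probability that no colour is free

`bet_cond`. If `Alf X D ξ u`, then `Bet` is false for all `η` (`piecewise_self`), probability 0. If
`ξ u = 0`: the same by `bet_zero` for `ζ = (LM X u).piecewise η ξ` (`ζ u = ξ u`, `¬ Alf ζ`). Otherwise take
`C`, `mid`, `t` from `bet_struct`: `Pr ≤ Pr_η (∀ c ∈ C, ∃ v ∈ mid c, ξ u ≤ η v)`, by `Pr_indep_prod`
(sets `mid c`) the product over `c ∈ C` of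
`1 - Pr (∀ v ∈ mid c, η v < ξ u) = 1 - (ξ u / R) ^ (mid c).card ≤ 1 - (ξ u / R) ^ t ≤ 1 - ρ`
(`Pr_coord`, `Pr_split`; `ξ u` of the `R` values are less than `ξ u`), so it is at most
`(1 - ρ) ^ C.card ≤ (1 - ρ) ^ M₀`.
-/

namespace Pool.Agent.H23.RS

open Finset Classical

variable {V : Type} [Fintype V]

theorem bet_cond {X : Ctx V} {D M₀ : ℕ} {ρ : ℝ} (hp : Pal X D M₀ ρ) {u : V}
    (hu : ¬ Exc X.G X.κ u) (ξ : V → Fin X.R) :
    Pr (fun η : V → Fin X.R => Bet X D ((LM X u).piecewise η ξ) u) ≤ (1 - ρ) ^ M₀ := by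
  have : Nonempty (Fin X.R) := ⟨ξ u⟩
  have hρ : 0 ≤ 1 - ρ := by linarith [hp.hρ1]
  have hρ' : 1 - ρ ≤ 1 := by linarith [hp.hρ0]
  have hfalse : (∀ η : V → Fin X.R, ¬ Bet X D ((LM X u).piecewise η ξ) u) →
      Pr (fun η : V → Fin X.R => Bet X D ((LM X u).piecewise η ξ) u) ≤ (1 - ρ) ^ M₀ := by
    intro h
    have h1 := Pr_mono (A := fun η : V → Fin X.R => Bet X D ((LM X u).piecewise η ξ) u)
      (B := fun _ => False) h
    rw [Pr_false] at h1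
    exact h1.trans (pow_nonneg hρ _)
  by_cases hA : Alf X D ξ u
  · refine hfalse fun η hB => hB.2.1 ?_
    exact (piecewise_self hu ξ η).2.2 hA
  rcases Nat.eq_zero_or_pos (ξ u : ℕ) with h0 | h1
  · refine hfalse fun η hB => ?_
    refine bet_zero hp hu ((LM X u).piecewise η ξ) ?_ hB.2.1 hB.2.2
    rw [(piecewise_self (D := D) hu ξ η).1]
    exact h0
  obtain ⟨C, mid, t, hC, ht, hmid, hdis, himp⟩ := bet_struct hp hu ξ h1 hA
  have hR : (0 : ℝ) < X.R := by exact_mod_cast hp.hR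
  have hq0 : (0 : ℝ) ≤ (ξ u : ℝ) / X.R := by positivity
  have hq1 : ((ξ u : ℕ) : ℝ) / X.R ≤ 1 := by
    rw [div_le_one hR]
    exact_mod_cast (ξ u).2.le
  have hone : ∀ c ∈ C, Pr (fun η : V → Fin X.R => ∃ v ∈ mid c, ξ u ≤ η v) ≤ 1 - ρ := by
    intro c hc
    have h2 := Pr_split (fun _ : V → Fin X.R => True)
      (fun η : V → Fin X.R => ∀ v ∈ mid c, η v < ξ u)
    rw [Pr_true] at h2
    have h3 : Pr (fun η : V → Fin X.R => ∃ v ∈ mid c, ξ u ≤ η v) ≤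
        Pr (fun η : V → Fin X.R => True ∧ ¬ ∀ v ∈ mid c, η v < ξ u) := by
      refine Pr_mono fun η hη => ⟨trivial, ?_⟩
      obtain ⟨v, hv, hv'⟩ := hη
      intro h
      exact absurd (h v hv) (not_lt.2 hv')
    have h4 : Pr (fun η : V → Fin X.R => ∀ v ∈ mid c, η v < ξ u) ≤
        Pr (fun η : V → Fin X.R => True ∧ ∀ v ∈ mid c, η v < ξ u) :=
      Pr_mono fun η hη => ⟨trivial, hη⟩
    have h5 := Pr_coord (Ω := Fin X.R) (mid c) (fun _ a => a < ξ u)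
    have h6 : ∀ inst : DecidablePred (fun a : Fin X.R => a < ξ u),
        (@Finset.filter _ (fun a : Fin X.R => a < ξ u) inst univ).card = (ξ u : ℕ) := by
      intro inst
      rw [← Fin.card_Iio (ξ u)]
      congr 1
      ext a
      simp
    rw [prod_const, h6, Fintype.card_fin] at h5
    have h7 : ((ξ u : ℕ) / (X.R : ℝ)) ^ t ≤ ((ξ u : ℕ) / (X.R : ℝ)) ^ (mid c).card :=
      pow_le_pow_of_le_one hq0 hq1 (hmid c hc).2
    linarith
  have hdep : ∀ c ∈ C, DepOn (mid c) (fun η : V → Fin X.R => ∃ v ∈ mid c, ξ u ≤ η v) := by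
    intro c _ x y hxy hx
    obtain ⟨v, hv, hv'⟩ := hx
    exact ⟨v, hv, (hxy v hv) ▸ hv'⟩
  have hprod := Pr_indep_prod C mid (fun c (η : V → Fin X.R) => ∃ v ∈ mid c, ξ u ≤ η v) hdep hdis
  calc Pr (fun η : V → Fin X.R => Bet X D ((LM X u).piecewise η ξ) u)
      ≤ Pr (fun η : V → Fin X.R => ∀ c ∈ C, ∃ v ∈ mid c, ξ u ≤ η v) := Pr_mono himp
    _ = ∏ c ∈ C, Pr (fun η : V → Fin X.R => ∃ v ∈ mid c, ξ u ≤ η v) := hprod
    _ ≤ ∏ c ∈ C, (1 - ρ) := prod_le_prod (fun c _ => Pr_nonneg _) hone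
    _ = (1 - ρ) ^ C.card := by rw [prod_const]
    _ ≤ (1 - ρ) ^ M₀ := pow_le_pow_of_le_one hρ hρ' hC

end Pool.Agent.H23.RS
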