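import Pool.Agent.H23.RS.Pr2

/-!
# RS-3 : a weighted Chernoff bound

Let `X x = ∑ v ∈ s with B v (x v), c v`. By `markov` for `exp (X / θ)` and `Ex_prod` (with
`g v a = exp (c v / θ)` if `B v a` and `1` otherwise; `exp` of a sum is a product):
`Pr (t ≤ X) ≤ exp (- t / θ) * ∏ v ∈ s, (1 + p v * (exp (c v / θ) - 1))`,
where `p v` is the proportion of the `a` with `B v a`. As `exp y - 1 ≤ 2 * y` for `0 ≤ y ≤ 1`
(`Real.exp_bound'` or `Real.abs_exp_sub_one_sub_id_le`: `exp y ≤ 1 + y + y ^ 2`), every factor is at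
most `1 + p v * (2 * c v / θ) ≤ exp (2 * p v * c v / θ)`, so the product is at most
`exp (2 * μ / θ)`.

`split_load`: `B v a' = (a' = a)`, `p v = 1 / card Ω`, so `∑ c v * p v ≤ μ`; `t = 6 * μ`.
-/

namespace Pool.Agent.H23.RS

open Finset Classical

variable {V Ω : Type} [Fintype V] [Fintype Ω] [Nonempty Ω]

theorem chernoff (s : Finset V) (c : V → ℝ) (B : V → Ω → Prop) {θ μ t : ℝ} (hθ : 0 < θ)
    (hc : ∀ v ∈ s, 0 ≤ c v ∧ c v ≤ θ)
    (hμ : ∑ v ∈ s, c v * (((univ.filter (B v)).card : ℝ) / (Fintype.card Ω : ℝ)) ≤ μ) :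
    Pr (fun x : V → Ω => t ≤ ∑ v ∈ s.filter (fun v => B v (x v)), c v) ≤
      Real.exp ((2 * μ - t) / θ) := by
  have hΩ : (0 : ℝ) < Fintype.card Ω := by exact_mod_cast Fintype.card_pos
  set g : V → Ω → ℝ := fun v a => if B v a then Real.exp (c v / θ) else 1 with hg
  have hprod : ∀ x : V → Ω, ∏ v ∈ s, g v (x v) =
      Real.exp ((∑ v ∈ s.filter (fun v => B v (x v)), c v) / θ) := by
    intro x
    rw [Finset.sum_div, Real.exp_sum, Finset.prod_filter]
  have h1 : Pr (fun x : V → Ω => t ≤ ∑ v ∈ s.filter (fun v => B v (x v)), c v) ≤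
      Pr (fun x : V → Ω => Real.exp (t / θ) ≤ ∏ v ∈ s, g v (x v)) := by
    apply Pr_mono
    intro x hx
    rw [hprod x]
    exact Real.exp_le_exp.2 (div_le_div_of_nonneg_right hx hθ.le)
  have h2 := markov (fun x : V → Ω => ∏ v ∈ s, g v (x v))
    (fun x => by rw [hprod x]; exact (Real.exp_pos _).le) (Real.exp_pos (t / θ))
  have h3 : Ex (fun x : V → Ω => ∏ v ∈ s, g v (x v)) ≤ Real.exp (2 * μ / θ) := by
    rw [Ex_prod s g]
    have h4 : ∀ v ∈ s, (∑ a, g v a) / (Fintype.card Ω : ℝ) ≤
        Real.exp (2 / θ * (c v * (((univ.filter (B v)).card : ℝ) / (Fintype.card Ω : ℝ)))) := by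
      intro v hv
      set p : ℝ := ((univ.filter (B v)).card : ℝ) / (Fintype.card Ω : ℝ) with hp
      have hp0 : 0 ≤ p := div_nonneg (Nat.cast_nonneg _) hΩ.le
      have e1 : ∑ a, g v a = Fintype.card Ω +
          ((univ.filter (B v)).card : ℝ) * (Real.exp (c v / θ) - 1) := by
        have e2 : ∀ a, g v a = 1 + (if B v a then (Real.exp (c v / θ) - 1) else 0) := by
          intro a
          by_cases h : B v a
          · simp only [hg, if_pos h]
            ring
          · simp only [hg, if_neg h]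
            ring
        rw [Finset.sum_congr rfl fun a _ => e2 a, Finset.sum_add_distrib, ← Finset.sum_filter,
          Finset.sum_const, Finset.sum_const, nsmul_eq_mul, nsmul_eq_mul, mul_one,
          Finset.card_univ]
      have e3 : (∑ a, g v a) / (Fintype.card Ω : ℝ) = 1 + p * (Real.exp (c v / θ) - 1) := by
        rw [e1, add_div, div_self hΩ.ne', hp]
        ring
      have hy0 : 0 ≤ c v / θ := div_nonneg (hc v hv).1 hθ.le
      have hy1 : c v / θ ≤ 1 := by
        rw [div_le_one hθ]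
        exact (hc v hv).2
      have e4 : Real.exp (c v / θ) - 1 ≤ 2 * (c v / θ) := by
        have h5 := Real.abs_exp_sub_one_sub_id_le (x := c v / θ)
          (by rw [abs_of_nonneg hy0]; exact hy1)
        have h6 := (abs_le.1 h5).2
        nlinarith
      rw [e3]
      calc 1 + p * (Real.exp (c v / θ) - 1) ≤ 1 + p * (2 * (c v / θ)) := by
            have := mul_le_mul_of_nonneg_left e4 hp0
            linarith
        _ = 2 / θ * (c v * p) + 1 := by
            field_simp
            ring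
        _ ≤ Real.exp (2 / θ * (c v * p)) := Real.add_one_le_exp _
    have h5 : ∀ v ∈ s, 0 ≤ (∑ a, g v a) / (Fintype.card Ω : ℝ) := by
      intro v _
      apply div_nonneg _ hΩ.le
      apply Finset.sum_nonneg
      intro a _
      simp only [hg]
      split_ifs
      · exact (Real.exp_pos _).le
      · exact zero_le_one
    refine (Finset.prod_le_prod h5 h4).trans ?_
    rw [← Real.exp_sum, ← Finset.mul_sum]
    apply Real.exp_le_exp.2
    calc 2 / θ * ∑ v ∈ s, c v * (((univ.filter (B v)).card : ℝ) / (Fintype.card Ω : ℝ))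
        ≤ 2 / θ * μ := mul_le_mul_of_nonneg_left hμ (by positivity)
      _ = 2 * μ / θ := by ring
  refine h1.trans (h2.trans ?_)
  rw [div_le_iff₀ (Real.exp_pos _), ← Real.exp_add]
  refine h3.trans (le_of_eq ?_)
  congr 1
  ring

/-- Splitting a weighted set at random into `card Ω` parts: the part with the index `a` has
weight less than six times the average, with large probability. -/
theorem split_load (s : Finset V) (c : V → ℕ) {θ μ : ℕ} (hθ : 1 ≤ θ)
    (hc : ∀ v ∈ s, c v ≤ θ) (hμ : ∑ v ∈ s, c v ≤ μ * Fintype.card Ω) (a : Ω) :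
    Pr (fun x : V → Ω => 6 * μ ≤ ∑ v ∈ s.filter (fun v => x v = a), c v) ≤
      Real.exp (-(4 * μ / θ : ℝ)) := by
  have hΩ : (0 : ℝ) < Fintype.card Ω := by exact_mod_cast Fintype.card_pos
  have hθ' : (0 : ℝ) < θ := by exact_mod_cast hθ
  have h1 := chernoff s (fun v => (c v : ℝ)) (fun _ a' => a' = a) (θ := (θ : ℝ)) (μ := (μ : ℝ))
    (t := 6 * (μ : ℝ)) hθ' (fun v hv => ⟨Nat.cast_nonneg _, by exact_mod_cast hc v hv⟩) ?_
  · have h2 : Pr (fun x : V → Ω => 6 * μ ≤ ∑ v ∈ s.filter (fun v => x v = a), c v) ≤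
        Pr (fun x : V → Ω => 6 * (μ : ℝ) ≤ ∑ v ∈ s.filter (fun v => x v = a), (c v : ℝ)) := by
      apply Pr_mono
      intro x hx
      exact_mod_cast hx
    refine h2.trans (h1.trans (le_of_eq ?_))
    congr 1
    ring
  · have h3 : ((univ.filter (fun a' : Ω => a' = a)).card : ℝ) = 1 := by
      rw [Finset.filter_eq' univ a, if_pos (Finset.mem_univ a), Finset.card_singleton]
      norm_num
    simp only [h3]
    rw [← Finset.sum_mul, mul_one_div, div_le_iff₀ hΩ]
    exact_mod_cast hμ

end Pool.Agent.H23.RS
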