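import Pool.Agent.H23.RS.Pr2

/-!
# RS-2 : the local lemma (symmetric, for functions on a finite set)

Events `A j` (`j : J`), `A j` depends on the coordinates in `S j`. For a finite set `T` of indices
let `P T = Pr (fun x => ∀ i ∈ T, ¬ A i x)`.

Claim (strong induction on `T.card`): for all `j`:
`Pr (fun x => A j x ∧ ∀ i ∈ T, ¬ A i x) ≤ 2 * p * P T`.
Proof: let `T1` be the set of the `i ∈ T` with `¬ Disjoint (S j) (S i)`, `T2` the rest. By
independence (`Pr_indep`, `A j` depends on `S j`, the rest on the union of `S i`, `i ∈ T2`)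
`Pr (A j ∧ T) ≤ Pr (A j ∧ T2) = Pr (A j) * P T2 ≤ p * P T2`. It remains `P T2 ≤ 2 * P T`. If
`T1 = ∅` this is clear. Otherwise
`P T2 = P T + Pr (T2 ∧ ∃ i ∈ T1, A i) ≤ P T + ∑ i ∈ T1, Pr (A i ∧ T2) ≤ P T + N * (2 * p * P T2)`
by the induction hypothesis (`T2.card < T.card`), and `N * 2 * p ≤ 1 / 2`.

Conclusion: `P T > 0` for all `T` by induction (`Finset.induction_on`):
`P (insert j T) = P T - Pr (A j ∧ T) ≥ (1 - 2 p) P T > 0`, as `2 * p < 1`: if `J` is empty
nothing is to show, otherwise use `hp2`.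
-/

namespace Pool.Agent.H23.RS

open Finset Classical

variable {V Ω J : Type} [Fintype V] [Fintype Ω] [Nonempty Ω] [Fintype J]

theorem lll_key (A : J → (V → Ω) → Prop) (S : J → Finset V) (hdep : ∀ j, DepOn (S j) (A j)) {p : ℝ}
    {N : ℕ} (hp : ∀ j, Pr (A j) ≤ p)
    (hN : ∀ j, (univ.filter fun i => ¬ Disjoint (S j) (S i)).card ≤ N) (h : 4 * p * N ≤ 1)
    (n : ℕ) : ∀ T : Finset J, T.card ≤ n → ∀ j,
      Pr (fun x => A j x ∧ ∀ i ∈ T, ¬ A i x) ≤ 2 * p * Pr (fun x => ∀ i ∈ T, ¬ A i x) := by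
  induction n with
  | zero =>
    intro T hT j
    have hT0 : T = ∅ := Finset.card_eq_zero.mp (Nat.le_zero.mp hT)
    subst hT0
    have hp0 : 0 ≤ p := le_trans (Pr_nonneg (A j)) (hp j)
    have h1 : Pr (fun x => A j x ∧ ∀ i ∈ (∅ : Finset J), ¬ A i x) ≤ Pr (A j) :=
      Pr_mono (fun x hx => hx.1)
    have h2 : (1 : ℝ) ≤ Pr (fun x : V → Ω => ∀ i ∈ (∅ : Finset J), ¬ A i x) := by
      rw [← Pr_true (V := V) (Ω := Ω)]
      exact Pr_mono (fun x _ i hi => absurd hi (Finset.notMem_empty i))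
    have h3 := hp j
    nlinarith
  | succ n ih =>
    intro T hT j
    have hp0 : 0 ≤ p := le_trans (Pr_nonneg (A j)) (hp j)
    set T1 := T.filter (fun i => ¬ Disjoint (S j) (S i)) with hT1
    set T2 := T.filter (fun i => Disjoint (S j) (S i)) with hT2
    have hPT0 : 0 ≤ Pr (fun x => ∀ i ∈ T, ¬ A i x) := Pr_nonneg _
    have hPT20 : 0 ≤ Pr (fun x => ∀ i ∈ T2, ¬ A i x) := Pr_nonneg _
    -- first step
    have h1 : Pr (fun x => A j x ∧ ∀ i ∈ T, ¬ A i x) ≤
        Pr (fun x => A j x ∧ ∀ i ∈ T2, ¬ A i x) := by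
      refine Pr_mono (fun x hx => ⟨hx.1, fun i hi => hx.2 i ?_⟩)
      exact (Finset.mem_filter.mp hi).1
    have h2 : Pr (fun x => A j x ∧ ∀ i ∈ T2, ¬ A i x) =
        Pr (A j) * Pr (fun x => ∀ i ∈ T2, ¬ A i x) := by
      have hd2 : DepOn (T2.biUnion S) (fun x => ∀ i ∈ T2, ¬ A i x) := by
        refine DepOn.all (A := fun i x => ¬ A i x) (fun i hi => ?_)
        exact (DepOn.not (hdep i)).mono (Finset.subset_biUnion_of_mem S hi)
      have hdis : Disjoint (S j) (T2.biUnion S) := by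
        rw [Finset.disjoint_biUnion_right]
        intro i hi
        exact (Finset.mem_filter.mp hi).2
      exact Pr_indep (hdep j) hd2 hdis
    have h3 : Pr (fun x => ∀ i ∈ T2, ¬ A i x) ≤ 2 * Pr (fun x => ∀ i ∈ T, ¬ A i x) := by
      by_cases he : T1 = ∅
      · have hTT : ∀ i ∈ T, i ∈ T2 := by
          intro i hi
          rw [hT2, Finset.mem_filter]
          refine ⟨hi, ?_⟩
          by_contra hc
          have : i ∈ T1 := by rw [hT1, Finset.mem_filter]; exact ⟨hi, hc⟩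
          rw [he] at this
          exact absurd this (Finset.notMem_empty i)
        have : Pr (fun x => ∀ i ∈ T2, ¬ A i x) ≤ Pr (fun x => ∀ i ∈ T, ¬ A i x) :=
          Pr_mono (fun x hx i hi => hx i (hTT i hi))
        linarith
      · obtain ⟨i0, hi0⟩ := Finset.nonempty_iff_ne_empty.mpr he
        have hcard : T2.card ≤ n := by
          have hlt : T2.card < T.card := by
            apply Finset.card_lt_card
            rw [Finset.ssubset_iff_of_subset (Finset.filter_subset _ _)]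
            refine ⟨i0, (Finset.mem_filter.mp hi0).1, ?_⟩
            intro hc
            exact (Finset.mem_filter.mp hi0).2 (Finset.mem_filter.mp hc).2
          omega
        have hs := Pr_split (fun x => ∀ i ∈ T2, ¬ A i x) (fun x => ∀ i ∈ T, ¬ A i x)
        have ha : Pr (fun x => (∀ i ∈ T2, ¬ A i x) ∧ ∀ i ∈ T, ¬ A i x) ≤
            Pr (fun x => ∀ i ∈ T, ¬ A i x) := Pr_mono (fun x hx => hx.2)
        have hb : Pr (fun x => (∀ i ∈ T2, ¬ A i x) ∧ ¬ ∀ i ∈ T, ¬ A i x) ≤
            Pr (fun x => ∃ i ∈ T1, (A i x ∧ ∀ k ∈ T2, ¬ A k x)) := by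
          refine Pr_mono (fun x hx => ?_)
          have h5 := hx.2
          push Not at h5
          obtain ⟨i, hi, hAi⟩ := h5
          refine ⟨i, ?_, hAi, hx.1⟩
          rw [hT1, Finset.mem_filter]
          refine ⟨hi, fun hc => ?_⟩
          exact hx.1 i (by rw [hT2, Finset.mem_filter]; exact ⟨hi, hc⟩) hAi
        have hc := Pr_exists_le T1 (fun i x => A i x ∧ ∀ k ∈ T2, ¬ A k x)
        have hd : ∑ i ∈ T1, Pr (fun x => A i x ∧ ∀ k ∈ T2, ¬ A k x) ≤
            ∑ _i ∈ T1, 2 * p * Pr (fun x => ∀ i ∈ T2, ¬ A i x) :=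
          Finset.sum_le_sum (fun i _ => ih T2 hcard i)
        rw [Finset.sum_const, nsmul_eq_mul] at hd
        have hT1N : (T1.card : ℝ) ≤ (N : ℝ) := by
          have : T1.card ≤ N := by
            refine le_trans (Finset.card_le_card ?_) (hN j)
            intro i hi
            rw [Finset.mem_filter]
            exact ⟨Finset.mem_univ _, (Finset.mem_filter.mp hi).2⟩
          exact_mod_cast this
        have he2 : (T1.card : ℝ) * (2 * p * Pr (fun x => ∀ i ∈ T2, ¬ A i x)) ≤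
            (1 / 2) * Pr (fun x => ∀ i ∈ T2, ¬ A i x) := by
          have h6 : (T1.card : ℝ) * (2 * p) ≤ 1 / 2 := by
            have : (T1.card : ℝ) * (2 * p) ≤ (N : ℝ) * (2 * p) :=
              mul_le_mul_of_nonneg_right hT1N (by linarith)
            linarith
          calc (T1.card : ℝ) * (2 * p * Pr (fun x => ∀ i ∈ T2, ¬ A i x))
              = ((T1.card : ℝ) * (2 * p)) * Pr (fun x => ∀ i ∈ T2, ¬ A i x) := by ring
            _ ≤ _ := mul_le_mul_of_nonneg_right h6 hPT20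
        linarith
    calc Pr (fun x => A j x ∧ ∀ i ∈ T, ¬ A i x) ≤ _ := h1
      _ = Pr (A j) * Pr (fun x => ∀ i ∈ T2, ¬ A i x) := h2
      _ ≤ p * Pr (fun x => ∀ i ∈ T2, ¬ A i x) := mul_le_mul_of_nonneg_right (hp j) hPT20
      _ ≤ p * (2 * Pr (fun x => ∀ i ∈ T, ¬ A i x)) := mul_le_mul_of_nonneg_left h3 hp0
      _ = _ := by ring

theorem lll (A : J → (V → Ω) → Prop) (S : J → Finset V) (hdep : ∀ j, DepOn (S j) (A j)) {p : ℝ}
    {N : ℕ} (hp : ∀ j, Pr (A j) ≤ p) (hp2 : p < 1 / 2)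
    (hN : ∀ j, (univ.filter fun i => ¬ Disjoint (S j) (S i)).card ≤ N) (h : 4 * p * N ≤ 1) :
    ∃ x : V → Ω, ∀ j, ¬ A j x := by
  have key := lll_key A S hdep hp hN h
  have hpos : ∀ T : Finset J, 0 < Pr (fun x => ∀ i ∈ T, ¬ A i x) := by
    intro T
    induction T using Finset.induction_on with
    | empty =>
      have : (1 : ℝ) ≤ Pr (fun x : V → Ω => ∀ i ∈ (∅ : Finset J), ¬ A i x) := by
        rw [← Pr_true (V := V) (Ω := Ω)]
        exact Pr_mono (fun x _ i hi => absurd hi (Finset.notMem_empty i))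
      linarith
    | insert j T hj ih =>
      have h1 := key T.card T le_rfl j
      have h2 := Pr_split (fun x => ∀ i ∈ T, ¬ A i x) (A j)
      have h3 : Pr (fun x => (∀ i ∈ T, ¬ A i x) ∧ A j x) ≤
          Pr (fun x => A j x ∧ ∀ i ∈ T, ¬ A i x) := Pr_mono (fun x hx => ⟨hx.2, hx.1⟩)
      have h4 : Pr (fun x => (∀ i ∈ T, ¬ A i x) ∧ ¬ A j x) ≤
          Pr (fun x => ∀ i ∈ insert j T, ¬ A i x) := by
        refine Pr_mono (fun x hx i hi => ?_)
        rcases Finset.mem_insert.mp hi with rfl | hi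
        · exact hx.2
        · exact hx.1 i hi
      nlinarith
  obtain ⟨x, hx⟩ := exists_of_Pr (hpos univ)
  exact ⟨x, fun j => hx j (Finset.mem_univ j)⟩

end Pool.Agent.H23.RS
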