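import Pool.Agent.H23.RS.Pr2

/-!
# RS-5 : many disjoint monochromatic sets are unlikely

`pr_mono`: for a set `W` with `r + 1` elements, the colouring `x` is constant on `W` with
probability `1 / (card Ω) ^ r` (sum over the `card Ω` constant values, `Pr_coord`).

`pr_disj_mono`: let `N = 𝓕.card`, `q = card Ω`. If `x` is constant on the members of a pairwise
disjoint subfamily `𝓖` with `L` members, which happens for a fixed `𝓖` with probability
`(1 / q ^ r) ^ L` (`Pr_indep_prod`), sum over the at most `N.choose L ≤ N ^ L / L!` subfamilies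
(`Finset.card_powersetCard`, `Nat.choose_le_pow_div`).

`exists_disj`: let `𝓖` be a maximal pairwise disjoint subset of the `W u`, `u ∈ X` (take one of maximal
cardinality). If `𝓖.card < L`, its union `U` has at most `r * L` elements, and every `W u` (`u ∈ X`)
meets `U` (otherwise `insert (W u) 𝓖` is a larger family; note that `W u ≠ ∅` as `u ∈ W u`). So `X`
is the union of the sets `{u ∈ X | z ∈ W u}`, `z ∈ U`, and `X.card ≤ r * L * B`: contradiction. So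
`𝓖.card ≥ L`; take a subset with exactly `L` elements (`Finset.exists_subset_card_eq`).
-/

namespace Pool.Agent.H23.RS

open Finset Classical

variable {V Ω : Type} [Fintype V] [Fintype Ω] [Nonempty Ω]

/-- The function `x` is constant on `W`. -/
def Mono (W : Finset V) (x : V → Ω) : Prop := ∀ u ∈ W, ∀ w ∈ W, x u = x w

theorem pr_mono (W : Finset V) {r : ℕ} (hW : W.card = r + 1) :
    Pr (Mono W : (V → Ω) → Prop) = 1 / (Fintype.card Ω : ℝ) ^ r := by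
  have hq : (Fintype.card Ω : ℝ) ≠ 0 := by
    have := Fintype.card_pos (α := Ω)
    positivity
  obtain ⟨w0, hw0⟩ : W.Nonempty := card_pos.1 (by omega)
  have h1 : (univ.filter (Mono W : (V → Ω) → Prop)).card =
      ∑ a : Ω, (univ.filter (fun x : V → Ω => ∀ u ∈ W, x u = a)).card := by
    rw [card_eq_sum_card_fiberwise (f := fun x : V → Ω => x w0) (t := univ)
      (fun x _ => by simp)]
    refine sum_congr rfl fun a _ => ?_
    congr 1
    ext x
    simp only [mem_filter, mem_univ, true_and, Mono]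
    constructor
    · rintro ⟨h, rfl⟩ u hu
      exact h u hu w0 hw0
    · intro h
      exact ⟨fun u hu w hw => (h u hu).trans (h w hw).symm, h w0 hw0⟩
  have h2 : ∀ a : Ω, Pr (fun x : V → Ω => ∀ u ∈ W, x u = a) =
      (1 / (Fintype.card Ω : ℝ)) ^ (r + 1) := by
    intro a
    rw [Pr_coord W (fun _ b => b = a)]
    have h3 : (univ.filter (fun b : Ω => b = a)).card = 1 := by
      rw [card_eq_one]
      exact ⟨a, by ext b; simp⟩
    rw [h3, prod_const, hW]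
    norm_num
  have h4 : Pr (Mono W : (V → Ω) → Prop) = ∑ a : Ω, Pr (fun x : V → Ω => ∀ u ∈ W, x u = a) := by
    unfold Pr
    rw [h1, ← sum_div]
    push_cast
    congr 1
    refine sum_congr rfl fun a _ => ?_
    congr!
  rw [h4]
  simp only [h2]
  rw [sum_const, card_univ, nsmul_eq_mul, one_div_pow, pow_succ]
  field_simp

theorem pr_disj_mono (𝓕 : Finset (Finset V)) {r : ℕ} (hr : ∀ W ∈ 𝓕, W.card = r + 1) (L : ℕ) :
    Pr (fun x : V → Ω => ∃ 𝓖 ⊆ 𝓕, 𝓖.card = L ∧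
      (∀ W ∈ 𝓖, ∀ W' ∈ 𝓖, W ≠ W' → Disjoint W W') ∧ ∀ W ∈ 𝓖, Mono W x) ≤
      ((𝓕.card : ℝ) / (Fintype.card Ω : ℝ) ^ r) ^ L / (L.factorial : ℝ) := by
  have hq : 0 < (Fintype.card Ω : ℝ) := by
    have := Fintype.card_pos (α := Ω)
    positivity
  have h1 : Pr (fun x : V → Ω => ∃ 𝓖 ⊆ 𝓕, 𝓖.card = L ∧
      (∀ W ∈ 𝓖, ∀ W' ∈ 𝓖, W ≠ W' → Disjoint W W') ∧ ∀ W ∈ 𝓖, Mono W x) ≤
      Pr (fun x : V → Ω => ∃ 𝓖 ∈ 𝓕.powersetCard L,
        ((∀ W ∈ 𝓖, ∀ W' ∈ 𝓖, W ≠ W' → Disjoint W W') ∧ ∀ W ∈ 𝓖, Mono W x)) := by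
    refine Pr_mono fun x hx => ?_
    obtain ⟨𝓖, h2, h3, h4⟩ := hx
    exact ⟨𝓖, mem_powersetCard.2 ⟨h2, h3⟩, h4⟩
  refine h1.trans ((Pr_exists_le _ _).trans ?_)
  have h2 : ∀ 𝓖 ∈ 𝓕.powersetCard L, Pr (fun x : V → Ω =>
      (∀ W ∈ 𝓖, ∀ W' ∈ 𝓖, W ≠ W' → Disjoint W W') ∧ ∀ W ∈ 𝓖, Mono W x) ≤
      (1 / (Fintype.card Ω : ℝ) ^ r) ^ L := by
    intro 𝓖 h𝓖
    rw [mem_powersetCard] at h𝓖
    by_cases hd : ∀ W ∈ 𝓖, ∀ W' ∈ 𝓖, W ≠ W' → Disjoint W W'
    · have h3 := Pr_indep_prod (Ω := Ω) 𝓖 (fun W : Finset V => W) (fun W => Mono W)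
        (fun W _ x y hxy hx u hu w hw => by
          rw [← hxy u hu, ← hxy w hw]; exact hx u hu w hw) hd
      refine (Pr_mono (B := fun x : V → Ω => ∀ W ∈ 𝓖, Mono W x) fun x hx => hx.2).trans ?_
      rw [h3, prod_congr rfl (fun W hW => pr_mono W (hr W (h𝓖.1 hW))), prod_const, h𝓖.2]
    · have h3 : Pr (fun x : V → Ω =>
          (∀ W ∈ 𝓖, ∀ W' ∈ 𝓖, W ≠ W' → Disjoint W W') ∧ ∀ W ∈ 𝓖, Mono W x) ≤
          Pr (fun _ : V → Ω => False) := Pr_mono fun x hx => hd hx.1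
      rw [Pr_false] at h3
      exact h3.trans (by positivity)
  refine (sum_le_sum h2).trans ?_
  have h6 : (1 / (Fintype.card Ω : ℝ) ^ r) ^ L = 1 / ((Fintype.card Ω : ℝ) ^ r) ^ L :=
    one_div_pow _ _
  rw [sum_const, card_powersetCard, nsmul_eq_mul, h6, div_pow]
  have h3 : ((𝓕.card.choose L : ℕ) : ℝ) ≤ (𝓕.card : ℝ) ^ L / (L.factorial : ℝ) :=
    Nat.choose_le_pow_div L 𝓕.card
  have h5 : 0 ≤ 1 / ((Fintype.card Ω : ℝ) ^ r) ^ L := by positivity
  calc ((𝓕.card.choose L : ℕ) : ℝ) * (1 / ((Fintype.card Ω : ℝ) ^ r) ^ L)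
      ≤ ((𝓕.card : ℝ) ^ L / (L.factorial : ℝ)) * (1 / ((Fintype.card Ω : ℝ) ^ r) ^ L) :=
        mul_le_mul_of_nonneg_right h3 h5
    _ = _ := by ring

theorem exists_disj (X : Finset V) (W : V → Finset V) {r B L : ℕ} (hu : ∀ u ∈ X, u ∈ W u)
    (hr : ∀ u ∈ X, (W u).card ≤ r) (hB : ∀ z, (X.filter fun u => z ∈ W u).card ≤ B)
    (hX : r * L * B < X.card) :
    ∃ 𝓖 ⊆ X.image W, 𝓖.card = L ∧ ∀ W₁ ∈ 𝓖, ∀ W₂ ∈ 𝓖, W₁ ≠ W₂ → Disjoint W₁ W₂ := by
  set 𝒞 := (X.image W).powerset.filter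
    (fun 𝓖 => ∀ W₁ ∈ 𝓖, ∀ W₂ ∈ 𝓖, W₁ ≠ W₂ → Disjoint W₁ W₂) with h𝒞
  have hne : 𝒞.Nonempty := ⟨∅, by simp [h𝒞]⟩
  obtain ⟨𝓖, h𝓖, hmax⟩ := exists_max_image 𝒞 (fun 𝓖 => 𝓖.card) hne
  rw [h𝒞, mem_filter, mem_powerset] at h𝓖
  obtain ⟨hsub, hdis⟩ := h𝓖
  have hL : L ≤ 𝓖.card := by
    by_contra hlt
    push Not at hlt
    have hcov : X ⊆ (𝓖.biUnion id).biUnion (fun z => X.filter fun u => z ∈ W u) := by
      intro u huX
      rw [mem_biUnion]
      by_contra hcon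
      push Not at hcon
      have hdu : ∀ W₁ ∈ 𝓖, Disjoint W₁ (W u) := by
        intro W₁ hW₁
        rw [disjoint_left]
        intro z hz hzu
        exact hcon z (mem_biUnion.2 ⟨W₁, hW₁, hz⟩) (mem_filter.2 ⟨huX, hzu⟩)
      have hnot : W u ∉ 𝓖 := by
        intro h
        have := hdu _ h
        rw [disjoint_self_iff_empty] at this
        have h2 := hu u huX
        rw [this] at h2
        exact notMem_empty _ h2
      have hins : insert (W u) 𝓖 ∈ 𝒞 := by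
        rw [h𝒞, mem_filter, mem_powerset]
        refine ⟨insert_subset (mem_image_of_mem _ huX) hsub, ?_⟩
        intro W₁ h1 W₂ h2 hne
        rw [mem_insert] at h1 h2
        rcases h1 with rfl | h1 <;> rcases h2 with rfl | h2
        · exact absurd rfl hne
        · exact (hdu _ h2).symm
        · exact hdu _ h1
        · exact hdis _ h1 _ h2 hne
      have := hmax _ hins
      rw [card_insert_of_notMem hnot] at this
      omega
    have h1 : (𝓖.biUnion id).card ≤ 𝓖.card * r := by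
      refine card_biUnion_le_card_mul _ _ _ fun W₁ hW₁ => ?_
      obtain ⟨u, hu1, rfl⟩ := mem_image.1 (hsub hW₁)
      exact hr u hu1
    have h2 := (card_le_card hcov).trans
      (card_biUnion_le_card_mul (𝓖.biUnion id) _ B fun z _ => hB z)
    have h3 : (𝓖.biUnion id).card * B ≤ (𝓖.card * r) * B := Nat.mul_le_mul_right _ h1
    have h4 : (𝓖.card * r) * B ≤ (L * r) * B :=
      Nat.mul_le_mul_right _ (Nat.mul_le_mul_right _ hlt.le)
    have h5 : (L * r) * B = r * L * B := by ring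
    omega
  obtain ⟨𝓗, h1, h2⟩ := exists_subset_card_eq hL
  exact ⟨𝓗, h1.trans hsub, h2, fun W₁ hW₁ W₂ hW₂ hne => hdis W₁ (h1 hW₁) W₂ (h1 hW₂) hne⟩

end Pool.Agent.H23.RS
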