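import Pool.Agent.H23.RS.Gr
import Pool.Agent.H23.RS.Chern
import Pool.Agent.H23.RS.Wit
import Pool.Agent.H23.RS.LLL

/-!
# RS-7, RS-8 : the first random choice (blocks)

A function `κ : V → Fin S` (blocks). A vertex `u` is exceptional (`Exc`) if its block contains a
neighbour of `u`, or two different vertices `w, w' ≠ u` adjacent to the same neighbour `v` of `u`.

`exc_card` (deterministic). Suppose for all `u, a` the number of `w ∈ N2 G u` with `κ w = a` is less
than `B`. For an exceptional `u` let `W u = {u, w}` (type 1) or, if there is no such `w`,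
`W u = {u, w, w'}` (type 2). If `z ∈ W u` then `κ z = κ u` and `z = u` or `z ∈ N2 G u`, so `u = z` or
`u ∈ N2 G z` with `κ u = κ z`: at most `B` such `u` for given `z`. Let `X₁`, `X₂` be the sets of the
exceptional `u ∈ N2 G u₀` of type 1, 2. By `exists_disj` with `r = 2`, `r = 3`: if `X₁.card > 2 L B`
there are `L` disjoint sets `W u`, which are members of `fam2 G u₀`, and `κ` is constant on
them; if `X₂.card > 3 L B` the same with `fam3 G u₀`. So if neither event `Many` happens, there are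
at most `5 L B` exceptional vertices in `N2 G u₀`.

`card_fam2`: at most `d ^ 2 * d` pairs `(u, w)`. `card_fam3`: choose `u`, `v`, `w`, `w'`.

`level1`: `lll` with `J = (V × Fin S) ⊕ V ⊕ V`: the event `6 D' ≤ load` for `(u, a)` depends on
`N2 G u ⊆ ball G 2 u`, its probability is at most `exp (-(4 D' / θ))` by `split_load` (`s = N2 G u`,
`c = wt G θ u`, `sum_wt_le`, `μ = D'`); the events `Many (fam2 G u)`, `Many (fam3 G u)` depend on
`ball G 2 u` (the members of the families are contained in it), probability by `pr_disj_mono` with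
`r = 1, 2`. Number of the events whose set meets the set of a given one: at most
`(S + 2) * (d ^ 2 + 1) ^ 4` (`card_meet_le` with `r = 2`: fibre the index set over its centre, each
centre has `S + 2` indices). The weights are at least 1, so the number of the `w ∈ N2 G u` in block `a`
is at most the load, hence less than `6 D'`; `exc_card` with `B = 6 * D'`.
-/

namespace Pool.Agent.H23.RS

open Finset Classical

variable {V : Type} [Fintype V] {G : SimpleGraph V} {S : ℕ}

/-- The vertex `u` is exceptional for the partition `κ`. -/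
def Exc (G : SimpleGraph V) (κ : V → Fin S) (u : V) : Prop :=
  (∃ w, G.Adj u w ∧ κ w = κ u) ∨
    ∃ v w w', G.Adj u v ∧ G.Adj v w ∧ G.Adj v w' ∧ w ≠ u ∧ w' ≠ u ∧ w ≠ w' ∧ κ w = κ u ∧ κ w' = κ u

/-- The sets `{u, w}`, `u ∈ N2 G u₀`, `w` adjacent to `u`. -/
noncomputable def fam2 (G : SimpleGraph V) (u₀ : V) : Finset (Finset V) :=
  univ.filter fun W => ∃ u w, u ∈ N2 G u₀ ∧ G.Adj u w ∧ W = {u, w}

/-- The sets `{u, w, w'}` of three elements, `u ∈ N2 G u₀`, with `w, w'` adjacent to a neighbour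
of `u`. -/
noncomputable def fam3 (G : SimpleGraph V) (u₀ : V) : Finset (Finset V) :=
  univ.filter fun W => ∃ u v w w', u ∈ N2 G u₀ ∧ G.Adj u v ∧ G.Adj v w ∧ G.Adj v w' ∧ w ≠ u ∧
    w' ≠ u ∧ w ≠ w' ∧ W = {u, w, w'}

/-- There are `L` disjoint members of `𝓕` on which `κ` is constant. -/
def Many (𝓕 : Finset (Finset V)) (L : ℕ) (κ : V → Fin S) : Prop :=
  ∃ 𝓖 ⊆ 𝓕, 𝓖.card = L ∧ (∀ W ∈ 𝓖, ∀ W' ∈ 𝓖, W ≠ W' → Disjoint W W') ∧ ∀ W ∈ 𝓖, Mono W κ

omit [Fintype V] in
theorem Exc_card_biUnion_le {α β : Type} [DecidableEq β] (s : Finset α) (f : α → Finset β) {a b : ℕ}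
    (hs : s.card ≤ a) (hf : ∀ x ∈ s, (f x).card ≤ b) : (s.biUnion f).card ≤ a * b := by
  refine card_biUnion_le.trans ?_
  calc ∑ x ∈ s, (f x).card ≤ ∑ x ∈ s, b := sum_le_sum hf
    _ = s.card * b := by rw [sum_const, smul_eq_mul]
    _ ≤ a * b := Nat.mul_le_mul_right _ hs

theorem Exc_mem_ball2 {u₀ u z : V} (hu : u ∈ N2 G u₀) (hz : z = u ∨ z ∈ N2 G u) :
    z ∈ ball G 2 u₀ := by
  have h1 : u ∈ ball G 1 u₀ := N2_subset_ball u₀ hu
  rcases hz with rfl | hz
  · exact ball_mono (by norm_num) u₀ h1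
  · exact ball_trans (m := 1) (n := 1) h1 (N2_subset_ball u hz)

theorem card_fam2 {d : ℕ} (hd : ∀ u, (nb G u).card ≤ d) (u₀ : V) :
    (fam2 G u₀).card ≤ d ^ 3 ∧ ∀ W ∈ fam2 G u₀, W.card = 2 ∧ W ⊆ ball G 2 u₀ := by
  constructor
  · have h1 : fam2 G u₀ ⊆ (N2 G u₀).biUnion fun u => (nb G u).image fun w => ({u, w} : Finset V) := by
      intro W hW
      simp only [fam2, mem_filter, mem_univ, true_and] at hW
      obtain ⟨u, w, hu, hw, rfl⟩ := hW
      exact mem_biUnion.2 ⟨u, hu, mem_image.2 ⟨w, by simpa [nb] using hw, rfl⟩⟩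
    refine (card_le_card h1).trans ?_
    have h2 := Exc_card_biUnion_le (N2 G u₀) (fun u => (nb G u).image fun w => ({u, w} : Finset V))
      (card_N2_le hd u₀) (b := d) (fun u _ => card_image_le.trans (hd u))
    calc _ ≤ d ^ 2 * d := h2
      _ = d ^ 3 := by ring
  · intro W hW
    simp only [fam2, mem_filter, mem_univ, true_and] at hW
    obtain ⟨u, w, hu, hw, rfl⟩ := hW
    refine ⟨card_pair hw.ne, ?_⟩
    intro z hz
    rw [mem_insert, mem_singleton] at hz
    refine Exc_mem_ball2 hu ?_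
    rcases hz with rfl | rfl
    · exact Or.inl rfl
    · exact Or.inr (adj_mem_N2 hw)

theorem card_fam3 {d : ℕ} (hd : ∀ u, (nb G u).card ≤ d) (u₀ : V) :
    (fam3 G u₀).card ≤ d ^ 5 ∧ ∀ W ∈ fam3 G u₀, W.card = 3 ∧ W ⊆ ball G 2 u₀ := by
  constructor
  · have h1 : fam3 G u₀ ⊆ (N2 G u₀).biUnion fun u => (nb G u).biUnion fun v =>
        (nb G v).biUnion fun w => (nb G v).image fun w' => ({u, w, w'} : Finset V) := by
      intro W hW
      simp only [fam3, mem_filter, mem_univ, true_and] at hW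
      obtain ⟨u, v, w, w', hu, hv, hw, hw', -, -, -, rfl⟩ := hW
      exact mem_biUnion.2 ⟨u, hu, mem_biUnion.2 ⟨v, by simpa [nb] using hv,
        mem_biUnion.2 ⟨w, by simpa [nb] using hw, mem_image.2 ⟨w', by simpa [nb] using hw', rfl⟩⟩⟩⟩
    refine (card_le_card h1).trans ?_
    have h4 : ∀ u v w : V, ((nb G v).image fun w' => ({u, w, w'} : Finset V)).card ≤ d :=
      fun u v w => card_image_le.trans (hd v)
    have h3 : ∀ u v : V, ((nb G v).biUnion fun w => (nb G v).image fun w' =>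
        ({u, w, w'} : Finset V)).card ≤ d * d :=
      fun u v => Exc_card_biUnion_le _ _ (hd v) fun w _ => h4 u v w
    have h2 : ∀ u : V, ((nb G u).biUnion fun v => (nb G v).biUnion fun w =>
        (nb G v).image fun w' => ({u, w, w'} : Finset V)).card ≤ d * (d * d) :=
      fun u => Exc_card_biUnion_le _ _ (hd u) fun v _ => h3 u v
    have h5 := Exc_card_biUnion_le (N2 G u₀) (fun u => (nb G u).biUnion fun v =>
        (nb G v).biUnion fun w => (nb G v).image fun w' => ({u, w, w'} : Finset V))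
      (card_N2_le hd u₀) (fun u _ => h2 u)
    calc _ ≤ d ^ 2 * (d * (d * d)) := h5
      _ = d ^ 5 := by ring
  · intro W hW
    simp only [fam3, mem_filter, mem_univ, true_and] at hW
    obtain ⟨u, v, w, w', hu, hv, hw, hw', h1, h2, h3, rfl⟩ := hW
    refine ⟨card_eq_three.2 ⟨u, w, w', h1.symm, h2.symm, h3, rfl⟩, ?_⟩
    intro z hz
    simp only [mem_insert, mem_singleton] at hz
    refine Exc_mem_ball2 hu ?_
    rcases hz with rfl | rfl | rfl
    · exact Or.inl rfl
    · exact Or.inr (path_mem_N2 hv hw h1)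
    · exact Or.inr (path_mem_N2 hv hw' h2)

/-- The general counting step. -/
theorem Exc_count {κ : V → Fin S} {B L r : ℕ}
    (hB : ∀ u a, ((N2 G u).filter fun w => κ w = a).card < B) (𝓕 : Finset (Finset V))
    (hM : ¬ Many 𝓕 L κ) (X : Finset V) (W : V → Finset V) (hu : ∀ u ∈ X, u ∈ W u)
    (hr : ∀ u ∈ X, (W u).card ≤ r) (hW : ∀ u ∈ X, ∀ z ∈ W u, κ z = κ u ∧ (z = u ∨ z ∈ N2 G u))
    (hF : ∀ u ∈ X, W u ∈ 𝓕) : X.card ≤ r * L * B := by
  by_contra hX
  push Not at hX
  have hz : ∀ z, (X.filter fun u => z ∈ W u).card ≤ B := by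
    intro z
    have h1 : (X.filter fun u => z ∈ W u) ⊆
        insert z ((N2 G z).filter fun w => κ w = κ z) := by
      intro u hu'
      rw [mem_filter] at hu'
      obtain ⟨h1, h2⟩ := hW u hu'.1 z hu'.2
      rw [mem_insert, mem_filter]
      rcases h2 with h2 | h2
      · exact Or.inl h2.symm
      · exact Or.inr ⟨N2_symm h2, h1.symm⟩
    have h2 := card_le_card h1
    have h3 := card_insert_le z ((N2 G z).filter fun w => κ w = κ z)
    have h4 := hB z (κ z)
    omega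
  obtain ⟨𝓖, hG, hL, hdis⟩ := exists_disj X W hu hr hz hX
  refine hM ⟨𝓖, ?_, hL, hdis, ?_⟩
  · intro A hA
    obtain ⟨u, hu', rfl⟩ := mem_image.1 (hG hA)
    exact hF u hu'
  · intro A hA
    obtain ⟨u, hu', rfl⟩ := mem_image.1 (hG hA)
    intro a ha b hb
    rw [(hW u hu' a ha).1, (hW u hu' b hb).1]

theorem exc_card {κ : V → Fin S} {B L : ℕ} (hB : ∀ u a, ((N2 G u).filter fun w => κ w = a).card < B)
    (u₀ : V) (h2 : ¬ Many (fam2 G u₀) L κ) (h3 : ¬ Many (fam3 G u₀) L κ) :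
    ((N2 G u₀).filter fun u => Exc G κ u).card ≤ 5 * L * B := by
  set T1 : V → Prop := fun u => ∃ w, G.Adj u w ∧ κ w = κ u with hT1
  set T2 : V → Prop := fun u => ∃ v w w', G.Adj u v ∧ G.Adj v w ∧ G.Adj v w' ∧ w ≠ u ∧ w' ≠ u ∧
    w ≠ w' ∧ κ w = κ u ∧ κ w' = κ u with hT2
  have hc1 : ∀ u, ∃ A : Finset V, T1 u → ∃ w, G.Adj u w ∧ κ w = κ u ∧ A = {u, w} := by
    intro u
    by_cases h : T1 u
    · obtain ⟨w, h1, h2⟩ := h
      exact ⟨{u, w}, fun _ => ⟨w, h1, h2, rfl⟩⟩
    · exact ⟨∅, fun h' => absurd h' h⟩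
  have hc2 : ∀ u, ∃ A : Finset V, T2 u → ∃ v w w', G.Adj u v ∧ G.Adj v w ∧ G.Adj v w' ∧ w ≠ u ∧
      w' ≠ u ∧ w ≠ w' ∧ κ w = κ u ∧ κ w' = κ u ∧ A = {u, w, w'} := by
    intro u
    by_cases h : T2 u
    · obtain ⟨v, w, w', h1, h2, h3, h4, h5, h6, h7, h8⟩ := h
      exact ⟨{u, w, w'}, fun _ => ⟨v, w, w', h1, h2, h3, h4, h5, h6, h7, h8, rfl⟩⟩
    · exact ⟨∅, fun h' => absurd h' h⟩
  choose W1 hW1 using hc1
  choose W2 hW2 using hc2
  have hX1 : ((N2 G u₀).filter T1).card ≤ 2 * L * B := by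
    refine Exc_count hB (fam2 G u₀) h2 _ W1 ?_ ?_ ?_ ?_
    · intro u hu
      obtain ⟨w, -, -, hA⟩ := hW1 u (mem_filter.1 hu).2
      rw [hA]
      exact mem_insert_self _ _
    · intro u hu
      obtain ⟨w, -, -, hA⟩ := hW1 u (mem_filter.1 hu).2
      rw [hA]
      exact card_le_two
    · intro u hu z hz
      obtain ⟨w, h4, h5, hA⟩ := hW1 u (mem_filter.1 hu).2
      rw [hA, mem_insert, mem_singleton] at hz
      rcases hz with rfl | rfl
      · exact ⟨rfl, Or.inl rfl⟩
      · exact ⟨h5, Or.inr (adj_mem_N2 h4)⟩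
    · intro u hu
      obtain ⟨w, h4, h5, hA⟩ := hW1 u (mem_filter.1 hu).2
      simp only [fam2, mem_filter, mem_univ, true_and]
      exact ⟨u, w, (mem_filter.1 hu).1, h4, hA⟩
  have hX2 : ((N2 G u₀).filter T2).card ≤ 3 * L * B := by
    refine Exc_count hB (fam3 G u₀) h3 _ W2 ?_ ?_ ?_ ?_
    · intro u hu
      obtain ⟨v, w, w', -, -, -, -, -, -, -, -, hA⟩ := hW2 u (mem_filter.1 hu).2
      rw [hA]
      exact mem_insert_self _ _
    · intro u hu
      obtain ⟨v, w, w', -, -, -, -, -, -, -, -, hA⟩ := hW2 u (mem_filter.1 hu).2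
      rw [hA]
      exact card_le_three
    · intro u hu z hz
      obtain ⟨v, w, w', h4, h5, h6, h7, h8, h9, h10, h11, hA⟩ := hW2 u (mem_filter.1 hu).2
      rw [hA] at hz
      simp only [mem_insert, mem_singleton] at hz
      rcases hz with rfl | rfl | rfl
      · exact ⟨rfl, Or.inl rfl⟩
      · exact ⟨h10, Or.inr (path_mem_N2 h4 h5 h7)⟩
      · exact ⟨h11, Or.inr (path_mem_N2 h4 h6 h8)⟩
    · intro u hu
      obtain ⟨v, w, w', h4, h5, h6, h7, h8, h9, h10, h11, hA⟩ := hW2 u (mem_filter.1 hu).2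
      simp only [fam3, mem_filter, mem_univ, true_and]
      exact ⟨u, v, w, w', (mem_filter.1 hu).1, h4, h5, h6, h7, h8, h9, hA⟩
  have hsub : ((N2 G u₀).filter fun u => Exc G κ u) ⊆
      (N2 G u₀).filter T1 ∪ (N2 G u₀).filter T2 := by
    intro u hu
    rw [mem_filter] at hu
    rw [mem_union, mem_filter, mem_filter]
    rcases hu.2 with h | h
    · exact Or.inl ⟨hu.1, h⟩
    · exact Or.inr ⟨hu.1, h⟩
  have h4 := card_le_card hsub
  have h5 := card_union_le ((N2 G u₀).filter T1) ((N2 G u₀).filter T2)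
  have h6 : 2 * L * B + 3 * L * B = 5 * L * B := by ring
  omega

end Pool.Agent.H23.RS
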