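import Pool.Agent.H79.Thr.RSMain

/-!
# RS-20 : a trivial problem is not NP-complete

If all graphs of maximum degree at most `d` have the property `Q`, then the problem is not
`NPCompleteOn d`: the language `∅` is in `NP` (verifier: the empty language, in `P` by `mem_P_iff` and
the constant function, see `Pool.Agent.PPS.Bridge`), so there would be a map `φ` with
`x ∈ ∅ ↔ Q n G` where `G` has maximum degree at most `d`: contradiction.
-/

namespace Pool.Agent.H23.RS

open Pool.Agent.H79.Thr Pool.Agent.PPS Pool.Agent.H64.Cook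

theorem empty_mem_NP : (∅ : Set (List Bool)) ∈ NP := by
  classical
  refine ⟨∅, ?_, 0, fun x => ?_⟩
  · rw [mem_P_iff]
    have h : PT true (fun _ : List Bool => false) := PT.const false
    convert h using 2
    simp
  · simp

theorem not_npComplete {d : ℕ} {Q : ∀ n : ℕ, SimpleGraph (Fin n) → Prop}
    (h : ∀ n G, MaxDegLE G d → Q n G) : ¬ NPCompleteOn d Q := by
  rintro ⟨_, h2⟩
  obtain ⟨φ, _, hφ⟩ := h2 ∅ empty_mem_NP
  obtain ⟨n, G, _, h3, h4⟩ := hφ []
  exact h4.2 (h n G h3)

end Pool.Agent.H23.RS
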