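import Pool.Agent.H23.RS.Main
import Pool.Agent.H23.RS.NotNP

/-!
# The order of growth of the threshold for rs colouring: final statements
-/

namespace Pool.Agent.H23.RS

open Pool.Agent.H79.Thr

theorem nb_card {V : Type} [Fintype V] {G : SimpleGraph V} {d : ℕ} (h : MaxDegLE G d) (u : V) :
    (nb G u).card ≤ d := by
  have h1 := (h u).2
  have h2 : ((nb G u : Finset V) : Set V) = G.neighborSet u := by
    ext v
    simp [nb]
  rw [← h2, Set.ncard_coe_finset] at h1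
  exact h1

/-- The trivial bound. -/
theorem rs_trivial {V : Type} [Fintype V] {G : SimpleGraph V} {d : ℕ}
    (h : ∀ u, (nb G u).card ≤ d) : RSColourable (d ^ 2 + 1) G := by
  classical
  obtain ⟨f, hf, hf'⟩ := greedy (fun u w => w ∈ N2 G u) (fun u w h => N2_symm h)
    (T := d ^ 2 + 1) (by
      intro u
      refine lt_of_le_of_lt (Finset.card_le_card (t := N2 G u) ?_)
        (Nat.lt_succ_of_le (card_N2_le h u))
      intro w hw
      simp only [Finset.mem_filter, Finset.mem_univ, true_and] at hw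
      exact hw.2)
  refine ⟨fun u => ⟨f u, hf u⟩, fun u v huv he => ?_, ?_⟩
  · exact hf' u v huv.ne (adj_mem_N2 huv) (congrArg Fin.val he)
  · rintro u v w huv hvw hne ⟨he, -⟩
    exact hf' u w hne (path_mem_N2 huv hvw hne.symm) (congrArg Fin.val he)

/-- RS-21. `rs_upper` for all `d ≥ 2`: for `d < d₀` use `d ^ 2 + 1 ≤ d₀ ^ 2 + 1` colours
(`greedy` for the relation `w ∈ N2 G u`, then any such colouring is an rs colouring), and enlarge the
constant; `Nat.log 2 d ≥ (log d) / 2` for `d ≥ 2` (`Nat.log 2 d ≥ log d / log 2 - 1`, `≥ 1`). -/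
theorem rs_all : ∃ C : ℝ, 0 < C ∧ ∀ d : ℕ, 2 ≤ d → ∀ (V : Type) (_ : Fintype V)
    (G : SimpleGraph V), MaxDegLE G d → RSColourable ⌊C * d ^ 2 / Real.log d⌋₊ G := by
  obtain ⟨d₀, h0⟩ := rs_upper
  refine ⟨40000 + 2 * d₀, by positivity, fun d hd V _ G hG => ?_⟩
  have hd' := nb_card hG
  have hdR : (2 : ℝ) ≤ d := by exact_mod_cast hd
  have hlog : 0 < Real.log d := Real.log_pos (by linarith)
  have hlogd : Real.log d ≤ d := (Real.log_le_sub_one_of_pos (by linarith)).trans (by linarith)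
  by_cases hdd : d₀ ≤ d
  · refine rsColourable_mono (Nat.le_floor ?_) (h0 d hdd V _ G hd')
    have h1 : 1 ≤ Nat.log 2 d := Nat.log_pos (by norm_num) hd
    have h1R : (1 : ℝ) ≤ (Nat.log 2 d : ℕ) := by exact_mod_cast h1
    have h2 : Real.log d ≤ 2 * (Nat.log 2 d : ℕ) := by
      have h3 : (d : ℝ) < 2 ^ (Nat.log 2 d + 1) := by
        exact_mod_cast Nat.lt_pow_succ_log_self (by norm_num) d
      have h4 : Real.log d ≤ (Nat.log 2 d + 1 : ℕ) * Real.log 2 := by
        rw [← Real.log_pow]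
        exact Real.log_le_log (by linarith) h3.le
      have h5 := Real.log_two_lt_d9
      push_cast at h4
      nlinarith
    have h6 : ((d ^ 2 / Nat.log 2 d : ℕ) : ℝ) ≤ (d : ℝ) ^ 2 / (Nat.log 2 d : ℕ) := by
      refine Nat.cast_div_le.trans (le_of_eq ?_)
      push_cast
      rfl
    have h7 : (d : ℝ) ^ 2 / (Nat.log 2 d : ℕ) ≤ 2 * d ^ 2 / Real.log d := by
      rw [div_le_div_iff₀ (by linarith) hlog]
      nlinarith [sq_nonneg (d : ℝ)]
    have h8 : (0 : ℝ) ≤ 2 * d₀ * d ^ 2 / Real.log d := by positivity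
    have h9 : (40000 + 2 * d₀ : ℝ) * d ^ 2 / Real.log d =
        20000 * (2 * d ^ 2 / Real.log d) + 2 * d₀ * d ^ 2 / Real.log d := by ring
    rw [h9]
    push_cast
    linarith
  · push Not at hdd
    refine rsColourable_mono (Nat.le_floor ?_) (rs_trivial hd')
    rw [le_div_iff₀ hlog]
    have h1 : (d : ℝ) ≤ d₀ := by exact_mod_cast hdd.le
    push_cast
    have h2 : ((d : ℝ) ^ 2 + 1) * Real.log d ≤ ((d : ℝ) ^ 2 + 1) * d₀ :=
      mul_le_mul_of_nonneg_left (hlogd.trans h1) (by positivity)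
    have h3 : (1 : ℝ) ≤ d ^ 2 := by nlinarith
    have h4 : (0 : ℝ) ≤ d₀ := by positivity
    nlinarith

theorem rs_order : ∃ c C : ℝ, 0 < c ∧ 0 < C ∧ ∃ k₀ : ℕ, ∀ k : ℕ, k₀ ≤ k → ∀ d : ℕ,
    ((d : ℝ) ≤ c * √(k * Real.log k) →
      (∀ (n : ℕ) (G : SimpleGraph (Fin n)), MaxDegLE G d → RSColourable k G) ∧
      ¬ NPCompleteOn d (fun _ G => RSColourable k G)) ∧
    (C * √(k * Real.log k) ≤ (d : ℝ) → NPCompleteOn d (fun _ G => RSColourable k G)) := by
  obtain ⟨c, hc, k₁, h1⟩ := rs_thr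
  obtain ⟨C, hC, k₂, h2⟩ := rs_threshold
  refine ⟨c, C, hc, hC, max k₁ k₂, fun k hk d => ⟨fun hd => ?_, fun hd => ?_⟩⟩
  · have h3 : ∀ (n : ℕ) (G : SimpleGraph (Fin n)), MaxDegLE G d → RSColourable k G :=
      fun n G hG => h1 k (le_trans (le_max_left _ _) hk) d hd (Fin n) inferInstance G hG
    exact ⟨h3, not_npComplete h3⟩
  · exact h2 k (le_trans (le_max_right _ _) hk) d hd

end Pool.Agent.H23.RS
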