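import Pool.Agent.H23.RS.Exc

/-!
# RS-9a : the colours inside the blocks

Data (`Ctx`): a graph, blocks `κ`, an order `ψ` (vertices of the same block at distance at most 2 have
different values), a threshold `θ`, the number `R` of epochs, palette sizes `q`. For `ξ : V → Fin R`
(epochs) the vertex `u` gets the least colour less than `q (ξ u)` that is not blocked, if there is
one (`gam X ξ u : Option ℕ`). A colour is blocked for `u` if it is the colour of some `w`
with `ψ w < ψ u` and `Blk X ξ u w`: `w` is not exceptional, at distance at most 2 from `u`, in the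
same block and epoch, and `w` and `u` have at least `θ` common neighbours, or a common
neighbour `v` with `ξ v ≥ ξ u`.

`gam_eq`: unfolding (`rw [gam]`, then the sets agree). `pick_some`, `pick_none`: `Nat.find`.

`gam_valid`: `w ∈ N2 G u` if `u, w` are adjacent or have a common neighbour. Then `ψ u ≠ ψ w`; by
symmetry (`N2_symm`, `cod_symm`, `ξ u = ξ w`) let `ψ w < ψ u`. The colour `c` of `u` is not blocked
(`gam_eq`, `pick_some`), but it is the colour of `w`; so `Blk X ξ u w` fails, and so there is no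
common neighbour `v` with `ξ u ≤ ξ v`. They are not adjacent since `u` is not exceptional.
-/

namespace Pool.Agent.H23.RS

open Finset Classical

/-- Data for the second random choice. -/
structure Ctx (V : Type) where
  /-- the graph -/
  G : SimpleGraph V
  /-- number of blocks -/
  S : ℕ
  /-- blocks -/
  κ : V → Fin S
  /-- order of processing -/
  ψ : V → ℕ
  /-- threshold for the number of common neighbours -/
  θ : ℕ
  /-- number of epochs -/
  R : ℕ
  /-- palette sizes -/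
  q : ℕ → ℕ

/-- The least number below `q` not in `F`. -/
noncomputable def pick (q : ℕ) (F : Set ℕ) : Option ℕ :=
  if h : ∃ c, c < q ∧ c ∉ F then some (Nat.find h) else none

theorem pick_some {q : ℕ} {F : Set ℕ} {c : ℕ} (h : pick q F = some c) : c < q ∧ c ∉ F := by
  rw [pick] at h
  split_ifs at h with h1
  rw [Option.some.injEq] at h
  rw [← h]
  exact Nat.find_spec h1

theorem pick_none {q : ℕ} {F : Set ℕ} (h : pick q F = none) : ∀ c < q, c ∈ F := by
  rw [pick] at h
  split_ifs at h with h1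
  intro c hc
  by_contra hcF
  exact h1 ⟨c, hc, hcF⟩

variable {V : Type} [Fintype V]

/-- `w` is able to block its colour for `u`. -/
def Blk (X : Ctx V) (ξ : V → Fin X.R) (u w : V) : Prop :=
  ¬ Exc X.G X.κ w ∧ w ∈ N2 X.G u ∧ X.κ w = X.κ u ∧ ξ w = ξ u ∧
    (X.θ ≤ cod X.G u w ∨ ∃ v, X.G.Adj u v ∧ X.G.Adj v w ∧ ξ u ≤ ξ v)

/-- The colour of `u`. -/
noncomputable def gam (X : Ctx V) (ξ : V → Fin X.R) (u : V) : Option ℕ :=
  pick (X.q (ξ u)) {c | ∃ w, ∃ _ : X.ψ w < X.ψ u, Blk X ξ u w ∧ gam X ξ w = some c}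
termination_by X.ψ u

/-- The blocked colours. -/
def Bl (X : Ctx V) (ξ : V → Fin X.R) (u : V) : Set ℕ :=
  {c | ∃ w, X.ψ w < X.ψ u ∧ Blk X ξ u w ∧ gam X ξ w = some c}

theorem gam_eq (X : Ctx V) (ξ : V → Fin X.R) (u : V) :
    gam X ξ u = pick (X.q (ξ u)) (Bl X ξ u) := by
  rw [gam]
  congr 1
  ext c
  simp only [Bl, exists_prop]

/-- `ψ` separates the vertices of a block at distance at most 2. -/
def Sep (X : Ctx V) : Prop := ∀ u w, w ∈ N2 X.G u → X.κ w = X.κ u → X.ψ w ≠ X.ψ u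

theorem gam_valid {X : Ctx V} (hψ : Sep X) (ξ : V → Fin X.R) {u w : V} (huw : u ≠ w)
    (hu : ¬ Exc X.G X.κ u) (hw : ¬ Exc X.G X.κ w) (hκ : X.κ w = X.κ u) (hξ : ξ w = ξ u)
    (hc : gam X ξ u ≠ none) (hg : gam X ξ w = gam X ξ u) :
    ¬ X.G.Adj u w ∧ ∀ v, X.G.Adj u v → X.G.Adj v w → ξ v < ξ u := by
  refine ⟨fun h => hu (Or.inl ⟨w, h, hκ⟩), fun v h1 h2 => ?_⟩
  by_contra hv
  rw [not_lt] at hv
  obtain ⟨c, hcc⟩ := Option.ne_none_iff_exists'.1 hc
  have hN : w ∈ N2 X.G u := path_mem_N2 h1 h2 huw.symm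
  rcases lt_or_gt_of_ne (hψ u w hN hκ) with h | h
  · have h3 := hcc
    rw [gam_eq] at h3
    refine (pick_some h3).2 ⟨w, h, ⟨hw, hN, hκ, hξ, Or.inr ⟨v, h1, h2, hv⟩⟩, ?_⟩
    rw [hg, hcc]
  · have h3 := hg.trans hcc
    rw [gam_eq] at h3
    exact (pick_some h3).2 ⟨u, h, ⟨hu, N2_symm hN, hκ.symm, hξ.symm,
      Or.inr ⟨v, h2.symm, h1.symm, hξ ▸ hv⟩⟩, hcc⟩

/-- The load of the vertex `u` from its own block and the epoch `i`. -/
noncomputable def ld (X : Ctx V) (ξ : V → Fin X.R) (u : V) (i : Fin X.R) : ℕ :=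
  ∑ w ∈ (N2 X.G u).filter (fun w => X.κ w = X.κ u ∧ ξ w = i), wt X.G X.θ u w

/-- Some load of `u` is too large. -/
def Alf (X : Ctx V) (D : ℕ) (ξ : V → Fin X.R) (u : V) : Prop := ∃ i, 36 * D ≤ ld X ξ u i

/-- There is no free colour for `u` although the loads are normal. -/
def Bet (X : Ctx V) (D : ℕ) (ξ : V → Fin X.R) (u : V) : Prop :=
  ¬ Exc X.G X.κ u ∧ ¬ Alf X D ξ u ∧ gam X ξ u = none

end Pool.Agent.H23.RS
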