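import Pool.Agent.H23.RS.Gam

/-!
# RS-9b : locality of the colours

`gam_dep`: strong induction over `ψ u`: if `x, y` agree on `Z u` then `x u = y u`, and for all
`w` with `ψ w < ψ u`, `κ w = κ u`, `w ∈ N2 G u`: `gam X x w = gam X y w` (induction hypothesis for `x, y`
on `Z w ⊆ Z u`), `x w = y w`, `x v = y v` for all common neighbours `v`; so the blocked
sets are equal (`gam_eq`).

`gam_dep_rel` and `gam_dep_ball`: apply `gam_dep` to `Rel X` and to `fun u => ball G (ψ u + 1) u`.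
For `Rel X`: if `κ w = κ u` and `ψ w < ψ u`, then `Rel X w ⊆ Rel X u`.
For the balls: `w ∈ N2 G u ⊆ ball G 1 u`, so `ball G (ψ w + 1) w ⊆ ball G (ψ w + 2) u ⊆
ball G (ψ u + 1) u` (`ball_trans`, `ball_mono`); common neighbours `v` are in `N2 G u`.
-/

namespace Pool.Agent.H23.RS

open Finset Classical

variable {V : Type} [Fintype V]

theorem gam_dep (X : Ctx V) (Z : V → Finset V) (h1 : ∀ u, u ∈ Z u)
    (h2 : ∀ u w, w ∈ N2 X.G u → X.κ w = X.κ u → X.ψ w < X.ψ u → Z w ⊆ Z u)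
    (h3 : ∀ u w v, w ∈ N2 X.G u → X.κ w = X.κ u → X.ψ w < X.ψ u → X.G.Adj u v → X.G.Adj v w →
      v ∈ Z u) (u : V) {x y : V → Fin X.R} (hxy : ∀ v ∈ Z u, x v = y v) :
    gam X x u = gam X y u := by
  induction hn : X.ψ u using Nat.strong_induction_on generalizing u with
  | _ n ih =>
    have hu : x u = y u := hxy u (h1 u)
    have key : ∀ w, w ∈ N2 X.G u → X.κ w = X.κ u → X.ψ w < X.ψ u →
        gam X x w = gam X y w ∧ x w = y w ∧
          ∀ v, X.G.Adj u v → X.G.Adj v w → x v = y v := by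
      intro w hw hκ hψ
      have hZ := h2 u w hw hκ hψ
      exact ⟨ih (X.ψ w) (hn ▸ hψ) w (fun v hv => hxy v (hZ hv)) rfl, hxy w (hZ (h1 w)),
        fun v hv hv' => hxy v (h3 u w v hw hκ hψ hv hv')⟩
    have hB : Bl X x u = Bl X y u := by
      ext c
      constructor
      · rintro ⟨w, hψ, ⟨b1, b2, b3, b4, b5⟩, hc⟩
        obtain ⟨k1, k2, k3⟩ := key w b2 b3 hψ
        refine ⟨w, hψ, ⟨b1, b2, b3, by rw [← k2, ← hu, b4], ?_⟩, by rw [← k1, hc]⟩
        rcases b5 with b5 | ⟨v, v1, v2, v3⟩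
        · exact Or.inl b5
        · exact Or.inr ⟨v, v1, v2, by rw [← hu, ← k3 v v1 v2]; exact v3⟩
      · rintro ⟨w, hψ, ⟨b1, b2, b3, b4, b5⟩, hc⟩
        obtain ⟨k1, k2, k3⟩ := key w b2 b3 hψ
        refine ⟨w, hψ, ⟨b1, b2, b3, by rw [k2, hu, b4], ?_⟩, by rw [k1, hc]⟩
        rcases b5 with b5 | ⟨v, v1, v2, v3⟩
        · exact Or.inl b5
        · exact Or.inr ⟨v, v1, v2, by rw [hu, k3 v v1 v2]; exact v3⟩
    rw [gam_eq, gam_eq, hB, hu]

/-- The coordinates on which the colour of `u` depends. -/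
noncomputable def Rel (X : Ctx V) (u : V) : Finset V :=
  univ.filter fun v => X.κ v = X.κ u ∨ ∃ w w', X.κ w = X.κ u ∧ X.κ w' = X.κ u ∧
    X.ψ w' < X.ψ w ∧ (w = u ∨ X.ψ w < X.ψ u) ∧ X.G.Adj w v ∧ X.G.Adj v w'

theorem gam_dep_rel (X : Ctx V) (u : V) {x y : V → Fin X.R} (hxy : ∀ v ∈ Rel X u, x v = y v) :
    gam X x u = gam X y u := by
  refine gam_dep X (Rel X) ?_ ?_ ?_ u hxy
  · intro u
    simp [Rel]
  · intro u w _ hκ hψ v hv
    simp only [Rel, mem_filter, mem_univ, true_and] at hv ⊢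
    rcases hv with hv | ⟨w1, w2, a1, a2, a3, a4, a5, a6⟩
    · exact Or.inl (hv.trans hκ)
    · refine Or.inr ⟨w1, w2, a1.trans hκ, a2.trans hκ, a3, Or.inr ?_, a5, a6⟩
      rcases a4 with rfl | a4
      · exact hψ
      · omega
  · intro u w v _ hκ hψ h4 h5
    simp only [Rel, mem_filter, mem_univ, true_and]
    exact Or.inr ⟨u, w, rfl, hκ, hψ, Or.inl rfl, h4, h5⟩

theorem gam_dep_ball (X : Ctx V) (u : V) {x y : V → Fin X.R}
    (hxy : ∀ v ∈ ball X.G (X.ψ u + 1) u, x v = y v) : gam X x u = gam X y u := by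
  refine gam_dep X (fun u => ball X.G (X.ψ u + 1) u) ?_ ?_ ?_ u hxy
  · intro u
    exact self_mem_ball _ _
  · intro u w hw _ hψ v hv
    have h1 : w ∈ ball X.G 1 u := N2_subset_ball u hw
    have h2 := ball_trans h1 hv
    exact ball_mono (by omega) u h2
  · intro u w v hw _ hψ h4 h5
    exact ball_mono (by omega) u (N2_subset_ball u (adj_mem_N2 h4))

/-- `Alf` depends on the epochs in the block of `u`, within distance 2. -/
theorem alf_dep (X : Ctx V) (D : ℕ) (u : V) :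
    DepOn ((N2 X.G u).filter fun w => X.κ w = X.κ u) (fun ξ : V → Fin X.R => Alf X D ξ u) := by
  rintro x y hxy ⟨i, hi⟩
  refine ⟨i, le_of_le_of_eq hi ?_⟩
  unfold ld
  congr 1
  ext w
  simp only [mem_filter]
  constructor
  · rintro ⟨h1, h2, h3⟩
    exact ⟨h1, h2, by rw [← hxy w (mem_filter.2 ⟨h1, h2⟩), h3]⟩
  · rintro ⟨h1, h2, h3⟩
    exact ⟨h1, h2, by rw [hxy w (mem_filter.2 ⟨h1, h2⟩), h3]⟩

end Pool.Agent.H23.RS
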