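import Mathlib

/-!
# RS-4 : second neighbourhoods, balls, weights

`N2 G u`: the vertices `w ≠ u` at distance 1 or 2 from `u`. `cod G u w`: number of common
neighbours. `wt G θ u w = max 1 (min (cod G u w) θ)`.

`sum_cod_le`: double counting of the pairs `(v, w)`, `v` a neighbour of `u`, `w ≠ u` a neighbour
of `v`: at most `d * (d - 1)`.
`sum_wt_le`: for `w ∈ N2 G u`: `wt G θ u w ≤ cod G u w + (if G.Adj u w then 1 else 0)`: if
`cod G u w ≥ 1` then `wt ≤ cod`; if it is `0`, then `w` is a neighbour and `wt = 1`. So the sum is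
at most `d * (d - 1) + d = d ^ 2` (if `d = 0` all is empty).
`card_N2_le`: every weight is at least 1 (or directly).
Balls: `ball G n u` is the set of vertices reached in `n` steps, each step from `w` to `w` or to
an element of `N2 G w`.
-/

namespace Pool.Agent.H23.RS

open Finset Classical

variable {V : Type} [Fintype V] (G : SimpleGraph V)

/-- The neighbours of `u`. -/
noncomputable def nb (u : V) : Finset V := univ.filter (fun v => G.Adj u v)

/-- The number of common neighbours of `u` and `w`. -/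
noncomputable def cod (u w : V) : ℕ := (univ.filter (fun v => G.Adj u v ∧ G.Adj v w)).card

/-- The vertices different from `u` at distance at most 2 from `u`. -/
noncomputable def N2 (u : V) : Finset V :=
  univ.filter (fun w => w ≠ u ∧ (G.Adj u w ∨ ∃ v, G.Adj u v ∧ G.Adj v w))

/-- The weight of `w` as seen from `u`. -/
noncomputable def wt (θ : ℕ) (u w : V) : ℕ := max 1 (min (cod G u w) θ)

/-- The vertices reached from `u` in `n` steps, each of length at most 2. -/
noncomputable def ball : ℕ → V → Finset V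
  | 0, u => {u}
  | n + 1, u => (ball n u).biUnion (fun w => insert w (N2 G w))

variable {G}

theorem mem_N2 {u w : V} :
    w ∈ N2 G u ↔ w ≠ u ∧ (G.Adj u w ∨ ∃ v, G.Adj u v ∧ G.Adj v w) := by
  simp [N2]

theorem N2_symm {u w : V} (h : w ∈ N2 G u) : u ∈ N2 G w := by
  rw [mem_N2] at h ⊢
  obtain ⟨h1, h2⟩ := h
  refine ⟨h1.symm, ?_⟩
  rcases h2 with h2 | ⟨v, h2, h3⟩
  · exact Or.inl h2.symm
  · exact Or.inr ⟨v, h3.symm, h2.symm⟩

theorem adj_mem_N2 {u w : V} (h : G.Adj u w) : w ∈ N2 G u :=
  mem_N2.2 ⟨h.ne', Or.inl h⟩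

theorem path_mem_N2 {u v w : V} (h : G.Adj u v) (h' : G.Adj v w) (hne : w ≠ u) : w ∈ N2 G u :=
  mem_N2.2 ⟨hne, Or.inr ⟨v, h, h'⟩⟩

theorem cod_symm (u w : V) : cod G u w = cod G w u := by
  rw [cod, cod]
  congr 1
  ext v
  simp only [mem_filter, mem_univ, true_and]
  exact ⟨fun h => ⟨h.2.symm, h.1.symm⟩, fun h => ⟨h.2.symm, h.1.symm⟩⟩

theorem one_le_wt (θ : ℕ) (u w : V) : 1 ≤ wt G θ u w := le_max_left _ _

theorem wt_le {θ : ℕ} (hθ : 1 ≤ θ) (u w : V) : wt G θ u w ≤ θ := max_le hθ (min_le_right _ _)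

/-- If `u, w` have a common neighbour and less than `θ` of them, the weight is their number. -/
theorem wt_eq_cod {θ : ℕ} {u w : V} (h : cod G u w < θ) (h1 : 1 ≤ cod G u w) :
    wt G θ u w = cod G u w := by
  rw [wt, min_eq_left h.le, max_eq_right h1]

theorem wt_eq_theta {θ : ℕ} (hθ : 1 ≤ θ) {u w : V} (h : θ ≤ cod G u w) : wt G θ u w = θ := by
  rw [wt, min_eq_right h, max_eq_right hθ]

theorem sum_cod_le {d : ℕ} (hd : ∀ u, (nb G u).card ≤ d) (u : V) :
    ∑ w ∈ univ.filter (fun w => w ≠ u), cod G u w ≤ d * (d - 1) := by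
  have h1 : ∀ w, cod G u w = ∑ v ∈ nb G u, if G.Adj v w then 1 else 0 := by
    intro w
    rw [sum_boole, nb, filter_filter]
    rfl
  rw [sum_congr rfl (fun w _ => h1 w), sum_comm]
  calc ∑ v ∈ nb G u, ∑ w ∈ univ.filter (fun w => w ≠ u), (if G.Adj v w then 1 else 0)
      ≤ ∑ v ∈ nb G u, (d - 1) := by
        refine sum_le_sum fun v hv => ?_
        have hv' : G.Adj u v := by simpa [nb] using hv
        rw [sum_boole, filter_filter]
        have h2 : univ.filter (fun w => w ≠ u ∧ G.Adj v w) ⊆ (nb G v).erase u := by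
          intro w hw
          simp only [mem_filter, mem_univ, true_and] at hw
          exact mem_erase.2 ⟨hw.1, by simpa [nb] using hw.2⟩
        have h3 := card_le_card h2
        rw [card_erase_of_mem (by simpa [nb] using hv'.symm)] at h3
        have h4 := hd v
        simp only [Nat.cast_id]
        omega
    _ = (nb G u).card * (d - 1) := by rw [sum_const, smul_eq_mul]
    _ ≤ d * (d - 1) := Nat.mul_le_mul_right _ (hd u)

theorem sum_wt_le {d : ℕ} (hd : ∀ u, (nb G u).card ≤ d) (θ : ℕ) (u : V) :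
    ∑ w ∈ N2 G u, wt G θ u w ≤ d ^ 2 := by
  have h1 : ∀ w ∈ N2 G u, wt G θ u w ≤ cod G u w + if G.Adj u w then 1 else 0 := by
    intro w hw
    rcases Nat.eq_zero_or_pos (cod G u w) with h0 | h0
    · have h2 : G.Adj u w := by
        rcases (mem_N2.1 hw).2 with h | ⟨v, h, h'⟩
        · exact h
        · exfalso
          rw [cod, card_eq_zero] at h0
          have h3 : v ∈ univ.filter (fun v => G.Adj u v ∧ G.Adj v w) := by
            simp only [mem_filter, mem_univ, true_and]
            exact ⟨h, h'⟩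
          rw [h0] at h3
          simp at h3
      rw [wt, h0, if_pos h2]
      simp
    · have h2 : wt G θ u w ≤ cod G u w := max_le h0 (min_le_left _ _)
      omega
  have h2 : ∑ w ∈ N2 G u, cod G u w ≤ d * (d - 1) := by
    refine le_trans (sum_le_sum_of_subset ?_) (sum_cod_le hd u)
    intro w hw
    simp only [mem_filter, mem_univ, true_and]
    exact (mem_N2.1 hw).1
  have h3 : ∑ w ∈ N2 G u, (if G.Adj u w then 1 else 0) ≤ d := by
    rw [sum_boole]
    simp only [Nat.cast_id]
    refine le_trans (card_le_card ?_) (hd u)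
    intro w hw
    simp only [nb, mem_filter, mem_univ, true_and] at hw ⊢
    exact hw.2
  have h4 := sum_le_sum h1
  rw [sum_add_distrib] at h4
  have h5 : d * (d - 1) + d = d ^ 2 := by
    cases d with
    | zero => rfl
    | succ n => simp only [Nat.add_sub_cancel]; ring
  omega

theorem card_N2_le {d : ℕ} (hd : ∀ u, (nb G u).card ≤ d) (u : V) : (N2 G u).card ≤ d ^ 2 := by
  refine le_trans ?_ (sum_wt_le hd 1 u)
  rw [card_eq_sum_ones]
  exact sum_le_sum fun w _ => one_le_wt _ _ _

theorem mem_ball_succ {n : ℕ} {u z : V} :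
    z ∈ ball G (n + 1) u ↔ ∃ w ∈ ball G n u, z ∈ insert w (N2 G w) := by
  rw [ball, mem_biUnion]

theorem ball_card {d : ℕ} (hd : ∀ u, (nb G u).card ≤ d) (n : ℕ) (u : V) :
    (ball G n u).card ≤ (d ^ 2 + 1) ^ n := by
  induction n with
  | zero => simp [ball]
  | succ n ih =>
    rw [ball]
    refine card_biUnion_le.trans ?_
    calc ∑ w ∈ ball G n u, (insert w (N2 G w)).card ≤ ∑ w ∈ ball G n u, (d ^ 2 + 1) := by
          refine sum_le_sum fun w _ => ?_
          exact (card_insert_le _ _).trans (Nat.add_le_add_right (card_N2_le hd w) 1)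
      _ = (ball G n u).card * (d ^ 2 + 1) := by rw [sum_const, smul_eq_mul]
      _ ≤ (d ^ 2 + 1) ^ n * (d ^ 2 + 1) := Nat.mul_le_mul_right _ ih
      _ = (d ^ 2 + 1) ^ (n + 1) := (pow_succ _ _).symm

theorem self_mem_ball (n : ℕ) (u : V) : u ∈ ball G n u := by
  induction n with
  | zero => simp [ball]
  | succ n ih => exact mem_ball_succ.2 ⟨u, ih, mem_insert_self _ _⟩

theorem ball_trans {m n : ℕ} {u w z : V} (h : w ∈ ball G m u) (h' : z ∈ ball G n w) :
    z ∈ ball G (m + n) u := by
  induction n generalizing z with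
  | zero =>
    rw [ball, mem_singleton] at h'
    rw [h']
    exact h
  | succ n ih =>
    obtain ⟨w', hw', hz⟩ := mem_ball_succ.1 h'
    rw [← Nat.add_assoc]
    exact mem_ball_succ.2 ⟨w', ih hw', hz⟩

theorem mem_ball_one {u w : V} (h : w ∈ insert u (N2 G u)) : w ∈ ball G 1 u :=
  mem_ball_succ.2 ⟨u, self_mem_ball 0 u, h⟩

theorem ball_symm {n : ℕ} {u w : V} (h : w ∈ ball G n u) : u ∈ ball G n w := by
  induction n generalizing w with
  | zero =>
    rw [ball, mem_singleton] at h
    rw [h]
    exact self_mem_ball 0 u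
  | succ n ih =>
    obtain ⟨w', hw', hz⟩ := mem_ball_succ.1 h
    have h1 : w' ∈ ball G 1 w := by
      rcases mem_insert.1 hz with h2 | h2
      · rw [h2]; exact self_mem_ball 1 w'
      · exact mem_ball_one (mem_insert_of_mem (N2_symm h2))
    rw [Nat.add_comm]
    exact ball_trans h1 (ih hw')

theorem ball_mono {m n : ℕ} (h : m ≤ n) (u : V) : ball G m u ⊆ ball G n u := by
  obtain ⟨k, rfl⟩ := Nat.exists_eq_add_of_le h
  intro w hw
  exact ball_trans hw (self_mem_ball k w)

theorem N2_subset_ball (u : V) : N2 G u ⊆ ball G 1 u := fun _ hw =>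
  mem_ball_one (mem_insert_of_mem hw)

/-- Number of centres whose balls of radius `r` meet the ball of radius `r` of `u`. -/
theorem card_meet_le {d : ℕ} (hd : ∀ u, (nb G u).card ≤ d) (r : ℕ) (u : V) :
    (univ.filter fun w => ¬ Disjoint (ball G r u) (ball G r w)).card ≤ (d ^ 2 + 1) ^ (2 * r) := by
  refine le_trans (card_le_card ?_) (ball_card hd (2 * r) u)
  intro w hw
  simp only [mem_filter, mem_univ, true_and] at hw
  rw [not_disjoint_iff] at hw
  obtain ⟨z, hz, hz'⟩ := hw
  rw [Nat.two_mul]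
  exact ball_trans hz (ball_symm hz')

end Pool.Agent.H23.RS
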