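import Pool.Agent.H23.RS.Beta2

/-!
# RS-11 : many vertices without a free colour in one block

`bet_joint`: induction on the number of elements of `U`. If some `u ∈ U` is exceptional, the
probability is 0. Otherwise choose `u ∈ U` with `ψ u` maximal (`Finset.exists_max_image`), `U' = U.erase u`.
Apply `Pr_cond` with `M = LM X u`, `A ξ = ∀ u' ∈ U', Bet X D ξ u'`, `B ξ = Bet X D ξ u`,
`p = (1 - ρ) ^ M₀` (`bet_cond`). `A` depends only on `Mᶜ`: for `u' ∈ U'`, `Alf X D ξ u'` depends on the
block of `u` (`alf_dep`), which is disjoint from `M` (`lm_block`), and `gam X ξ u'` depends on `Rel X u'`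
(`gam_dep_rel`), which is disjoint from `M` by `lm_rel`.

`bet_many`: if at least `m` vertices `u ∈ F` have `Bet`, some `U ⊆ F` with `U.card = m` has `Bet` for
all its elements; there are at most `2 ^ F.card` sets `U` (`Pr_exists_le` over
`F.powerset.filter (card = m)`).
-/

namespace Pool.Agent.H23.RS

open Finset Classical

variable {V : Type} [Fintype V]

theorem bet_joint {X : Ctx V} {D M₀ : ℕ} {ρ : ℝ} (hp : Pal X D M₀ ρ) (a : Fin X.S)
    (U : Finset V) (hU : ∀ u ∈ U, X.κ u = a) :
    Pr (fun ξ : V → Fin X.R => ∀ u ∈ U, Bet X D ξ u) ≤ ((1 - ρ) ^ M₀) ^ U.card := by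
  have hne : Nonempty (Fin X.R) := ⟨⟨0, hp.hR⟩⟩
  have hq0 : (0 : ℝ) ≤ (1 - ρ) ^ M₀ := pow_nonneg (by linarith [hp.hρ1]) _
  have main : ∀ (n : ℕ) (U : Finset V), U.card = n → (∀ u ∈ U, X.κ u = a) →
      Pr (fun ξ : V → Fin X.R => ∀ u ∈ U, Bet X D ξ u) ≤ ((1 - ρ) ^ M₀) ^ n := by
    intro n
    induction n with
    | zero =>
      intro U hc _
      rw [pow_zero]
      calc Pr (fun ξ : V → Fin X.R => ∀ u ∈ U, Bet X D ξ u) ≤ Pr (fun _ : V → Fin X.R => True) :=
            Pr_mono (fun _ _ => trivial)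
        _ = 1 := Pr_true
    | succ n ih =>
      intro U hc hU
      have hne' : U.Nonempty := by rw [← Finset.card_pos]; omega
      by_cases hex : ∃ u ∈ U, Exc X.G X.κ u
      · obtain ⟨u, hu, he⟩ := hex
        calc Pr (fun ξ : V → Fin X.R => ∀ u ∈ U, Bet X D ξ u)
            ≤ Pr (fun _ : V → Fin X.R => False) := Pr_mono (fun ξ h => (h u hu).1 he)
          _ = 0 := Pr_false
          _ ≤ _ := pow_nonneg hq0 _
      · have hex' : ∀ u ∈ U, ¬ Exc X.G X.κ u := fun u hu he => hex ⟨u, hu, he⟩
        obtain ⟨u, hu, hmax⟩ := Finset.exists_max_image U X.ψ hne'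
        have hA : DepOn (LM X u)ᶜ (fun ξ : V → Fin X.R => ∀ u' ∈ U.erase u, Bet X D ξ u') := by
          apply DepOn.all
          intro u' hu'
          have hu'U := Finset.mem_of_mem_erase hu'
          have hu'ne := Finset.ne_of_mem_erase hu'
          have hκ : X.κ u' = X.κ u := (hU u' hu'U).trans (hU u hu).symm
          rintro x y hxy ⟨h1, h2, h3⟩
          refine ⟨h1, ?_, ?_⟩
          · intro h
            apply h2
            refine alf_dep X D u' y x (fun v hv => ?_) h
            refine (hxy v ?_).symm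
            rw [Finset.mem_compl]
            intro hvM
            exact lm_block (hex' u hu) hvM ((mem_filter.1 hv).2.trans hκ)
          · rw [← h3]
            symm
            apply gam_dep_rel X u'
            intro v hv
            apply hxy
            rw [Finset.mem_compl]
            intro hvM
            exact lm_rel (hex' u hu) hκ hu'ne (hmax u' hu'U) hvM hv
        have hcond := Pr_cond (LM X u) (B := fun ξ : V → Fin X.R => Bet X D ξ u)
          (p := (1 - ρ) ^ M₀) hA (fun x _ => bet_cond hp (hex' u hu) x)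
        have e : (fun ξ : V → Fin X.R => ∀ u' ∈ U, Bet X D ξ u') =
            fun ξ => (∀ u' ∈ U.erase u, Bet X D ξ u') ∧ Bet X D ξ u := by
          funext ξ
          apply propext
          constructor
          · intro h
            exact ⟨fun u' hu' => h u' (Finset.mem_of_mem_erase hu'), h u hu⟩
          · rintro ⟨h1, h2⟩ u' hu'
            by_cases h : u' = u
            · rw [h]; exact h2
            · exact h1 u' (Finset.mem_erase.mpr ⟨h, hu'⟩)
        rw [e]
        refine hcond.trans ?_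
        rw [pow_succ']
        refine mul_le_mul_of_nonneg_left (ih (U.erase u) ?_ ?_) hq0
        · rw [Finset.card_erase_of_mem hu]; omega
        · intro u' hu'
          exact hU u' (Finset.mem_of_mem_erase hu')
  exact main U.card U rfl hU

theorem bet_many {X : Ctx V} {D M₀ : ℕ} {ρ : ℝ} (hp : Pal X D M₀ ρ) (a : Fin X.S)
    (F : Finset V) (hF : ∀ u ∈ F, X.κ u = a) (m : ℕ) :
    Pr (fun ξ : V → Fin X.R => m ≤ (F.filter fun u => Bet X D ξ u).card) ≤
      2 ^ F.card * ((1 - ρ) ^ M₀) ^ m := by
  have hq0 : (0 : ℝ) ≤ (1 - ρ) ^ M₀ := pow_nonneg (by linarith [hp.hρ1]) _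
  calc Pr (fun ξ : V → Fin X.R => m ≤ (F.filter fun u => Bet X D ξ u).card)
      ≤ Pr (fun ξ : V → Fin X.R => ∃ U ∈ F.powersetCard m, ∀ u ∈ U, Bet X D ξ u) := by
        apply Pr_mono
        intro ξ h
        obtain ⟨U, hU, hc⟩ := Finset.exists_subset_card_eq h
        refine ⟨U, ?_, fun u hu => (mem_filter.1 (hU hu)).2⟩
        rw [Finset.mem_powersetCard]
        exact ⟨hU.trans (Finset.filter_subset _ _), hc⟩
    _ ≤ ∑ U ∈ F.powersetCard m, Pr (fun ξ : V → Fin X.R => ∀ u ∈ U, Bet X D ξ u) :=
        Pr_exists_le _ _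
    _ ≤ ∑ U ∈ F.powersetCard m, ((1 - ρ) ^ M₀) ^ m := by
        apply Finset.sum_le_sum
        intro U hU
        rw [Finset.mem_powersetCard] at hU
        have h := bet_joint hp a U (fun u hu => hF u (hU.1 hu))
        rw [hU.2] at h
        exact h
    _ = ((F.card.choose m : ℕ) : ℝ) * ((1 - ρ) ^ M₀) ^ m := by
        rw [Finset.sum_const, Finset.card_powersetCard, nsmul_eq_mul]
    _ ≤ 2 ^ F.card * ((1 - ρ) ^ M₀) ^ m := by
        apply mul_le_mul_of_nonneg_right _ (pow_nonneg hq0 _)
        exact_mod_cast Nat.choose_le_two_pow _ _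

end Pool.Agent.H23.RS
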