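import Pool.Agent.H23.RS.Exc

/-!
# RS-8 : the first random choice (blocks), conclusion; the proof is in the header of `Exc.lean`
-/

namespace Pool.Agent.H23.RS

open Finset Classical

variable {V : Type} [Fintype V] {G : SimpleGraph V}

/-- the events -/
def lev1A (G : SimpleGraph V) (S D' θ L : ℕ) (j : V × Option (Option (Fin S))) (κ : V → Fin S) :
    Prop :=
  match j with
  | (u, none) => Many (fam2 G u) L κ
  | (u, some none) => Many (fam3 G u) L κ
  | (u, some (some a)) => 6 * D' ≤ ∑ w ∈ (N2 G u).filter (fun w => κ w = a), wt G θ u w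

theorem many_dep {S : ℕ} {𝓕 : Finset (Finset V)} {T : Finset V} (h : ∀ W ∈ 𝓕, W ⊆ T) (L : ℕ) :
    DepOn T (fun κ : V → Fin S => Many 𝓕 L κ) := by
  rintro x y hxy ⟨𝓖, h1, h2, h3, h4⟩
  refine ⟨𝓖, h1, h2, h3, fun W hW u hu w hw => ?_⟩
  rw [← hxy u (h W (h1 hW) hu), ← hxy w (h W (h1 hW) hw)]
  exact h4 W hW u hu w hw

theorem level1 {d S D' θ L : ℕ} {p : ℝ} (hd : ∀ u, (nb G u).card ≤ d) (hS : 0 < S)
    (hSD : d ^ 2 ≤ D' * S) (hθ : 1 ≤ θ)
    (hp1 : Real.exp (-(4 * D' / θ : ℝ)) ≤ p)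
    (hp2 : ((d : ℝ) ^ 3 / S) ^ L / (L.factorial : ℝ) ≤ p)
    (hp3 : ((d : ℝ) ^ 5 / (S : ℝ) ^ 2) ^ L / (L.factorial : ℝ) ≤ p) (hp4 : p < 1 / 2)
    (hp5 : 4 * p * (((S + 2) * (d ^ 2 + 1) ^ 4 : ℕ) : ℝ) ≤ 1) :
    ∃ κ : V → Fin S, (∀ u a, ∑ w ∈ (N2 G u).filter (fun w => κ w = a), wt G θ u w < 6 * D') ∧
      ∀ u, ((N2 G u).filter fun w => Exc G κ w).card ≤ 5 * L * (6 * D') := by
  have hne : Nonempty (Fin S) := ⟨⟨0, hS⟩⟩
  have hS' : (0 : ℝ) < S := by exact_mod_cast hS
  have hdep : ∀ j : V × Option (Option (Fin S)),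
      DepOn (ball G 2 j.1) (lev1A G S D' θ L j) := by
    rintro ⟨u, _ | _ | a⟩
    · exact many_dep (fun W hW => ((card_fam2 hd u).2 W hW).2) L
    · exact many_dep (fun W hW => ((card_fam3 hd u).2 W hW).2) L
    · intro x y hxy hx
      have h1 : 6 * D' ≤ ∑ w ∈ (N2 G u).filter (fun w => x w = a), wt G θ u w := hx
      have h2 : (N2 G u).filter (fun w => x w = a) = (N2 G u).filter (fun w => y w = a) := by
        apply filter_congr
        intro w hw
        rw [hxy w (ball_mono (by norm_num) u (N2_subset_ball u hw))]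
      rw [h2] at h1
      exact h1
  have hp : ∀ j : V × Option (Option (Fin S)), Pr (lev1A G S D' θ L j) ≤ p := by
    rintro ⟨u, _ | _ | a⟩
    · have h1 := pr_disj_mono (Ω := Fin S) (fam2 G u) (r := 1)
        (fun W hW => ((card_fam2 hd u).2 W hW).1) L
      refine h1.trans (le_trans ?_ hp2)
      rw [Fintype.card_fin, pow_one]
      have h2 : ((fam2 G u).card : ℝ) ≤ (d : ℝ) ^ 3 := by exact_mod_cast (card_fam2 hd u).1
      gcongr
    · have h1 := pr_disj_mono (Ω := Fin S) (fam3 G u) (r := 2)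
        (fun W hW => ((card_fam3 hd u).2 W hW).1) L
      refine h1.trans (le_trans ?_ hp3)
      rw [Fintype.card_fin]
      have h2 : ((fam3 G u).card : ℝ) ≤ (d : ℝ) ^ 5 := by exact_mod_cast (card_fam3 hd u).1
      gcongr
    · have h3 := (split_load (N2 G u) (wt G θ u) hθ (fun v _ => wt_le hθ u v) (μ := D')
        (by rw [Fintype.card_fin]; exact (sum_wt_le hd θ u).trans hSD) a).trans hp1
      refine le_trans (Pr_mono fun x hx => ?_) h3
      have h4 : 6 * D' ≤ ∑ w ∈ (N2 G u).filter (fun w => x w = a), wt G θ u w := hx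
      convert h4
  have hN : ∀ j : V × Option (Option (Fin S)),
      (univ.filter fun i : V × Option (Option (Fin S)) =>
        ¬ Disjoint (ball G 2 j.1) (ball G 2 i.1)).card ≤ (S + 2) * (d ^ 2 + 1) ^ 4 := by
    intro j
    have h1 : (univ.filter fun i : V × Option (Option (Fin S)) =>
        ¬ Disjoint (ball G 2 j.1) (ball G 2 i.1)) ⊆
        (univ.filter fun w => ¬ Disjoint (ball G 2 j.1) (ball G 2 w)) ×ˢ
          (univ : Finset (Option (Option (Fin S)))) := by
      intro i hi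
      rw [mem_filter] at hi
      rw [mem_product, mem_filter]
      exact ⟨⟨mem_univ _, hi.2⟩, mem_univ _⟩
    refine (card_le_card h1).trans ?_
    rw [card_product, card_univ, Fintype.card_option, Fintype.card_option, Fintype.card_fin,
      mul_comm]
    exact Nat.mul_le_mul_left _ (card_meet_le hd 2 j.1)
  obtain ⟨κ, hκ⟩ := lll (lev1A G S D' θ L) (fun j => ball G 2 j.1) hdep hp hp4 hN hp5
  have h1 : ∀ u a, ∑ w ∈ (N2 G u).filter (fun w => κ w = a), wt G θ u w < 6 * D' := by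
    intro u a
    have h2 : ¬ 6 * D' ≤ ∑ w ∈ (N2 G u).filter (fun w => κ w = a), wt G θ u w :=
      hκ (u, some (some a))
    omega
  refine ⟨κ, h1, fun u => ?_⟩
  refine exc_card (fun u a => ?_) u (hκ (u, none)) (hκ (u, some none))
  refine lt_of_le_of_lt ?_ (h1 u a)
  rw [card_eq_sum_ones]
  exact sum_le_sum fun w _ => one_le_wt _ _ _

end Pool.Agent.H23.RS
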