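import Pool.Agent.H23.RS.Joint
import Pool.Agent.H23.RS.Alpha

/-!
# RS-13 : the second random choice

`lll` with `J = V ⊕ (V × Fin S)`. The events: `m₁ ≤ #{a | ∃ u ∈ N2 G u₀, κ u = a ∧ Alf u}` (index `u₀`),
probability by `alf_many` with `B = 6 D'`; `m₂ ≤ #{u ∈ N2 G u₀ | κ u = a ∧ Bet u}` (index `(u₀, a)`),
probability by `bet_many` with `F = (N2 G u₀).filter (κ · = a)`, `F.card ≤ 6 D'`. The weights are at
least 1, so the number of the vertices of `N2 G u` in a block is at most the load.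
All events with the centre `u₀` depend on `ball G (T + 2) u₀`: for `u ∈ N2 G u₀`, `Alf u` depends
on `N2 G u ⊆ ball G 2 u₀`, and `gam ξ u` on `ball G (ψ u + 1) u ⊆ ball G (T + 2) u₀`
(`gam_dep_ball`, `ball_trans`, `ball_mono`). The number of indices whose ball meets a given ball:
`(S + 1) * (d ^ 2 + 1) ^ (2 * (T + 2))` (`card_meet_le`).
-/

namespace Pool.Agent.H23.RS

open Finset Classical

variable {V : Type} [Fintype V]

theorem lev2_alf_iff {X : Ctx V} {D T : ℕ} {x y : V → Fin X.R} {u₀ u : V} (hu : u ∈ N2 X.G u₀)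
    (hxy : ∀ v ∈ ball X.G (T + 2) u₀, x v = y v) : Alf X D x u → Alf X D y u := by
  refine alf_dep X D u x y fun v hv => hxy v ?_
  have h1 : u ∈ ball X.G 1 u₀ := N2_subset_ball u₀ hu
  have h2 : v ∈ ball X.G 1 u := N2_subset_ball u (mem_filter.1 hv).1
  exact ball_mono (by omega) u₀ (ball_trans h1 h2)

theorem lev2_bet_iff {X : Ctx V} {D T : ℕ} (hT : ∀ u, X.ψ u < T) {x y : V → Fin X.R} {u₀ u : V}
    (hu : u ∈ N2 X.G u₀) (hxy : ∀ v ∈ ball X.G (T + 2) u₀, x v = y v) :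
    Bet X D x u → Bet X D y u := by
  rintro ⟨h1, h2, h3⟩
  refine ⟨h1, fun h => h2 (lev2_alf_iff hu (fun v hv => (hxy v hv).symm) h), ?_⟩
  rw [← h3]
  symm
  refine gam_dep_ball X u fun v hv => hxy v ?_
  have h1 : u ∈ ball X.G 1 u₀ := N2_subset_ball u₀ hu
  have := hT u
  exact ball_mono (by omega) u₀ (ball_trans h1 hv)

theorem lev2_card {X : Ctx V} {D' : ℕ}
    (hload : ∀ u a, ∑ w ∈ (N2 X.G u).filter (fun w => X.κ w = a), wt X.G X.θ u w < 6 * D')
    (u : V) (a : Fin X.S) : ((N2 X.G u).filter fun w => X.κ w = a).card ≤ 6 * D' := by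
  refine le_trans ?_ (hload u a).le
  rw [Finset.card_eq_sum_ones]
  exact Finset.sum_le_sum fun w _ => one_le_wt _ _ _

theorem level2 {X : Ctx V} {d D D' M₀ T m₁ m₂ : ℕ} {ρ p : ℝ} (hd : ∀ u, (nb X.G u).card ≤ d)
    (hp : Pal X D M₀ ρ) (hD : D' ≤ D * X.R) (hT : ∀ u, X.ψ u < T)
    (hload : ∀ u a, ∑ w ∈ (N2 X.G u).filter (fun w => X.κ w = a), wt X.G X.θ u w < 6 * D')
    (hp1 : ((X.S : ℝ) * ((6 * D' : ℕ) * (X.R * Real.exp (-(24 * D / X.θ : ℝ))))) ^ m₁ ≤ p)
    (hp2 : 2 ^ (6 * D') * ((1 - ρ) ^ M₀) ^ m₂ ≤ p) (hp3 : p < 1 / 2)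
    (hp4 : 4 * p * (((X.S + 1) * (d ^ 2 + 1) ^ (2 * (T + 2)) : ℕ) : ℝ) ≤ 1) :
    ∃ ξ : V → Fin X.R, ∀ u₀, (univ.filter fun a : Fin X.S =>
        ∃ u ∈ N2 X.G u₀, X.κ u = a ∧ Alf X D ξ u).card < m₁ ∧
      ∀ a, ((N2 X.G u₀).filter fun u => X.κ u = a ∧ Bet X D ξ u).card < m₂ := by
  have hne : Nonempty (Fin X.R) := ⟨⟨0, hp.hR⟩⟩
  let A : V ⊕ (V × Fin X.S) → (V → Fin X.R) → Prop := fun j ξ =>
    match j with
    | .inl u₀ => m₁ ≤ (univ.filter fun a : Fin X.S => ∃ u ∈ N2 X.G u₀, X.κ u = a ∧ Alf X D ξ u).card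
    | .inr (u₀, a) => m₂ ≤ ((N2 X.G u₀).filter fun u => X.κ u = a ∧ Bet X D ξ u).card
  let c : V ⊕ (V × Fin X.S) → V := fun j =>
    match j with
    | .inl u₀ => u₀
    | .inr (u₀, _) => u₀
  have key : ∃ ξ : V → Fin X.R, ∀ j, ¬ A j ξ := by
    refine lll A (fun j => ball X.G (T + 2) (c j)) ?_ (p := p)
      (N := (X.S + 1) * (d ^ 2 + 1) ^ (2 * (T + 2))) ?_ hp3 ?_ hp4
    · rintro (u₀ | ⟨u₀, a⟩) x y hxy h
      · have e : (univ.filter fun a : Fin X.S => ∃ u ∈ N2 X.G u₀, X.κ u = a ∧ Alf X D x u) =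
            (univ.filter fun a : Fin X.S => ∃ u ∈ N2 X.G u₀, X.κ u = a ∧ Alf X D y u) := by
          ext a
          simp only [mem_filter, mem_univ, true_and]
          constructor
          · rintro ⟨u, hu, h1, h2⟩
            exact ⟨u, hu, h1, lev2_alf_iff hu hxy h2⟩
          · rintro ⟨u, hu, h1, h2⟩
            exact ⟨u, hu, h1, lev2_alf_iff hu (fun v hv => (hxy v hv).symm) h2⟩
        change m₁ ≤ _ at h
        change m₁ ≤ _
        rwa [← e]
      · have e : ((N2 X.G u₀).filter fun u => X.κ u = a ∧ Bet X D x u) =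
            ((N2 X.G u₀).filter fun u => X.κ u = a ∧ Bet X D y u) := by
          ext u
          simp only [mem_filter]
          constructor
          · rintro ⟨hu, h1, h2⟩
            exact ⟨hu, h1, lev2_bet_iff hT hu hxy h2⟩
          · rintro ⟨hu, h1, h2⟩
            exact ⟨hu, h1, lev2_bet_iff hT hu (fun v hv => (hxy v hv).symm) h2⟩
        change m₂ ≤ _ at h
        change m₂ ≤ _
        rwa [← e]
    · rintro (u₀ | ⟨u₀, a⟩)
      · refine le_trans ?_ hp1
        refine alf_many hp.hR hp.hθ ?_ (lev2_card hload) u₀ m₁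
        intro u
        refine (hload u (X.κ u)).le.trans ?_
        calc 6 * D' ≤ 6 * (D * X.R) := Nat.mul_le_mul_left _ hD
          _ = 6 * D * X.R := by ring
      · refine le_trans ?_ hp2
        have h1 := bet_many hp a ((N2 X.G u₀).filter fun u => X.κ u = a)
          (fun u hu => (mem_filter.1 hu).2) m₂
        have e : ∀ ξ : V → Fin X.R, (((N2 X.G u₀).filter fun u => X.κ u = a).filter
            fun u => Bet X D ξ u) = ((N2 X.G u₀).filter fun u => X.κ u = a ∧ Bet X D ξ u) := by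
          intro ξ
          rw [Finset.filter_filter]
        simp only [e] at h1
        refine h1.trans ?_
        have h2 : (0 : ℝ) ≤ 1 - ρ := by linarith [hp.hρ1]
        gcongr
        · norm_num
        · exact lev2_card hload u₀ a
    · intro j
      have hsub : (univ.filter fun i => ¬ Disjoint (ball X.G (T + 2) (c j)) (ball X.G (T + 2) (c i))) ⊆
          (univ.filter fun w => ¬ Disjoint (ball X.G (T + 2) (c j)) (ball X.G (T + 2) w)).disjSum
            ((univ.filter fun w => ¬ Disjoint (ball X.G (T + 2) (c j)) (ball X.G (T + 2) w)) ×ˢ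
              (univ : Finset (Fin X.S))) := by
        rintro (u | ⟨u, a⟩) hi
        · rw [Finset.inl_mem_disjSum]
          simpa [c] using hi
        · rw [Finset.inr_mem_disjSum]
          simpa [c] using hi
      refine (card_le_card hsub).trans ?_
      rw [card_disjSum, card_product, card_univ, Fintype.card_fin]
      have h1 := card_meet_le hd (T + 2) (c j)
      calc _ = (univ.filter fun w => ¬ Disjoint (ball X.G (T + 2) (c j))
            (ball X.G (T + 2) w)).card * (X.S + 1) := by ring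
        _ ≤ (d ^ 2 + 1) ^ (2 * (T + 2)) * (X.S + 1) := Nat.mul_le_mul_right _ h1
        _ = _ := by ring
  obtain ⟨ξ, hξ⟩ := key
  exact ⟨ξ, fun u₀ => ⟨not_le.1 (hξ (.inl u₀)), fun a => not_le.1 (hξ (.inr (u₀, a)))⟩⟩

end Pool.Agent.H23.RS
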