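import Pool.Agent.H23.RS.Num2

/-!
# RS-18b : the number of colours

`2 ^ ℓ ≤ d < 2 ^ (ℓ + 1)`, `40 e ≤ ℓ ≤ 40 (e + 1)`, `100 ℓ ^ 10 ≤ 2 ^ e`, `E = 4 ^ e`, `D' = ℓ ^ 2 E`.

* `num_K`: let `b = ℓ E`. `(d ^ 2 / (ℓ ^ 2 E)) b ≤ d ^ 2 / ℓ`. `∑ q ≤ 36 b + 3100 E (2 ℓ) = 6236 b`
  (`sum_log`). `30 d D' ^ 4 ≤ d ^ 2 / ℓ` and `6 d D' ≤ d ^ 2 / ℓ`, `b ≤ d ^ 2 / ℓ`, `1 ≤ d ^ 2 / ℓ` as
  `30 ℓ ^ 9 E ^ 4 ≤ 2 ^ e * 2 ^ (8 e) ≤ 2 ^ ℓ ≤ d`. In total at most `20000 (d ^ 2 / ℓ)`.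
-/

namespace Pool.Agent.H23.RS

open Finset

variable {d ℓ e : ℕ}

theorem sum_pal (hℓ : 1 ≤ ℓ) : ∑ i ∈ range ℓ, pal ℓ e i ≤ 6236 * (ℓ * 4 ^ e) := by
  obtain ⟨m, rfl⟩ : ∃ m, ℓ = m + 1 := ⟨ℓ - 1, by omega⟩
  have h1 := sum_log (m + 1)
  rw [Finset.range_eq_Ico, Finset.sum_eq_sum_Ico_succ_bot (by omega : 0 < m + 1)]
  have h2 : pal (m + 1) e 0 = 36 * ((m + 1) * 4 ^ e) := by simp [pal]
  have h3 : ∑ i ∈ Ico (0 + 1) (m + 1), pal (m + 1) e i =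
      3100 * 4 ^ e * (∑ i ∈ Ico 1 (m + 1), Nat.log 2 ((m + 1) / i) + m) := by
    rw [mul_add, Finset.mul_sum]
    have h4 : 3100 * 4 ^ e * m = ∑ _i ∈ Ico 1 (m + 1), 3100 * 4 ^ e := by
      rw [Finset.sum_const, Nat.card_Ico, smul_eq_mul]
      simp [mul_comm]
    rw [h4, ← Finset.sum_add_distrib]
    refine Finset.sum_congr rfl fun i hi => ?_
    have hi' : i ≠ 0 := by
      have := (Finset.mem_Ico.1 hi).1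
      omega
    unfold pal
    rw [if_neg hi']
    ring
  rw [h2, h3]
  have h5 : ∑ i ∈ Ico 1 (m + 1), Nat.log 2 ((m + 1) / i) + m ≤ 2 * (m + 1) := by omega
  calc 36 * ((m + 1) * 4 ^ e) +
      3100 * 4 ^ e * (∑ i ∈ Ico 1 (m + 1), Nat.log 2 ((m + 1) / i) + m) ≤
      36 * ((m + 1) * 4 ^ e) + 3100 * 4 ^ e * (2 * (m + 1)) :=
        Nat.add_le_add_left (Nat.mul_le_mul_left _ h5) _
    _ = 6236 * ((m + 1) * 4 ^ e) := by ring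

theorem num_K (h : Big d ℓ e) :
    5 * (d * (ℓ ^ 2 * 4 ^ e) ^ 3) * (6 * (ℓ ^ 2 * 4 ^ e)) + d * (6 * (ℓ ^ 2 * 4 ^ e)) +
      (d ^ 2 / (ℓ ^ 2 * 4 ^ e) + 1) * (ℓ * 4 ^ e) + 1 +
      (d ^ 2 / (ℓ ^ 2 * 4 ^ e) + 1) * ∑ i ∈ range ℓ, pal ℓ e i ≤ 20000 * (d ^ 2 / ℓ) := by
  have hℓ : 40 ≤ ℓ := by have := h.h3; have := h.h6; omega
  have hs := sum_pal (e := e) (show 1 ≤ ℓ by omega)
  have hE4 : (4 ^ e : ℕ) ^ 4 = 2 ^ (8 * e) := by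
    rw [show (4 : ℕ) = 2 ^ 2 by norm_num, ← pow_mul, ← pow_mul]
    congr 1
    ring
  have hE1 : 1 ≤ (4 ^ e : ℕ) := Nat.one_le_pow _ _ (by norm_num)
  obtain ⟨E, hE⟩ : ∃ E, E = (4 ^ e : ℕ) := ⟨_, rfl⟩
  rw [← hE] at hs hE4 hE1 ⊢
  -- the main inequality
  have hmain : 30 * (ℓ ^ 9 * E ^ 4) ≤ d := by
    have h5 := h.h5
    have h51 : 30 * ℓ ^ 9 ≤ 2 ^ e := by
      refine le_trans ?_ h5
      calc 30 * ℓ ^ 9 ≤ 100 * (ℓ ^ 9 * ℓ) := by nlinarith [Nat.zero_le (ℓ ^ 9)]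
        _ = 100 * ℓ ^ 10 := by ring
    calc 30 * (ℓ ^ 9 * E ^ 4) = (30 * ℓ ^ 9) * E ^ 4 := by ring
      _ ≤ 2 ^ e * 2 ^ (8 * e) := by rw [hE4]; exact Nat.mul_le_mul_right _ h51
      _ = 2 ^ (9 * e) := by rw [← pow_add]; congr 1; ring
      _ ≤ 2 ^ ℓ := Nat.pow_le_pow_right (by norm_num) (by have := h.h3; omega)
      _ ≤ d := h.h1
  have hd : 1 ≤ d := le_trans (Nat.one_le_two_pow) h.h1
  have hℓ0 : 0 < ℓ := by omega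
  -- smaller quantities
  have hm1 : ℓ ^ 3 * E ≤ ℓ ^ 9 * E ^ 4 :=
    Nat.mul_le_mul (Nat.pow_le_pow_right hℓ0 (by norm_num)) (Nat.le_self_pow (by norm_num) E)
  have hm2 : ℓ ^ 2 * E ≤ ℓ ^ 9 * E ^ 4 :=
    Nat.mul_le_mul (Nat.pow_le_pow_right hℓ0 (by norm_num)) (Nat.le_self_pow (by norm_num) E)
  obtain ⟨T, hT⟩ : ∃ T, T = d ^ 2 / ℓ := ⟨_, rfl⟩
  obtain ⟨Q, hQ⟩ : ∃ Q, Q = d ^ 2 / (ℓ ^ 2 * E) := ⟨_, rfl⟩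
  have f2 : Q * (ℓ * E) ≤ T := by
    rw [hT, Nat.le_div_iff_mul_le hℓ0]
    calc Q * (ℓ * E) * ℓ = Q * (ℓ ^ 2 * E) := by ring
      _ ≤ d ^ 2 := by rw [hQ]; exact Nat.div_mul_le_self _ _
  have f3 : 5 * (d * (ℓ ^ 2 * E) ^ 3) * (6 * (ℓ ^ 2 * E)) ≤ T := by
    rw [hT, Nat.le_div_iff_mul_le hℓ0]
    calc 5 * (d * (ℓ ^ 2 * E) ^ 3) * (6 * (ℓ ^ 2 * E)) * ℓ = d * (30 * (ℓ ^ 9 * E ^ 4)) := by ring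
      _ ≤ d * d := Nat.mul_le_mul_left _ hmain
      _ = d ^ 2 := by ring
  have f4 : d * (6 * (ℓ ^ 2 * E)) ≤ T := by
    rw [hT, Nat.le_div_iff_mul_le hℓ0]
    calc d * (6 * (ℓ ^ 2 * E)) * ℓ = d * (6 * (ℓ ^ 3 * E)) := by ring
      _ ≤ d * d := Nat.mul_le_mul_left _ (by omega)
      _ = d ^ 2 := by ring
  have f5 : ℓ * E ≤ T := by
    rw [hT, Nat.le_div_iff_mul_le hℓ0]
    calc ℓ * E * ℓ = ℓ ^ 2 * E := by ring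
      _ ≤ d := by omega
      _ ≤ d ^ 2 := Nat.le_self_pow (by norm_num) d
  have f6 : 1 ≤ ℓ * E := Nat.mul_pos hℓ0 hE1
  have f7 : (Q + 1) * ∑ i ∈ range ℓ, pal ℓ e i ≤ 6236 * (T + T) := by
    calc (Q + 1) * ∑ i ∈ range ℓ, pal ℓ e i ≤ (Q + 1) * (6236 * (ℓ * E)) :=
          Nat.mul_le_mul_left _ hs
      _ = 6236 * (Q * (ℓ * E) + ℓ * E) := by ring
      _ ≤ 6236 * (T + T) := Nat.mul_le_mul_left _ (Nat.add_le_add f2 f5)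
  have f8 : (Q + 1) * (ℓ * E) ≤ T + T := by
    calc (Q + 1) * (ℓ * E) = Q * (ℓ * E) + ℓ * E := by ring
      _ ≤ T + T := Nat.add_le_add f2 f5
  rw [← hT, ← hQ]
  omega

end Pool.Agent.H23.RS
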