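import Pool.Agent.H23.RS.Asm
import Pool.Agent.H23.RS.Num3

/-!
# RS-19 : the theorem

`exists_par`: the structure `Par` from the numerical facts. `rs_upper`: clear.
`rs_thr`: let `C = 20000`, `c = 1 / (4 √C)`, `d₁ = ⌊c √(k log k)⌋`. For large `k`: `d₁ ≥ d₀` and
`log₂ d₁ ≥ (log k) / 4` (since `d₁ ≥ k ^ (2/5)` for large `k`), and `MaxDegLE G d` with `d ≤ d₁` gives
`(nb G u).card ≤ d₁`. So `G` is rs colourable with
`C d₁ ^ 2 / Nat.log 2 d₁ ≤ C c ^ 2 k log k / (log k / 4) = k / 4` colours (with the rounding of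
`Nat.log` even a factor 4 is to spare), and more colours do not hurt.
-/

namespace Pool.Agent.H23.RS

open Finset Pool.Agent.H79.Thr

theorem rsColourable_mono {V : Type} {G : SimpleGraph V} {k k' : ℕ} (h : k ≤ k')
    (hG : RSColourable k G) : RSColourable k' G := by
  obtain ⟨f, h1, h2⟩ := hG
  refine ⟨fun v => Fin.castLE h (f v), fun u v huv he => h1 u v huv ?_, ?_⟩
  · exact Fin.castLE_injective h he
  · rintro u v w huv hvw hne ⟨he, hlt⟩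
    exact h2 u v w huv hvw hne ⟨Fin.castLE_injective h he, hlt⟩

theorem exists_par : ∃ d₀ : ℕ, ∀ d, d₀ ≤ d → Nonempty (Par d (20000 * (d ^ 2 / Nat.log 2 d))) := by
  obtain ⟨d₀, hd₀⟩ := big_exists
  refine ⟨d₀, fun d hd => ?_⟩
  have h := hd₀ d hd
  set ℓ := Nat.log 2 d with hℓ
  set e := ℓ / 40 with he
  have hℓ1 : 1 ≤ ℓ := by have := h.h3; have := h.h6; omega
  have hℓR : (ℓ : ℝ) ≠ 0 := by positivity
  have hEpos : 0 < 4 ^ e := by positivity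
  refine ⟨⟨d ^ 2 / (ℓ ^ 2 * 4 ^ e) + 1, ℓ ^ 2 * 4 ^ e, ℓ * 4 ^ e, ℓ, ℓ,
    d * (ℓ ^ 2 * 4 ^ e) ^ 3, d, ℓ * 4 ^ e, 1550 * 4 ^ e, pal ℓ e,
    (1 / 2 : ℝ) ^ e, Real.exp (-(4 * (ℓ * 4 ^ e : ℕ) : ℝ)),
    (1 / 2 : ℝ) ^ (40 * ℓ ^ 3 * 4 ^ e), Nat.succ_pos _, hℓ1, hℓ1,
    (num_S h).1, by rw [show ℓ * 4 ^ e * ℓ = ℓ ^ 2 * 4 ^ e by ring],
    ?_, num_a2 h, num_a3 h, ?_, num_a5 h, by positivity,
    pow_le_one₀ (by norm_num) (by norm_num), by simp [pal], num_q h,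
    num_b1 h, num_b2 h, ?_, num_b4 h, num_K h⟩⟩
  · refine Real.exp_le_exp.2 (le_of_eq ?_)
    push_cast
    field_simp
  · have h1 : (1 : ℝ) ≤ (ℓ * 4 ^ e : ℕ) := by
      exact_mod_cast Nat.one_le_iff_ne_zero.2 (by positivity)
    have h2 : Real.exp (-(4 * (ℓ * 4 ^ e : ℕ) : ℝ)) ≤ Real.exp (-1) :=
      Real.exp_le_exp.2 (by linarith)
    have h3 : Real.exp (-1) < 1 / 2 := by
      rw [Real.exp_neg, inv_lt_comm₀ (Real.exp_pos _) (by norm_num)]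
      have := Real.exp_one_gt_d9
      norm_num
      linarith
    linarith
  · have h1 : 2 ≤ 40 * ℓ ^ 3 * 4 ^ e := by
      have : 1 ≤ ℓ ^ 3 * 4 ^ e := Nat.one_le_iff_ne_zero.2 (by positivity)
      nlinarith
    have h2 : (1 / 2 : ℝ) ^ (40 * ℓ ^ 3 * 4 ^ e) ≤ (1 / 2 : ℝ) ^ 2 :=
      pow_le_pow_of_le_one (by norm_num) (by norm_num) h1
    norm_num at h2 ⊢
    linarith

/-- Every graph of large maximum degree `d` has an rs colouring with `O(d² / log d)` colours. -/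
theorem rs_upper : ∃ d₀ : ℕ, ∀ d, d₀ ≤ d → ∀ (V : Type) (_ : Fintype V) (G : SimpleGraph V),
    (∀ u, (nb G u).card ≤ d) → RSColourable (20000 * (d ^ 2 / Nat.log 2 d)) G := by
  obtain ⟨d₀, h⟩ := exists_par
  exact ⟨d₀, fun d hd V _ G hG => by
    obtain ⟨P⟩ := h d hd
    exact rs_of_par G P hG⟩

/-- Every graph of maximum degree at most `c √(k log k)` has an rs `k`-colouring. -/
theorem rs_thr : ∃ c : ℝ, 0 < c ∧ ∃ k₀ : ℕ, ∀ k : ℕ, k₀ ≤ k → ∀ d : ℕ,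
    (d : ℝ) ≤ c * √(k * Real.log k) → ∀ (V : Type) (_ : Fintype V) (G : SimpleGraph V),
    MaxDegLE G d → RSColourable k G := by
  obtain ⟨d₀, h0⟩ := rs_upper
  have hA := (Real.tendsto_log_atTop.comp
    (tendsto_natCast_atTop_atTop (R := ℝ))).eventually_ge_atTop (4 * (Real.log 2000 + 1))
  have hB := (Real.tendsto_sqrt_atTop.comp
    (tendsto_natCast_atTop_atTop (R := ℝ))).eventually_ge_atTop (2000 * ((d₀ : ℝ) + 1))
  obtain ⟨k₀, hk₀⟩ := Filter.eventually_atTop.mp (hA.and hB)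
  refine ⟨1 / 1000, by norm_num, k₀, fun k hk d hd V hV G hG => ?_⟩
  obtain ⟨hL, hS⟩ := hk₀ k hk
  simp only [Function.comp_apply] at hL hS
  have hl2000 : 0 < Real.log 2000 := Real.log_pos (by norm_num)
  have hd0 : (0 : ℝ) ≤ (d₀ : ℝ) := Nat.cast_nonneg _
  have hLpos : 1 ≤ Real.log (k : ℝ) := by linarith
  have hSpos : 0 < √(k : ℝ) := by linarith
  have hk0 : (0 : ℝ) < (k : ℝ) := Real.sqrt_pos.mp hSpos
  set X : ℝ := 1 / 1000 * √((k : ℝ) * Real.log k) with hX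
  have hXS : √(k : ℝ) / 1000 ≤ X := by
    have : √(k : ℝ) ≤ √((k : ℝ) * Real.log k) :=
      Real.sqrt_le_sqrt (by nlinarith)
    rw [hX]; linarith
  have hX0 : 0 ≤ X := by linarith
  have hX2 : X ^ 2 = (k : ℝ) * Real.log k / 1000000 := by
    rw [hX, mul_pow, Real.sq_sqrt (by positivity)]
    ring
  set d₁ := ⌊X⌋₊ with hd₁
  have hdd : d ≤ d₁ := Nat.le_floor hd
  have hd₁X : (d₁ : ℝ) ≤ X := Nat.floor_le hX0
  have hd₁X' : X < (d₁ : ℝ) + 1 := Nat.lt_floor_add_one X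
  have hd₁S : √(k : ℝ) / 2000 ≤ (d₁ : ℝ) := by
    have : 1 ≤ √(k : ℝ) / 2000 := by
      rw [le_div_iff₀ (by norm_num)]; linarith
    linarith
  have hd₁d₀ : d₀ ≤ d₁ := by
    have : (d₀ : ℝ) ≤ (d₁ : ℝ) := by linarith
    exact_mod_cast this
  have hd₁pos : 0 < d₁ := by
    have : (0 : ℝ) < (d₁ : ℝ) := lt_of_lt_of_le (by positivity) hd₁S
    exact_mod_cast this
  -- lower bound for the logarithm
  set l := Nat.log 2 d₁ with hl
  have hlog : Real.log (k : ℝ) / 4 ≤ (l : ℝ) := by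
    have h1 : d₁ < 2 ^ (l + 1) := Nat.lt_pow_succ_log_self (by norm_num) d₁
    have h2 : Real.log (d₁ : ℝ) ≤ ((l : ℝ) + 1) * Real.log 2 := by
      have h3 : (d₁ : ℝ) ≤ (2 : ℝ) ^ (l + 1) := by exact_mod_cast h1.le
      have h4 := Real.log_le_log (by exact_mod_cast hd₁pos) h3
      rw [Real.log_pow] at h4
      push_cast at h4
      exact h4
    have h5 : Real.log (k : ℝ) / 2 - Real.log 2000 ≤ Real.log (d₁ : ℝ) := by
      have h6 := Real.log_le_log (by positivity) hd₁S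
      rw [Real.log_div hSpos.ne' (by norm_num), Real.log_sqrt hk0.le] at h6
      exact h6
    have h7 : Real.log 2 ≤ 1 := by
      have := Real.log_two_lt_d9
      linarith
    have h8 : (0 : ℝ) ≤ (l : ℝ) + 1 := by positivity
    have h9 : ((l : ℝ) + 1) * Real.log 2 ≤ (l : ℝ) + 1 := by nlinarith
    linarith
  have hlpos : (0 : ℝ) < (l : ℝ) := by linarith
  have hbound : 20000 * (d₁ ^ 2 / l) ≤ k := by
    have h1 : ((d₁ ^ 2 / l : ℕ) : ℝ) ≤ (d₁ : ℝ) ^ 2 / (l : ℝ) := by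
      have := @Nat.cast_div_le ℝ _ _ _ (d₁ ^ 2) l
      push_cast at this
      exact this
    have h2 : (d₁ : ℝ) ^ 2 / (l : ℝ) ≤ (k : ℝ) / 20000 := by
      rw [div_le_iff₀ hlpos]
      have h3 : (d₁ : ℝ) ^ 2 ≤ X ^ 2 := pow_le_pow_left₀ (Nat.cast_nonneg _) hd₁X 2
      rw [hX2] at h3
      have h4 : (k : ℝ) * (Real.log (k : ℝ) / 4) ≤ (k : ℝ) * (l : ℝ) :=
        mul_le_mul_of_nonneg_left hlog hk0.le
      have h5 : 0 ≤ (k : ℝ) * (l : ℝ) := by positivity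
      linarith
    have h3 : ((20000 * (d₁ ^ 2 / l) : ℕ) : ℝ) ≤ (k : ℝ) := by
      push_cast
      linarith
    exact_mod_cast h3
  refine rsColourable_mono hbound (h0 d₁ hd₁d₀ V hV G (fun u => ?_))
  have h1 := (hG u).2
  refine le_trans (le_of_eq ?_) (h1.trans hdd)
  rw [← Set.ncard_coe_finset]
  congr 1
  ext v
  simp [nb, SimpleGraph.mem_neighborSet]

end Pool.Agent.H23.RS
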