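import Mathlib

/-!
# RS-17a : numerical facts, part 1

Throughout: `2 ^ ℓ ≤ d < 2 ^ (ℓ + 1)`, `40 e ≤ ℓ ≤ 40 (e + 1)`, `100 ℓ ^ 10 ≤ 2 ^ e`, `1 ≤ e`; parameters
`E = 4 ^ e`, `D' = ℓ ^ 2 E`, `S = d ^ 2 / D' + 1` (so `d ^ 2 / D' < S` as real numbers, `S ≤ d ^ 2 + 1`,
`S + 2 ≤ 2 ^ (2 ℓ + 2)`), `L = d D' ^ 3`.

* `big_exists`: `x ^ 10 = o(2 ^ (x / 40))`; e.g. `tendsto_pow_const_div_const_pow_of_one_lt` with
  `r = 2 ^ (1/40) > 1`, or with `e`: `100 (40 (e + 1)) ^ 10 ≤ 2 ^ e` for large `e`.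
* `sum_log`: `∑ i ∈ Ico 1 ℓ, Nat.log 2 (ℓ / i) ≤ ℓ`. `Nat.log 2 m` is the number of `j ≥ 1` with
  `2 ^ j ≤ m`; `2 ^ j ≤ ℓ / i ↔ i 2 ^ j ≤ ℓ`; for fixed `j ≥ 1` there are at most `ℓ / 2 ^ j` such `i`, and
  `∑ j ≥ 1, ℓ / 2 ^ j ≤ ℓ`. (Or induction.)
* `pow_div_fact`: `x ^ L / L! ≤ (exp 1 * x / L) ^ L`, from `L ^ L / L! ≤ exp L`
  (`Real.pow_div_factorial_le_exp`).
-/

namespace Pool.Agent.H23.RS

open Finset

/-- The standing numerical hypotheses. -/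
structure Big (d ℓ e : ℕ) : Prop where
  h1 : 2 ^ ℓ ≤ d
  h2 : d < 2 ^ (ℓ + 1)
  h3 : 40 * e ≤ ℓ
  h4 : ℓ ≤ 40 * (e + 1)
  h5 : 100 * ℓ ^ 10 ≤ 2 ^ e
  h6 : 1 ≤ e

namespace Nu1

theorem ev : ∃ e₀ : ℕ, ∀ e, e₀ ≤ e → 100 * (40 * (e + 1)) ^ 10 ≤ 2 ^ e := by
  have h := tendsto_pow_const_div_const_pow_of_one_lt 10 (r := (2 : ℝ)) (by norm_num)
  have h1 : (0 : ℝ) < 1 / (200 * 40 ^ 10) := by norm_num
  obtain ⟨N, hN⟩ := Filter.eventually_atTop.1 (h.eventually (gt_mem_nhds h1))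
  refine ⟨N, fun e he => ?_⟩
  have h2 := hN (e + 1) (by omega)
  have h3 : (0 : ℝ) < 2 ^ (e + 1) := by positivity
  rw [div_lt_div_iff₀ h3 (by norm_num), one_mul] at h2
  have h4 : ((100 * (40 * (e + 1)) ^ 10 : ℕ) : ℝ) ≤ ((2 ^ e : ℕ) : ℝ) := by
    have h5 : (2 : ℝ) ^ (e + 1) = 2 ^ e * 2 := pow_succ _ _
    rw [h5] at h2
    push_cast at h2 ⊢
    rw [mul_pow]
    linarith
  exact_mod_cast h4

theorem log_eq {ℓ m : ℕ} (hm : 1 ≤ m) (hmℓ : m ≤ ℓ) :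
    Nat.log 2 m = ((Ico 1 (ℓ + 1)).filter (fun j => 2 ^ j ≤ m)).card := by
  have h : (Ico 1 (ℓ + 1)).filter (fun j => 2 ^ j ≤ m) = Ico 1 (Nat.log 2 m + 1) := by
    ext j
    rw [mem_filter, mem_Ico, mem_Ico, ← Nat.le_log_iff_pow_le (by norm_num) (by omega)]
    have := Nat.log_le_self 2 m
    omega
  rw [h, Nat.card_Ico]
  omega

end Nu1

theorem big_exists : ∃ d₀ : ℕ, ∀ d, d₀ ≤ d → Big d (Nat.log 2 d) (Nat.log 2 d / 40) := by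
  obtain ⟨e₀, he₀⟩ := Nu1.ev
  refine ⟨2 ^ (40 * (e₀ + 1)), fun d hd => ?_⟩
  have hd0 : d ≠ 0 := by
    have : 0 < 2 ^ (40 * (e₀ + 1)) := by positivity
    omega
  have hl : 40 * (e₀ + 1) ≤ Nat.log 2 d := (Nat.le_log_iff_pow_le (by norm_num) hd0).2 hd
  set ℓ := Nat.log 2 d with hℓ
  have he : e₀ + 1 ≤ ℓ / 40 := by omega
  refine ⟨Nat.pow_log_le_self 2 hd0, Nat.lt_pow_succ_log_self (by norm_num) d, by omega, by omega, ?_,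
    by omega⟩
  refine le_trans ?_ (he₀ (ℓ / 40) (by omega))
  gcongr
  omega

theorem sum_log (ℓ : ℕ) : ∑ i ∈ Ico 1 ℓ, Nat.log 2 (ℓ / i) ≤ ℓ := by
  have h1 : ∑ i ∈ Ico 1 ℓ, Nat.log 2 (ℓ / i) =
      ∑ i ∈ Ico 1 ℓ, ∑ j ∈ Ico 1 (ℓ + 1), if 2 ^ j ≤ ℓ / i then 1 else 0 := by
    refine Finset.sum_congr rfl fun i hi => ?_
    rw [mem_Ico] at hi
    rw [Nu1.log_eq (ℓ := ℓ) (Nat.div_pos hi.2.le (by omega)) (Nat.div_le_self _ _), Finset.card_filter]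
  rw [h1, Finset.sum_comm]
  have h2 : ∀ j ∈ Ico 1 (ℓ + 1), (∑ i ∈ Ico 1 ℓ, if 2 ^ j ≤ ℓ / i then 1 else 0) ≤ ℓ / 2 ^ j := by
    intro j _
    rw [← Finset.card_filter]
    have h3 : (Ico 1 ℓ).filter (fun i => 2 ^ j ≤ ℓ / i) ⊆ Ico 1 (ℓ / 2 ^ j + 1) := by
      intro i hi
      rw [mem_filter, mem_Ico] at hi
      rw [mem_Ico]
      refine ⟨hi.1.1, Nat.lt_succ_of_le ?_⟩
      rw [Nat.le_div_iff_mul_le (by positivity)]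
      have h4 := (Nat.le_div_iff_mul_le (by omega)).1 hi.2
      rw [mul_comm]
      exact h4
    refine (Finset.card_le_card h3).trans ?_
    rw [Nat.card_Ico, Nat.add_sub_cancel]
  refine (Finset.sum_le_sum h2).trans ?_
  have h5 := Nat.geom_sum_Ico_le (b := 2) le_rfl ℓ (ℓ + 1)
  simpa using h5

theorem pow_div_fact {x : ℝ} (hx : 0 ≤ x) {L : ℕ} (hL : 0 < L) :
    x ^ L / (L.factorial : ℝ) ≤ (Real.exp 1 * x / L) ^ L := by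
  have hL' : (0 : ℝ) < L := by exact_mod_cast hL
  have h1 : (L : ℝ) ^ L / (L.factorial : ℝ) ≤ Real.exp L := Real.pow_div_factorial_le_exp (L : ℝ) hL'.le L
  have h2 : x ^ L / (L.factorial : ℝ) = (x / L) ^ L * ((L : ℝ) ^ L / (L.factorial : ℝ)) := by
    rw [div_pow]
    field_simp
  have h3 : (Real.exp 1 * x / L) ^ L = (x / L) ^ L * Real.exp L := by
    rw [mul_div_assoc, mul_pow, ← Real.exp_nat_mul, mul_one, mul_comm]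
  rw [h2, h3]
  exact mul_le_mul_of_nonneg_left h1 (by positivity)

end Pool.Agent.H23.RS
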