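import Pool.Agent.H23.RS.Num1

/-!
# RS-17b : numerical facts for the first random choice

`2 ^ ℓ ≤ d < 2 ^ (ℓ + 1)`, `40 e ≤ ℓ ≤ 40 (e + 1)`, `100 ℓ ^ 10 ≤ 2 ^ e`, `1 ≤ e` (so `ℓ ≥ 40`); parameters
`E = 4 ^ e`, `D' = ℓ ^ 2 E`, `S = d ^ 2 / D' + 1` (so `d ^ 2 / D' < S` as real numbers), `L = d D' ^ 3`.

* `num_S`: `d ^ 2 < 2 ^ (2 ℓ + 2)`, and `d ^ 2 / D' + 3 ≤ d ^ 2 + 1` as `D' ≥ 2`, `d ^ 2 ≥ 4`.
* `num_a2`, `num_a3`: `d ^ 3 / S ≤ d D'`, `d ^ 5 / S ^ 2 ≤ d D' ^ 2`; with `pow_div_fact` both are at most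
  `(exp 1 / D') ^ L ≤ exp (-L)` as `D' ≥ 8 ≥ exp 2`, and `L ≥ 4 ℓ E`.
* `num_a5`: `d ^ 2 + 1 ≤ 2 ^ (2 ℓ + 2)`, `S + 2 ≤ 2 ^ (2 ℓ + 2)`, so the product is at most
  `2 ^ (10 ℓ + 12) ≤ 2 ^ (4 ℓ E) ≤ exp (4 ℓ E)`.
-/

namespace Pool.Agent.H23.RS

open Finset

variable {d ℓ e : ℕ}

theorem num1b_facts (h : Big d ℓ e) : 40 ≤ ℓ ∧ 4 ≤ 4 ^ e ∧ 8 ≤ ℓ ^ 2 * 4 ^ e ∧ 2 ≤ d ∧
    4 * (ℓ * 4 ^ e) ≤ ℓ ^ 2 * 4 ^ e := by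
  have h3 := h.h3
  have h6 := h.h6
  have h1 := h.h1
  have hℓ : 40 ≤ ℓ := by omega
  have hE : 4 ≤ 4 ^ e := by
    calc 4 = 4 ^ 1 := by norm_num
      _ ≤ 4 ^ e := Nat.pow_le_pow_right (by norm_num) h6
  have hd : 2 ≤ d := by
    calc 2 = 2 ^ 1 := by norm_num
      _ ≤ 2 ^ ℓ := Nat.pow_le_pow_right (by norm_num) (by omega)
      _ ≤ d := h1
  refine ⟨hℓ, hE, ?_, hd, ?_⟩
  · nlinarith
  · have : 4 * ℓ ≤ ℓ ^ 2 := by nlinarith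
    calc 4 * (ℓ * 4 ^ e) = (4 * ℓ) * 4 ^ e := by ring
      _ ≤ ℓ ^ 2 * 4 ^ e := Nat.mul_le_mul_right _ this

theorem num_S (h : Big d ℓ e) : d ^ 2 ≤ ℓ ^ 2 * 4 ^ e * (d ^ 2 / (ℓ ^ 2 * 4 ^ e) + 1) ∧
    d ^ 2 / (ℓ ^ 2 * 4 ^ e) + 1 + 2 ≤ 2 ^ (2 * ℓ + 2) ∧ d ^ 2 + 1 ≤ 2 ^ (2 * ℓ + 2) := by
  obtain ⟨hℓ, hE, hD, hd, _⟩ := num1b_facts h
  have h2 := h.h2
  have hsq : d ^ 2 + 1 ≤ 2 ^ (2 * ℓ + 2) := by
    have h3 : d ^ 2 < (2 ^ (ℓ + 1)) ^ 2 := Nat.pow_lt_pow_left h2 (by norm_num)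
    have h4 : (2 ^ (ℓ + 1)) ^ 2 = 2 ^ (2 * ℓ + 2) := by
      rw [← pow_mul]
      congr 1
      ring
    omega
  refine ⟨(Nat.lt_mul_div_succ _ (by omega)).le, ?_, hsq⟩
  have h5 : d ^ 2 / (ℓ ^ 2 * 4 ^ e) ≤ d ^ 2 / 2 := Nat.div_le_div_left (by omega) (by norm_num)
  have h6 : 4 ≤ d ^ 2 := by nlinarith
  omega

theorem num1b_core {x D : ℝ} {d L m : ℕ} (hx : 0 ≤ x) (hd : 0 < d) (hD : 8 ≤ D)
    (hL : (L : ℝ) = d * D ^ 3) (hxD : x ≤ d * D ^ 2) (hm : (m : ℝ) ≤ D) :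
    x ^ L / (L.factorial : ℝ) ≤ Real.exp (-(m : ℝ)) := by
  have hd' : (1 : ℝ) ≤ d := by exact_mod_cast hd
  have hLpos : (0 : ℝ) < L := by
    rw [hL]
    positivity
  have hL0 : 0 < L := by exact_mod_cast hLpos
  have h1 := pow_div_fact hx hL0
  have hexp : Real.exp 1 * x / L ≤ Real.exp (-1) := by
    rw [div_le_iff₀ hLpos, hL]
    have h2 : Real.exp 1 * Real.exp 1 ≤ 8 := by
      have := Real.exp_one_lt_d9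
      have h0 := Real.exp_pos 1
      nlinarith
    have h3 : Real.exp (-1) * Real.exp 1 = 1 := by
      rw [← Real.exp_add]
      simp
    have h4 : 0 < Real.exp (-1) := Real.exp_pos _
    have h5 : Real.exp 1 ≤ Real.exp (-1) * 8 := by
      calc Real.exp 1 = Real.exp (-1) * (Real.exp 1 * Real.exp 1) := by
            rw [← mul_assoc, h3, one_mul]
        _ ≤ Real.exp (-1) * 8 := mul_le_mul_of_nonneg_left h2 h4.le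
    calc Real.exp 1 * x ≤ Real.exp 1 * (d * D ^ 2) :=
          mul_le_mul_of_nonneg_left hxD (Real.exp_pos 1).le
      _ ≤ (Real.exp (-1) * 8) * (d * D ^ 2) := mul_le_mul_of_nonneg_right h5 (by positivity)
      _ ≤ (Real.exp (-1) * D) * (d * D ^ 2) := by
          apply mul_le_mul_of_nonneg_right _ (by positivity)
          exact mul_le_mul_of_nonneg_left hD h4.le
      _ = Real.exp (-1) * (d * D ^ 3) := by ring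
  have hmL : (m : ℝ) ≤ L := by
    rw [hL]
    have : D ≤ D ^ 3 := by nlinarith [sq_nonneg (D - 1), mul_nonneg (by linarith : (0 : ℝ) ≤ D - 1) (by linarith : (0 : ℝ) ≤ D + 1)]
    nlinarith
  calc x ^ L / (L.factorial : ℝ) ≤ (Real.exp 1 * x / L) ^ L := h1
    _ ≤ (Real.exp (-1)) ^ L := pow_le_pow_left₀ (by positivity) hexp L
    _ = Real.exp (-(L : ℝ)) := by
        rw [← Real.exp_nat_mul]
        congr 1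
        ring
    _ ≤ Real.exp (-(m : ℝ)) := Real.exp_le_exp.2 (by linarith)

theorem num_a2 (h : Big d ℓ e) :
    ((d : ℝ) ^ 3 / (d ^ 2 / (ℓ ^ 2 * 4 ^ e) + 1 : ℕ)) ^ (d * (ℓ ^ 2 * 4 ^ e) ^ 3) /
      ((d * (ℓ ^ 2 * 4 ^ e) ^ 3).factorial : ℝ) ≤ Real.exp (-(4 * (ℓ * 4 ^ e : ℕ) : ℝ)) := by
  obtain ⟨hℓ, hE, hD, hd, h4⟩ := num1b_facts h
  have hS := (num_S h).1
  set D := ℓ ^ 2 * 4 ^ e with hDdef
  set S := d ^ 2 / D + 1 with hSdef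
  have hS' : ((d : ℝ)) ^ 2 ≤ D * S := by exact_mod_cast hS
  have hSpos : (0 : ℝ) < S := by
    have : 0 < S := Nat.succ_pos _
    exact_mod_cast this
  have hD' : (8 : ℝ) ≤ D := by exact_mod_cast hD
  have hd0 : (0 : ℝ) ≤ d := by positivity
  have hm : (((4 * (ℓ * 4 ^ e) : ℕ)) : ℝ) = 4 * (ℓ * 4 ^ e : ℕ) := by push_cast; ring
  rw [← hm]
  apply num1b_core (D := (D : ℝ)) (d := d) (by positivity) (by omega) hD' (by push_cast; ring)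
  · have h1 : (d : ℝ) ^ 3 / S ≤ d * D := by
      rw [div_le_iff₀ hSpos]
      calc (d : ℝ) ^ 3 = (d : ℝ) * (d : ℝ) ^ 2 := by ring
        _ ≤ (d : ℝ) * ((D : ℝ) * (S : ℝ)) := mul_le_mul_of_nonneg_left hS' hd0
        _ = (d : ℝ) * (D : ℝ) * (S : ℝ) := by ring
    have h2 : (d : ℝ) * D ≤ d * D ^ 2 := by
      apply mul_le_mul_of_nonneg_left _ hd0
      nlinarith
    exact h1.trans h2
  · exact_mod_cast h4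

theorem num_a3 (h : Big d ℓ e) :
    ((d : ℝ) ^ 5 / ((d ^ 2 / (ℓ ^ 2 * 4 ^ e) + 1 : ℕ) : ℝ) ^ 2) ^ (d * (ℓ ^ 2 * 4 ^ e) ^ 3) /
      ((d * (ℓ ^ 2 * 4 ^ e) ^ 3).factorial : ℝ) ≤ Real.exp (-(4 * (ℓ * 4 ^ e : ℕ) : ℝ)) := by
  obtain ⟨hℓ, hE, hD, hd, h4⟩ := num1b_facts h
  have hS := (num_S h).1
  set D := ℓ ^ 2 * 4 ^ e with hDdef
  set S := d ^ 2 / D + 1 with hSdef
  have hS' : ((d : ℝ)) ^ 2 ≤ D * S := by exact_mod_cast hS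
  have hSpos : (0 : ℝ) < S := by
    have : 0 < S := Nat.succ_pos _
    exact_mod_cast this
  have hD' : (8 : ℝ) ≤ D := by exact_mod_cast hD
  have hd0 : (0 : ℝ) ≤ d := by positivity
  have hm : (((4 * (ℓ * 4 ^ e) : ℕ)) : ℝ) = 4 * (ℓ * 4 ^ e : ℕ) := by push_cast; ring
  rw [← hm]
  apply num1b_core (D := (D : ℝ)) (d := d) (by positivity) (by omega) hD' (by push_cast; ring)
  · rw [div_le_iff₀ (by positivity)]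
    calc (d : ℝ) ^ 5 = (d : ℝ) * ((d : ℝ) ^ 2) ^ 2 := by ring
      _ ≤ (d : ℝ) * ((D : ℝ) * (S : ℝ)) ^ 2 := by
          apply mul_le_mul_of_nonneg_left _ hd0
          exact pow_le_pow_left₀ (by positivity) hS' 2
      _ = (d : ℝ) * (D : ℝ) ^ 2 * (S : ℝ) ^ 2 := by ring
  · exact_mod_cast h4

theorem num_a5 (h : Big d ℓ e) : 4 * Real.exp (-(4 * (ℓ * 4 ^ e : ℕ) : ℝ)) *
    (((d ^ 2 / (ℓ ^ 2 * 4 ^ e) + 1 + 2) * (d ^ 2 + 1) ^ 4 : ℕ) : ℝ) ≤ 1 := by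
  obtain ⟨hℓ, hE, hD, hd, h4⟩ := num1b_facts h
  obtain ⟨_, h2, h3⟩ := num_S h
  have h5 : (d ^ 2 / (ℓ ^ 2 * 4 ^ e) + 1 + 2) * (d ^ 2 + 1) ^ 4 ≤ 2 ^ (10 * ℓ + 10) := by
    calc (d ^ 2 / (ℓ ^ 2 * 4 ^ e) + 1 + 2) * (d ^ 2 + 1) ^ 4
        ≤ 2 ^ (2 * ℓ + 2) * (2 ^ (2 * ℓ + 2)) ^ 4 := Nat.mul_le_mul h2 (Nat.pow_le_pow_left h3 4)
      _ = 2 ^ (10 * ℓ + 10) := by
          rw [← pow_mul, ← pow_add]
          congr 1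
          ring
  have h6 : ((((d ^ 2 / (ℓ ^ 2 * 4 ^ e) + 1 + 2) * (d ^ 2 + 1) ^ 4 : ℕ)) : ℝ) ≤ 2 ^ (10 * ℓ + 10) := by
    exact_mod_cast h5
  have h7 : (4 : ℝ) * 2 ^ (10 * ℓ + 10) ≤ Real.exp (4 * (ℓ * 4 ^ e : ℕ) : ℝ) := by
    have h8 : (2 : ℝ) ^ (10 * ℓ + 12) ≤ Real.exp ((10 * ℓ + 12 : ℕ) : ℝ) := by
      have h9 : Real.exp ((10 * ℓ + 12 : ℕ) : ℝ) = (Real.exp 1) ^ (10 * ℓ + 12) := by
        rw [← Real.exp_nat_mul, mul_one]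
      rw [h9]
      exact pow_le_pow_left₀ (by norm_num) (by linarith [Real.exp_one_gt_d9]) _
    have h10 : 10 * ℓ + 12 ≤ 4 * (ℓ * 4 ^ e) := by nlinarith
    have h11 : ((10 * ℓ + 12 : ℕ) : ℝ) ≤ 4 * (ℓ * 4 ^ e : ℕ) := by exact_mod_cast h10
    calc (4 : ℝ) * 2 ^ (10 * ℓ + 10) = 2 ^ (10 * ℓ + 12) := by
          rw [show 10 * ℓ + 12 = (10 * ℓ + 10) + 2 by ring, pow_add]
          ring
      _ ≤ _ := h8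
      _ ≤ _ := Real.exp_le_exp.2 h11
  calc 4 * Real.exp (-(4 * (ℓ * 4 ^ e : ℕ) : ℝ)) *
      (((d ^ 2 / (ℓ ^ 2 * 4 ^ e) + 1 + 2) * (d ^ 2 + 1) ^ 4 : ℕ) : ℝ)
      ≤ 4 * Real.exp (-(4 * (ℓ * 4 ^ e : ℕ) : ℝ)) * 2 ^ (10 * ℓ + 10) :=
        mul_le_mul_of_nonneg_left h6 (by positivity)
    _ = Real.exp (-(4 * (ℓ * 4 ^ e : ℕ) : ℝ)) * (4 * 2 ^ (10 * ℓ + 10)) := by ring
    _ ≤ Real.exp (-(4 * (ℓ * 4 ^ e : ℕ) : ℝ)) * Real.exp (4 * (ℓ * 4 ^ e : ℕ) : ℝ) :=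
        mul_le_mul_of_nonneg_left h7 (Real.exp_pos _).le
    _ = 1 := by
        rw [← Real.exp_add]
        simp

end Pool.Agent.H23.RS
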