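import Pool.Agent.H23.RS.Num1b

/-!
# RS-18 : numerical facts, part 2

`λ i = Nat.log 2 (ℓ / i) + 1`, palette sizes `pal ℓ e 0 = 36 ℓ E`, `pal ℓ e i = 3100 E λ i` for `i ≥ 1`.

* `num_q`: `t = e / λ i`. `ℓ / i < 2 ^ λ i` (`Nat.lt_pow_succ_log_self`), so `ℓ < i 2 ^ λ i`
  (`Nat.div_lt_iff_lt_mul`), `i / ℓ ≥ 2 ^ (-λ i)` and `(i / ℓ) ^ t ≥ 2 ^ (-λ i t) ≥ 2 ^ (-e)`.
  `λ i (t + 1) ≥ e + 1` (`Nat.lt_mul_div_succ`), so `36 ℓ E ≤ 36 * 40 (e + 1) E ≤ 1440 E λ i (t + 1)` and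
  `36 D / (t + 1) ≤ 1440 E λ i`; `36 D / ℓ = 36 E`; `1440 E λ + 36 E + 1550 E ≤ 3100 E λ`.
* `num_b1`: `2 ^ (2 ℓ + 2) * (6 ℓ ^ 2 E * (ℓ * exp (-24 E))) ≤ 2 ^ (-20 E)`: as `exp (-24 E) ≤ 2 ^ (-24 E)` and
  `2 ^ (2 ℓ + 2) * 6 ℓ ^ 3 E ≤ 2 ^ (4 E)` (`E = 2 ^ (2 e) ≥ ℓ ^ 2 * 2 ^ e`, so `2 ℓ + 2 + (3 + 3 ℓ + 2 e) ≤ 4 E`
  with `6 ≤ 2 ^ 3`, `ℓ ≤ 2 ^ ℓ`). The power `d`: `20 E d ≥ 40 ℓ ^ 3 E` as `d ≥ 2 ^ e ≥ 2 ℓ ^ 3`.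
* `num_b2`: `1 - ρ ≤ exp (-ρ)` (`Real.add_one_le_exp`), so the left-hand side is at most
  `2 ^ (6 ℓ ^ 2 E) * exp (-1550 * 2 ^ (-e) * E * ℓ * E)`; `2 ^ (-e) E = 2 ^ e`; `exp (-x) ≤ 2 ^ (-x)`;
  `1550 * 2 ^ e * ℓ E ≥ 6 ℓ ^ 2 E + 40 ℓ ^ 3 E` as `2 ^ e ≥ 100 ℓ ^ 2`.
* `num_b4`: exponents: `2 + (2 ℓ + 2) + (2 ℓ + 2) (12 ℓ ^ 2 E + 4) ≤ 40 ℓ ^ 3 E`.
-/

namespace Pool.Agent.H23.RS

open Finset

variable {d ℓ e : ℕ}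

/-- The palette sizes. -/
def pal (ℓ e : ℕ) (i : ℕ) : ℕ :=
  if i = 0 then 36 * (ℓ * 4 ^ e) else 3100 * 4 ^ e * (Nat.log 2 (ℓ / i) + 1)

theorem num2_l (h : Big d ℓ e) : 40 ≤ ℓ := by
  have := h.h3
  have := h.h6
  omega

/-- `2 ^ e` dominates the small powers of `ℓ`. -/
theorem num2_P (h : Big d ℓ e) (k : ℕ) (hk : k ≤ 10) : 100 * ℓ ^ k ≤ 2 ^ e := by
  have hl := num2_l h
  refine le_trans ?_ h.h5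
  exact Nat.mul_le_mul_left _ (Nat.pow_le_pow_right (by omega) hk)

theorem num2_E (e : ℕ) : (4 : ℕ) ^ e = 2 ^ e * 2 ^ e := by
  rw [← Nat.mul_pow]

theorem num2_exp (M : ℕ) : Real.exp (-(M : ℝ)) ≤ (1 / 2 : ℝ) ^ M := by
  have h1 : Real.exp (-1) ≤ 1 / 2 := by
    rw [Real.exp_neg, one_div]
    apply inv_anti₀ (by norm_num)
    have := Real.add_one_le_exp (1 : ℝ)
    linarith
  calc Real.exp (-(M : ℝ)) = Real.exp (-1) ^ M := by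
        rw [← Real.exp_nat_mul]
        congr 1
        ring
    _ ≤ (1 / 2 : ℝ) ^ M := pow_le_pow_left₀ (Real.exp_pos _).le h1 _

theorem num_q (h : Big d ℓ e) (i : ℕ) (hi : 1 ≤ i) (hiℓ : i < ℓ) :
    ∃ t : ℕ, (1 / 2 : ℝ) ^ e ≤ ((i : ℝ) / ℓ) ^ t ∧
      36 * (ℓ * 4 ^ e) / (t + 1) + 36 * (ℓ * 4 ^ e) / ℓ + 1550 * 4 ^ e ≤ pal ℓ e i := by
  have _ := hiℓ
  have hl := num2_l h
  obtain ⟨m, hm⟩ : ∃ m, m = Nat.log 2 (ℓ / i) + 1 := ⟨_, rfl⟩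
  have hm1 : 1 ≤ m := by omega
  have h1 : ℓ < i * 2 ^ m := by
    have h2 : ℓ / i < 2 ^ m := by
      rw [hm]
      exact Nat.lt_pow_succ_log_self (by norm_num) _
    rw [Nat.div_lt_iff_lt_mul (by omega)] at h2
    rwa [mul_comm]
  refine ⟨e / m, ?_, ?_⟩
  · have h2 : (1 / 2 : ℝ) ^ m ≤ (i : ℝ) / ℓ := by
      rw [le_div_iff₀ (by exact_mod_cast (by omega : 0 < ℓ)), one_div, inv_pow,
        inv_mul_le_iff₀ (by positivity)]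
      have h3 : (ℓ : ℝ) ≤ (i : ℝ) * 2 ^ m := by exact_mod_cast h1.le
      linarith
    calc (1 / 2 : ℝ) ^ e ≤ (1 / 2 : ℝ) ^ (m * (e / m)) :=
          pow_le_pow_of_le_one (by norm_num) (by norm_num) (Nat.mul_div_le e m)
      _ = ((1 / 2 : ℝ) ^ m) ^ (e / m) := pow_mul _ _ _
      _ ≤ ((i : ℝ) / ℓ) ^ (e / m) := pow_le_pow_left₀ (by positivity) h2 _
  · rw [pal, if_neg (by omega), ← hm]
    obtain ⟨E, hE⟩ : ∃ E, E = 4 ^ e := ⟨_, rfl⟩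
    rw [← hE]
    have h2 : e + 1 ≤ m * (e / m + 1) := Nat.lt_mul_div_succ e (by omega)
    have h3 : 36 * (ℓ * E) / (e / m + 1) ≤ 1440 * E * m := by
      apply Nat.div_le_of_le_mul
      calc 36 * (ℓ * E) ≤ 36 * ((40 * (e + 1)) * E) :=
            Nat.mul_le_mul_left _ (Nat.mul_le_mul_right _ h.h4)
        _ = 1440 * E * (e + 1) := by ring
        _ ≤ 1440 * E * (m * (e / m + 1)) := Nat.mul_le_mul_left _ h2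
        _ = (e / m + 1) * (1440 * E * m) := by ring
    have h4 : 36 * (ℓ * E) / ℓ ≤ 36 * E := by
      apply Nat.div_le_of_le_mul
      exact (by ring : 36 * (ℓ * E) = ℓ * (36 * E)).le
    have h5 : E ≤ E * m := Nat.le_mul_of_pos_right _ (by omega)
    nlinarith

theorem num_b1 (h : Big d ℓ e) :
    (((d ^ 2 / (ℓ ^ 2 * 4 ^ e) + 1 : ℕ) : ℝ) * ((6 * (ℓ ^ 2 * 4 ^ e) : ℕ) *
      (ℓ * Real.exp (-(24 * (ℓ * 4 ^ e : ℕ) / ℓ : ℝ))))) ^ d ≤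
      (1 / 2 : ℝ) ^ (40 * ℓ ^ 3 * 4 ^ e) := by
  have hl := num2_l h
  have hS := (num_S h).2.1
  obtain ⟨S, hSdef⟩ : ∃ S, S = d ^ 2 / (ℓ ^ 2 * 4 ^ e) + 1 := ⟨_, rfl⟩
  rw [← hSdef] at hS ⊢
  obtain ⟨E, hE⟩ : ∃ E, E = 4 ^ e := ⟨_, rfl⟩
  rw [← hE]
  have hE2 : E = 2 ^ (2 * e) := by
    rw [hE, pow_mul]
    norm_num
  have hℓE : 100 * ℓ ^ 10 ≤ E := by
    rw [hE, num2_E]
    exact h.h5.trans (Nat.le_mul_of_pos_right _ (by positivity))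
  have hbig : ℓ ≤ ℓ ^ 10 := Nat.le_self_pow (by norm_num) ℓ
  have hex : (24 * ((ℓ * E : ℕ) : ℝ) / ℓ : ℝ) = ((24 * E : ℕ) : ℝ) := by
    have : (ℓ : ℝ) ≠ 0 := by exact_mod_cast (by omega : ℓ ≠ 0)
    push_cast
    field_simp
  rw [hex]
  have hnat : S * (6 * (ℓ ^ 2 * E) * ℓ) ≤ 2 ^ (4 * E) := by
    have h1 : ℓ ≤ 2 ^ ℓ := Nat.lt_two_pow_self.le
    have h2 : ℓ ^ 3 ≤ 2 ^ (3 * ℓ) := by
      calc ℓ ^ 3 ≤ (2 ^ ℓ) ^ 3 := Nat.pow_le_pow_left h1 3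
        _ = 2 ^ (3 * ℓ) := by rw [← pow_mul, mul_comm]
    calc S * (6 * (ℓ ^ 2 * E) * ℓ) ≤ 2 ^ (2 * ℓ + 2) * (6 * (ℓ ^ 2 * E) * ℓ) :=
          Nat.mul_le_mul_right _ (by omega)
      _ = 2 ^ (2 * ℓ + 2) * (6 * (ℓ ^ 3 * E)) := by ring
      _ ≤ 2 ^ (2 * ℓ + 2) * (2 ^ 3 * (2 ^ (3 * ℓ) * 2 ^ (2 * e))) := by
          apply Nat.mul_le_mul_left
          apply Nat.mul_le_mul (by norm_num)
          exact Nat.mul_le_mul h2 hE2.le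
      _ = 2 ^ (2 * ℓ + 2 + (3 + (3 * ℓ + 2 * e))) := by
          rw [← pow_add, ← pow_add, ← pow_add]
      _ ≤ 2 ^ (4 * E) := by
          apply Nat.pow_le_pow_right (by norm_num)
          have := h.h3
          omega
  have hbase : (S : ℝ) * ((6 * (ℓ ^ 2 * E) : ℕ) * (ℓ * Real.exp (-((24 * E : ℕ) : ℝ)))) ≤
      (1 / 2 : ℝ) ^ (20 * E) := by
    have h1 := num2_exp (24 * E)
    have h2 : ((S * (6 * (ℓ ^ 2 * E) * ℓ) : ℕ) : ℝ) ≤ (2 : ℝ) ^ (4 * E) := by exact_mod_cast hnat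
    calc (S : ℝ) * ((6 * (ℓ ^ 2 * E) : ℕ) * (ℓ * Real.exp (-((24 * E : ℕ) : ℝ))))
        = ((S * (6 * (ℓ ^ 2 * E) * ℓ) : ℕ) : ℝ) * Real.exp (-((24 * E : ℕ) : ℝ)) := by
          push_cast; ring
      _ ≤ (2 : ℝ) ^ (4 * E) * (1 / 2 : ℝ) ^ (24 * E) :=
          mul_le_mul h2 h1 (Real.exp_pos _).le (by positivity)
      _ = (1 / 2 : ℝ) ^ (20 * E) := by
          have : 24 * E = 4 * E + 20 * E := by ring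
          rw [this, pow_add, ← mul_assoc, ← mul_pow]
          norm_num
  calc ((S : ℝ) * ((6 * (ℓ ^ 2 * E) : ℕ) * (ℓ * Real.exp (-((24 * E : ℕ) : ℝ))))) ^ d
      ≤ ((1 / 2 : ℝ) ^ (20 * E)) ^ d := pow_le_pow_left₀ (by positivity) hbase d
    _ = (1 / 2 : ℝ) ^ (20 * E * d) := (pow_mul _ _ _).symm
    _ ≤ (1 / 2 : ℝ) ^ (40 * ℓ ^ 3 * E) := by
        apply pow_le_pow_of_le_one (by norm_num) (by norm_num)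
        have h1 : 100 * ℓ ^ 3 ≤ 2 ^ e := num2_P h 3 (by norm_num)
        have h2 : 2 ^ e ≤ d := (Nat.pow_le_pow_right (by norm_num) (by have := h.h3; omega)).trans h.h1
        have h3 : 2 * ℓ ^ 3 ≤ d := by omega
        calc 40 * ℓ ^ 3 * E = 20 * E * (2 * ℓ ^ 3) := by ring
          _ ≤ 20 * E * d := Nat.mul_le_mul_left _ h3

theorem num_b2 (h : Big d ℓ e) :
    2 ^ (6 * (ℓ ^ 2 * 4 ^ e)) * ((1 - (1 / 2 : ℝ) ^ e) ^ (1550 * 4 ^ e)) ^ (ℓ * 4 ^ e) ≤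
      (1 / 2 : ℝ) ^ (40 * ℓ ^ 3 * 4 ^ e) := by
  have hl := num2_l h
  obtain ⟨ρ, hρ⟩ : ∃ ρ : ℝ, ρ = (1 / 2 : ℝ) ^ e := ⟨_, rfl⟩
  have hρ1 : ρ ≤ 1 := by
    rw [hρ]
    exact pow_le_one₀ (by norm_num) (by norm_num)
  have hρE : ρ * (4 ^ e : ℝ) = 2 ^ e := by
    rw [hρ, ← mul_pow]
    norm_num
  rw [← hρ]
  have h1 : 1 - ρ ≤ Real.exp (-ρ) := by
    have := Real.add_one_le_exp (-ρ)
    linarith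
  have h2 : ((1 - ρ) ^ (1550 * 4 ^ e)) ^ (ℓ * 4 ^ e) ≤
      Real.exp (-((1550 * 2 ^ e * (ℓ * 4 ^ e) : ℕ) : ℝ)) := by
    rw [← pow_mul]
    calc (1 - ρ) ^ (1550 * 4 ^ e * (ℓ * 4 ^ e)) ≤ Real.exp (-ρ) ^ (1550 * 4 ^ e * (ℓ * 4 ^ e)) :=
          pow_le_pow_left₀ (by linarith) h1 _
      _ = Real.exp (-((1550 * 2 ^ e * (ℓ * 4 ^ e) : ℕ) : ℝ)) := by
          rw [← Real.exp_nat_mul]
          congr 1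
          push_cast
          rw [← hρE]
          ring
  have h3 : (2 : ℝ) ^ (6 * (ℓ ^ 2 * 4 ^ e)) * (1 / 2 : ℝ) ^ (6 * (ℓ ^ 2 * 4 ^ e)) = 1 := by
    rw [← mul_pow]
    norm_num
  calc 2 ^ (6 * (ℓ ^ 2 * 4 ^ e)) * ((1 - ρ) ^ (1550 * 4 ^ e)) ^ (ℓ * 4 ^ e)
      ≤ 2 ^ (6 * (ℓ ^ 2 * 4 ^ e)) * (1 / 2 : ℝ) ^ (1550 * 2 ^ e * (ℓ * 4 ^ e)) :=
        mul_le_mul_of_nonneg_left (h2.trans (num2_exp _)) (by positivity)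
    _ ≤ 2 ^ (6 * (ℓ ^ 2 * 4 ^ e)) * (1 / 2 : ℝ) ^ (6 * (ℓ ^ 2 * 4 ^ e) + 40 * ℓ ^ 3 * 4 ^ e) := by
        apply mul_le_mul_of_nonneg_left _ (by positivity)
        apply pow_le_pow_of_le_one (by norm_num) (by norm_num)
        have h4 := num2_P h 2 (by norm_num)
        calc 6 * (ℓ ^ 2 * 4 ^ e) + 40 * ℓ ^ 3 * 4 ^ e ≤ 6 * (ℓ ^ 3 * 4 ^ e) + 40 * ℓ ^ 3 * 4 ^ e := by
              apply Nat.add_le_add_right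
              apply Nat.mul_le_mul_left
              apply Nat.mul_le_mul_right
              exact Nat.pow_le_pow_right (by omega) (by norm_num)
          _ = 46 * ℓ ^ 2 * (ℓ * 4 ^ e) := by ring
          _ ≤ 1550 * 2 ^ e * (ℓ * 4 ^ e) := by
              apply Nat.mul_le_mul_right
              omega
    _ = (1 / 2 : ℝ) ^ (40 * ℓ ^ 3 * 4 ^ e) := by
        rw [pow_add, ← mul_assoc, h3, one_mul]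

theorem num_b4 (h : Big d ℓ e) : 4 * (1 / 2 : ℝ) ^ (40 * ℓ ^ 3 * 4 ^ e) *
    (((d ^ 2 / (ℓ ^ 2 * 4 ^ e) + 1 + 1) * (d ^ 2 + 1) ^ (2 * (6 * (ℓ ^ 2 * 4 ^ e) + 2)) : ℕ) : ℝ)
      ≤ 1 := by
  have hl := num2_l h
  obtain ⟨-, hS, hd⟩ := num_S h
  have hnat : (d ^ 2 / (ℓ ^ 2 * 4 ^ e) + 1 + 1) * (d ^ 2 + 1) ^ (2 * (6 * (ℓ ^ 2 * 4 ^ e) + 2)) ≤
      2 ^ ((2 * ℓ + 2) + (2 * ℓ + 2) * (2 * (6 * (ℓ ^ 2 * 4 ^ e) + 2))) := by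
    rw [pow_add, pow_mul 2 (2 * ℓ + 2)]
    exact Nat.mul_le_mul (by omega) (Nat.pow_le_pow_left hd _)
  have hE : 1 ≤ 4 ^ e := Nat.one_le_pow _ _ (by norm_num)
  have hexp : 2 + ((2 * ℓ + 2) + (2 * ℓ + 2) * (2 * (6 * (ℓ ^ 2 * 4 ^ e) + 2))) ≤
      40 * ℓ ^ 3 * 4 ^ e := by
    have e1 : ℓ ^ 3 * 4 ^ e = ℓ * (ℓ ^ 2 * 4 ^ e) := by ring
    have e2 : ℓ ≤ ℓ ^ 2 * 4 ^ e := by
      calc ℓ ≤ ℓ ^ 2 := Nat.le_self_pow (by norm_num) ℓ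
        _ ≤ ℓ ^ 2 * 4 ^ e := Nat.le_mul_of_pos_right _ hE
    obtain ⟨X, hX⟩ : ∃ X, X = ℓ ^ 2 * 4 ^ e := ⟨_, rfl⟩
    rw [mul_assoc 40, e1, ← hX]
    rw [← hX] at e2
    have e3 : 40 * X ≤ ℓ * X := Nat.mul_le_mul_right _ hl
    nlinarith
  calc 4 * (1 / 2 : ℝ) ^ (40 * ℓ ^ 3 * 4 ^ e) *
      (((d ^ 2 / (ℓ ^ 2 * 4 ^ e) + 1 + 1) * (d ^ 2 + 1) ^ (2 * (6 * (ℓ ^ 2 * 4 ^ e) + 2)) : ℕ) : ℝ)
      ≤ 4 * (1 / 2 : ℝ) ^ (40 * ℓ ^ 3 * 4 ^ e) *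
        2 ^ ((2 * ℓ + 2) + (2 * ℓ + 2) * (2 * (6 * (ℓ ^ 2 * 4 ^ e) + 2))) := by
        apply mul_le_mul_of_nonneg_left _ (by positivity)
        exact_mod_cast hnat
    _ = (1 / 2 : ℝ) ^ (40 * ℓ ^ 3 * 4 ^ e) *
        2 ^ (2 + ((2 * ℓ + 2) + (2 * ℓ + 2) * (2 * (6 * (ℓ ^ 2 * 4 ^ e) + 2)))) := by
        rw [pow_add 2 2]
        ring
    _ ≤ (1 / 2 : ℝ) ^ (40 * ℓ ^ 3 * 4 ^ e) * 2 ^ (40 * ℓ ^ 3 * 4 ^ e) := by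
        apply mul_le_mul_of_nonneg_left _ (by positivity)
        exact pow_le_pow_right₀ (by norm_num) hexp
    _ = 1 := by
        rw [← mul_pow]
        norm_num

end Pool.Agent.H23.RS
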