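import Mathlib

/-!
# RS-1a : uniform probability on functions

`Pr A` is the proportion of the functions `x : V → Ω` with the property `A`.

Key identity (`sum_piecewise`): the map `(x, y) ↦ (M.piecewise y x, M.piecewise x y)` is an
involution of `(V → Ω) × (V → Ω)`, so `∑ x, ∑ y, F (M.piecewise y x) = N * ∑ x, F x` with
`N = card (V → Ω)`.

`Pr_cond`: `N² Pr (A ∧ B) = ∑ x, ∑ y, 1[A (M.piecewise y x)] 1[B (M.piecewise y x)]`, and
`A (M.piecewise y x) ↔ A x` as `M.piecewise y x` agrees with `x` on `Mᶜ`. So this is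
`∑ x, 1[A x] ∑ y, 1[B (M.piecewise y x)] ≤ ∑ x, 1[A x] p N = p N² Pr A`.
`Pr_indep`: the same with `M = T`; `B (M.piecewise y x) ↔ B y`, `A (M.piecewise y x) ↔ A x`.
-/

namespace Pool.Agent.H23.RS

open Finset Classical

variable {V Ω : Type} [Fintype V] [Fintype Ω]

/-- The proportion of the functions `x : V → Ω` with the property `A`. -/
noncomputable def Pr (A : (V → Ω) → Prop) : ℝ :=
  ((univ.filter A).card : ℝ) / (Fintype.card (V → Ω) : ℝ)

/-- The property `A` depends only on the values on `S`. -/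
def DepOn (S : Finset V) (A : (V → Ω) → Prop) : Prop :=
  ∀ x y : V → Ω, (∀ v ∈ S, x v = y v) → A x → A y

theorem DepOn.mono {S T : Finset V} {A : (V → Ω) → Prop} (h : DepOn S A) (hST : S ⊆ T) :
    DepOn T A := fun x y hxy hA => h x y (fun v hv => hxy v (hST hv)) hA

theorem DepOn.and {S : Finset V} {A B : (V → Ω) → Prop} (hA : DepOn S A) (hB : DepOn S B) :
    DepOn S (fun x => A x ∧ B x) := fun x y hxy h => ⟨hA x y hxy h.1, hB x y hxy h.2⟩

theorem DepOn.not {S : Finset V} {A : (V → Ω) → Prop} (hA : DepOn S A) :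
    DepOn S (fun x => ¬ A x) := fun x y hxy h h' => h (hA y x (fun v hv => (hxy v hv).symm) h')

theorem DepOn.all {ι : Type} {S : Finset V} {A : ι → (V → Ω) → Prop} {s : Finset ι}
    (hA : ∀ i ∈ s, DepOn S (A i)) : DepOn S (fun x => ∀ i ∈ s, A i x) :=
  fun x y hxy h i hi => hA i hi x y hxy (h i hi)

namespace PrAux

/-- indicator -/
noncomputable def I (A : (V → Ω) → Prop) (x : V → Ω) : ℝ := if A x then 1 else 0

omit [Fintype V] [Fintype Ω] in
theorem I_nonneg (A : (V → Ω) → Prop) (x : V → Ω) : 0 ≤ I A x := by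
  unfold I
  split_ifs <;> norm_num

omit [Fintype V] [Fintype Ω] in
theorem I_pos {A : (V → Ω) → Prop} {x : V → Ω} (h : A x) : I A x = 1 := if_pos h

omit [Fintype V] [Fintype Ω] in
theorem I_neg {A : (V → Ω) → Prop} {x : V → Ω} (h : ¬ A x) : I A x = 0 := if_neg h

theorem Pr_eq (A : (V → Ω) → Prop) : Pr A = (∑ x, I A x) / (Fintype.card (V → Ω) : ℝ) := by
  unfold Pr I
  rw [Finset.sum_boole]

theorem sum_I [Nonempty Ω] (A : (V → Ω) → Prop) : ∑ x, I A x = (Fintype.card (V → Ω) : ℝ) * Pr A := by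
  rw [Pr_eq, mul_div_cancel₀]
  exact_mod_cast Fintype.card_ne_zero

end PrAux

open PrAux

theorem Pr_nonneg (A : (V → Ω) → Prop) : 0 ≤ Pr A := by
  rw [Pr_eq]
  exact div_nonneg (Finset.sum_nonneg fun x _ => I_nonneg A x) (Nat.cast_nonneg _)

theorem Pr_mono {A B : (V → Ω) → Prop} (h : ∀ x, A x → B x) : Pr A ≤ Pr B := by
  rw [Pr_eq, Pr_eq]
  refine div_le_div_of_nonneg_right (Finset.sum_le_sum fun x _ => ?_) (Nat.cast_nonneg _)
  by_cases hA : A x
  · rw [I_pos hA, I_pos (h x hA)]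
  · rw [I_neg hA]
    exact I_nonneg B x

theorem Pr_exists_le {ι : Type} (s : Finset ι) (A : ι → (V → Ω) → Prop) :
    Pr (fun x => ∃ i ∈ s, A i x) ≤ ∑ i ∈ s, Pr (A i) := by
  simp only [Pr_eq]
  rw [← Finset.sum_div, Finset.sum_comm]
  refine div_le_div_of_nonneg_right (Finset.sum_le_sum fun x _ => ?_) (Nat.cast_nonneg _)
  by_cases hA : ∃ i ∈ s, A i x
  · rw [I_pos (A := fun x => ∃ i ∈ s, A i x) hA]
    obtain ⟨i, hi, h⟩ := hA
    refine le_trans ?_ (Finset.single_le_sum (f := fun i => I (A i) x) (fun i _ => I_nonneg (A i) x) hi)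
    rw [I_pos h]
  · rw [I_neg (A := fun x => ∃ i ∈ s, A i x) hA]
    exact Finset.sum_nonneg fun i _ => I_nonneg (A i) x

theorem Pr_or_le (A B : (V → Ω) → Prop) : Pr (fun x => A x ∨ B x) ≤ Pr A + Pr B := by
  rw [Pr_eq, Pr_eq, Pr_eq, ← add_div, ← Finset.sum_add_distrib]
  refine div_le_div_of_nonneg_right (Finset.sum_le_sum fun x _ => ?_) (Nat.cast_nonneg _)
  have h1 := I_nonneg A x
  have h2 := I_nonneg B x
  by_cases hA : A x
  · rw [I_pos (A := fun x => A x ∨ B x) (Or.inl hA), I_pos hA]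
    linarith
  · by_cases hB : B x
    · rw [I_pos (A := fun x => A x ∨ B x) (Or.inr hB), I_pos hB]
      linarith
    · rw [I_neg (A := fun x => A x ∨ B x) (fun h => h.elim hA hB)]
      linarith

/-- The number of `x` with `A` splits according to `B`. -/
theorem Pr_split (A B : (V → Ω) → Prop) :
    Pr A = Pr (fun x => A x ∧ B x) + Pr (fun x => A x ∧ ¬ B x) := by
  rw [Pr_eq, Pr_eq, Pr_eq, ← add_div, ← Finset.sum_add_distrib]
  congr 1
  refine Finset.sum_congr rfl fun x _ => ?_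
  by_cases hA : A x
  · by_cases hB : B x
    · rw [I_pos hA, I_pos (A := fun x => A x ∧ B x) ⟨hA, hB⟩,
        I_neg (A := fun x => A x ∧ ¬ B x) (fun h => h.2 hB), add_zero]
    · rw [I_pos hA, I_neg (A := fun x => A x ∧ B x) (fun h => hB h.2),
        I_pos (A := fun x => A x ∧ ¬ B x) ⟨hA, hB⟩, zero_add]
  · rw [I_neg hA, I_neg (A := fun x => A x ∧ B x) (fun h => hA h.1),
      I_neg (A := fun x => A x ∧ ¬ B x) (fun h => hA h.1), add_zero]

theorem Pr_false : Pr (fun _ : V → Ω => False) = 0 := by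
  rw [Pr_eq, Finset.sum_eq_zero fun x _ => I_neg (A := fun _ : V → Ω => False) (x := x) not_false,
    zero_div]

variable [Nonempty Ω]

theorem Pr_true : Pr (fun _ : V → Ω => True) = 1 := by
  have h : (Fintype.card (V → Ω) : ℝ) ≠ 0 := by exact_mod_cast Fintype.card_ne_zero
  rw [Pr_eq, Finset.sum_congr rfl fun x _ => I_pos (A := fun _ : V → Ω => True) (x := x) trivial,
    Finset.sum_const, Finset.card_univ, nsmul_eq_mul, mul_one, div_self h]

/-- If the probability is positive, some `x` has the property. -/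
theorem exists_of_Pr {A : (V → Ω) → Prop} (h : 0 < Pr A) : ∃ x, A x := by
  by_contra hne
  push Not at hne
  have h0 : Pr A = 0 := by
    rw [Pr_eq, Finset.sum_eq_zero fun x _ => I_neg (hne x), zero_div]
  linarith

theorem sum_piecewise (M : Finset V) (F : (V → Ω) → ℝ) :
    ∑ x : V → Ω, ∑ y : V → Ω, F (M.piecewise y x) =
      (Fintype.card (V → Ω) : ℝ) * ∑ x, F x := by
  have hinv : Function.Involutive (fun p : (V → Ω) × (V → Ω) =>
      (M.piecewise p.2 p.1, M.piecewise p.1 p.2)) := by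
    rintro ⟨x, y⟩
    ext i <;> by_cases hi : i ∈ M <;> simp [hi]
  have h1 : ∑ x : V → Ω, ∑ y : V → Ω, F (M.piecewise y x) =
      ∑ p : (V → Ω) × (V → Ω), F (M.piecewise p.2 p.1) :=
    (Fintype.sum_prod_type (fun p : (V → Ω) × (V → Ω) => F (M.piecewise p.2 p.1))).symm
  have h2 : ∑ p : (V → Ω) × (V → Ω), F (M.piecewise p.2 p.1) = ∑ p : (V → Ω) × (V → Ω), F p.1 :=
    Equiv.sum_comp hinv.toPerm (fun p : (V → Ω) × (V → Ω) => F p.1)
  rw [h1, h2, Fintype.sum_prod_type, Finset.mul_sum]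
  refine Finset.sum_congr rfl fun x _ => ?_
  show ∑ _y : V → Ω, F x = _
  rw [Finset.sum_const, Finset.card_univ, nsmul_eq_mul]

/-- Conditioning: if `A` does not depend on the coordinates in `M`, and for all values of
the other coordinates the conditional probability of `B` is at most `p`, then
`Pr (A ∧ B) ≤ p * Pr A`. -/
theorem Pr_cond (M : Finset V) {A B : (V → Ω) → Prop} (hA : DepOn Mᶜ A) {p : ℝ}
    (hB : ∀ x : V → Ω, A x → Pr (fun y => B (M.piecewise y x)) ≤ p) :
    Pr (fun x => A x ∧ B x) ≤ p * Pr A := by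
  have hN : (0 : ℝ) < (Fintype.card (V → Ω) : ℝ) := by exact_mod_cast Fintype.card_pos
  have h1 := sum_piecewise M (I (fun x : V → Ω => A x ∧ B x))
  rw [sum_I] at h1
  have hAp : ∀ x y : V → Ω, A (M.piecewise y x) ↔ A x := by
    intro x y
    constructor
    · refine hA _ _ fun v hv => ?_
      rw [Finset.piecewise_eq_of_notMem _ _ _ (Finset.mem_compl.1 hv)]
    · refine hA _ _ fun v hv => ?_
      rw [Finset.piecewise_eq_of_notMem _ _ _ (Finset.mem_compl.1 hv)]
  have h2 : ∀ x : V → Ω, ∑ y : V → Ω, I (fun x : V → Ω => A x ∧ B x) (M.piecewise y x) ≤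
      I A x * ((Fintype.card (V → Ω) : ℝ) * p) := by
    intro x
    by_cases hx : A x
    · have h3 : ∑ y : V → Ω, I (fun x : V → Ω => A x ∧ B x) (M.piecewise y x) =
          ∑ y : V → Ω, I (fun y => B (M.piecewise y x)) y := by
        refine Finset.sum_congr rfl fun y _ => ?_
        have hxy := (hAp x y).2 hx
        by_cases hy : B (M.piecewise y x)
        · rw [I_pos (A := fun x : V → Ω => A x ∧ B x) ⟨hxy, hy⟩,
            I_pos (A := fun y => B (M.piecewise y x)) hy]
        · rw [I_neg (A := fun x : V → Ω => A x ∧ B x) (fun h => hy h.2),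
            I_neg (A := fun y => B (M.piecewise y x)) hy]
      rw [h3, sum_I, I_pos hx, one_mul]
      exact mul_le_mul_of_nonneg_left (hB x hx) hN.le
    · rw [I_neg hx, zero_mul]
      refine (Finset.sum_eq_zero fun y _ => ?_).le
      exact I_neg (A := fun x : V → Ω => A x ∧ B x) fun h => hx ((hAp x y).1 h.1)
  have h4 : ∑ x : V → Ω, ∑ y : V → Ω, I (fun x : V → Ω => A x ∧ B x) (M.piecewise y x) ≤
      ∑ x, I A x * ((Fintype.card (V → Ω) : ℝ) * p) := Finset.sum_le_sum fun x _ => h2 x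
  rw [h1, ← Finset.sum_mul, sum_I] at h4
  have h5 : ((Fintype.card (V → Ω) : ℝ) * (Fintype.card (V → Ω) : ℝ)) * Pr (fun x => A x ∧ B x) ≤
      ((Fintype.card (V → Ω) : ℝ) * (Fintype.card (V → Ω) : ℝ)) * (p * Pr A) := by
    calc _ = (Fintype.card (V → Ω) : ℝ) * ((Fintype.card (V → Ω) : ℝ) * Pr (fun x => A x ∧ B x)) := by ring
      _ ≤ (Fintype.card (V → Ω) : ℝ) * Pr A * ((Fintype.card (V → Ω) : ℝ) * p) := h4
      _ = _ := by ring
  exact le_of_mul_le_mul_left h5 (mul_pos hN hN)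

theorem Pr_indep {S T : Finset V} {A B : (V → Ω) → Prop} (hA : DepOn S A) (hB : DepOn T B)
    (hST : Disjoint S T) : Pr (fun x => A x ∧ B x) = Pr A * Pr B := by
  have hN : (Fintype.card (V → Ω) : ℝ) ≠ 0 := by exact_mod_cast Fintype.card_ne_zero
  have h1 := sum_piecewise T (I (fun x : V → Ω => A x ∧ B x))
  rw [sum_I] at h1
  have hAp : ∀ x y : V → Ω, A (T.piecewise y x) ↔ A x := by
    intro x y
    constructor
    · refine hA _ _ fun v hv => ?_
      rw [Finset.piecewise_eq_of_notMem _ _ _ (Finset.disjoint_left.1 hST hv)]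
    · refine hA _ _ fun v hv => ?_
      rw [Finset.piecewise_eq_of_notMem _ _ _ (Finset.disjoint_left.1 hST hv)]
  have hBp : ∀ x y : V → Ω, B (T.piecewise y x) ↔ B y := by
    intro x y
    constructor
    · refine hB _ _ fun v hv => ?_
      rw [Finset.piecewise_eq_of_mem _ _ _ hv]
    · refine hB _ _ fun v hv => ?_
      rw [Finset.piecewise_eq_of_mem _ _ _ hv]
  have h2 : ∀ x y : V → Ω, I (fun x : V → Ω => A x ∧ B x) (T.piecewise y x) = I A x * I B y := by
    intro x y
    by_cases hx : A x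
    · by_cases hy : B y
      · rw [I_pos (A := fun x : V → Ω => A x ∧ B x) ⟨(hAp x y).2 hx, (hBp x y).2 hy⟩, I_pos hx,
          I_pos hy, one_mul]
      · rw [I_neg (A := fun x : V → Ω => A x ∧ B x) (fun h => hy ((hBp x y).1 h.2)), I_neg hy,
          mul_zero]
    · rw [I_neg (A := fun x : V → Ω => A x ∧ B x) (fun h => hx ((hAp x y).1 h.1)), I_neg hx,
        zero_mul]
  simp only [h2] at h1
  rw [← Finset.sum_mul_sum, sum_I, sum_I] at h1
  have h5 : ((Fintype.card (V → Ω) : ℝ) * (Fintype.card (V → Ω) : ℝ)) * Pr (fun x => A x ∧ B x) =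
      ((Fintype.card (V → Ω) : ℝ) * (Fintype.card (V → Ω) : ℝ)) * (Pr A * Pr B) := by
    calc _ = (Fintype.card (V → Ω) : ℝ) * ((Fintype.card (V → Ω) : ℝ) * Pr (fun x => A x ∧ B x)) := by ring
      _ = (Fintype.card (V → Ω) : ℝ) * Pr A * ((Fintype.card (V → Ω) : ℝ) * Pr B) := h1.symm
      _ = _ := by ring
  exact mul_left_cancel₀ (mul_ne_zero hN hN) h5

end Pool.Agent.H23.RS
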