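import Pool.Agent.H23.RS.Pr

/-!
# RS-1b : products and expectations

`Pr_indep_prod`: induction over `s` with `Pr_indep` (the events with index in `s` depend on
the union of the sets `S i`).
`Pr_coord`: by the product formula for the number of functions (`Fintype.card_piFinset`), or by
`Pr_indep_prod` and the case of one coordinate.
`markov`: clear. `Ex_prod`: `Finset.prod_univ_sum` (write the product over `s` as a product over all
`v` with the factor `1` outside `s`).
-/

namespace Pool.Agent.H23.RS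

open Finset Classical

variable {V Ω : Type} [Fintype V] [Fintype Ω]

/-- The mean value of `f` over all functions `x : V → Ω`. -/
noncomputable def Ex (f : (V → Ω) → ℝ) : ℝ := (∑ x, f x) / (Fintype.card (V → Ω) : ℝ)

variable [Nonempty Ω]

theorem Pr_indep_prod {ι : Type} (s : Finset ι) (S : ι → Finset V) (A : ι → (V → Ω) → Prop)
    (hdep : ∀ i ∈ s, DepOn (S i) (A i))
    (hdisj : ∀ i ∈ s, ∀ j ∈ s, i ≠ j → Disjoint (S i) (S j)) :
    Pr (fun x => ∀ i ∈ s, A i x) = ∏ i ∈ s, Pr (A i) := by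
  induction s using Finset.induction_on with
  | empty =>
    have h : (fun x : V → Ω => ∀ i ∈ (∅ : Finset ι), A i x) = fun _ => True := by
      funext x; simp
    rw [h, Pr_true, Finset.prod_empty]
  | insert a s ha ih =>
    have h : (fun x : V → Ω => ∀ i ∈ insert a s, A i x) = fun x => A a x ∧ ∀ i ∈ s, A i x := by
      funext x
      simp
    rw [h, Finset.prod_insert ha]
    have hd : DepOn (s.biUnion S) (fun x : V → Ω => ∀ i ∈ s, A i x) :=
      DepOn.all fun i hi => (hdep i (Finset.mem_insert_of_mem hi)).mono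
        (Finset.subset_biUnion_of_mem S hi)
    have hdj : Disjoint (S a) (s.biUnion S) := by
      rw [Finset.disjoint_biUnion_right]
      intro i hi
      exact hdisj a (Finset.mem_insert_self _ _) i (Finset.mem_insert_of_mem hi)
        (fun h => ha (h ▸ hi))
    rw [Pr_indep (hdep a (Finset.mem_insert_self _ _)) hd hdj,
      ih (fun i hi => hdep i (Finset.mem_insert_of_mem hi))
        (fun i hi j hj => hdisj i (Finset.mem_insert_of_mem hi) j (Finset.mem_insert_of_mem hj))]

theorem Ex_prod (s : Finset V) (g : V → Ω → ℝ) :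
    Ex (fun x : V → Ω => ∏ v ∈ s, g v (x v)) =
      ∏ v ∈ s, ((∑ a, g v a) / (Fintype.card Ω : ℝ)) := by
  have hc : (Fintype.card Ω : ℝ) ≠ 0 := by
    have := Fintype.card_pos (α := Ω)
    positivity
  have h1 : ∀ x : V → Ω, ∏ v ∈ s, g v (x v) = ∏ v, (if v ∈ s then g v (x v) else 1) := by
    intro x
    rw [Finset.prod_ite_mem]
    simp
  have h2 : ∑ x : V → Ω, ∏ v, (if v ∈ s then g v (x v) else 1) =
      ∏ v, ∑ a : Ω, (if v ∈ s then g v a else 1) := by
    have h3 := Finset.prod_univ_sum (fun _ : V => (univ : Finset Ω))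
      (fun v a => if v ∈ s then g v a else (1 : ℝ))
    rw [Fintype.piFinset_univ] at h3
    exact h3.symm
  have h4 : (Fintype.card (V → Ω) : ℝ) = ∏ _v : V, (Fintype.card Ω : ℝ) := by
    rw [Finset.prod_const, Fintype.card_fun, Finset.card_univ]
    push_cast
    rfl
  rw [Ex]
  simp only [h1]
  rw [h2, h4, ← Finset.prod_div_distrib]
  have h5 : ∀ v : V, (∑ a : Ω, (if v ∈ s then g v a else 1)) / (Fintype.card Ω : ℝ) =
      if v ∈ s then (∑ a, g v a) / (Fintype.card Ω : ℝ) else 1 := by
    intro v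
    by_cases h : v ∈ s
    · simp [h]
    · simp [h, hc]
  simp only [h5]
  rw [Finset.prod_ite_mem]
  simp

omit [Nonempty Ω] in
theorem Pr_eq_Ex (A : (V → Ω) → Prop) (f : (V → Ω) → ℝ) (h1 : ∀ x, A x → f x = 1)
    (h0 : ∀ x, ¬ A x → f x = 0) : Pr A = Ex f := by
  rw [Pr, Ex, ← Finset.sum_boole]
  congr 1
  refine Finset.sum_congr rfl fun x _ => ?_
  by_cases h : A x
  · rw [if_pos h, h1 x h]
  · rw [if_neg h, h0 x h]

theorem Pr_coord (S : Finset V) (B : V → Ω → Prop) :
    Pr (fun x => ∀ v ∈ S, B v (x v)) =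
      ∏ v ∈ S, (((univ.filter (B v)).card : ℝ) / (Fintype.card Ω : ℝ)) := by
  rw [Pr_eq_Ex (fun x : V → Ω => ∀ v ∈ S, B v (x v))
    (fun x => ∏ v ∈ S, (if B v (x v) then (1 : ℝ) else 0)),
    Ex_prod S fun v a => if B v a then (1 : ℝ) else 0]
  · refine Finset.prod_congr rfl fun v _ => ?_
    rw [Finset.sum_boole]
  · intro x hx
    exact Finset.prod_eq_one fun v hv => if_pos (hx v hv)
  · intro x hx
    push Not at hx
    obtain ⟨v, hv, hv'⟩ := hx
    exact Finset.prod_eq_zero hv (if_neg hv')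

theorem markov (f : (V → Ω) → ℝ) (hf : ∀ x, 0 ≤ f x) {t : ℝ} (ht : 0 < t) :
    Pr (fun x => t ≤ f x) ≤ Ex f / t := by
  rw [Pr, Ex, le_div_iff₀ ht, div_mul_eq_mul_div]
  refine div_le_div_of_nonneg_right ?_ (Nat.cast_nonneg _)
  calc ((univ.filter fun x : V → Ω => t ≤ f x).card : ℝ) * t
      = ∑ x ∈ univ.filter fun x : V → Ω => t ≤ f x, t := by
        rw [Finset.sum_const, nsmul_eq_mul]
    _ ≤ ∑ x ∈ univ.filter fun x : V → Ω => t ≤ f x, f x :=
        Finset.sum_le_sum fun x hx => (Finset.mem_filter.1 hx).2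
    _ ≤ ∑ x, f x := Finset.sum_le_sum_of_subset_of_nonneg (Finset.filter_subset _ _)
        fun x _ _ => hf x

end Pool.Agent.H23.RS
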